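import Pool.Agent.LibCM2.Defs
import Pool.Agent.LibMH.Defs

/-!
# WX: multiple Hurwitz zeta values, polylogarithmic exceptional sets: definitions

`pw q x v n`, `sw q x v`, `Adms` (LibMH/Defs.lean): the partial sums, the infinite sums, the admissible words.
`qs t v n` is the quasi-symmetric function: `pw q x v n = qs (fun m => 1 / (q m + x)) v n`.
`wd : Fin N → List ℕ` enumerates the nonempty words with positive letters and weight `≤ w`; `α : Fin N → ℕ` is the exponent of a monomial in these words, of weight `wg wd α`.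
-/

namespace WX

open Finset Polynomial CM68

/-- the sum of `∏ (t m_i)^(k_i)` over `n > m_1 > .. > m_r ≥ 0` -/
noncomputable def qs (t : ℕ → ℝ) : List ℕ → ℕ → ℝ
  | [], _ => 1
  | k :: v, n => ∑ m ∈ range n, t m ^ k * qs t v m

/-- the monomial `α` in the numbers `qs t (wd i) n` -/
noncomputable def qm {N : ℕ} (wd : Fin N → List ℕ) (t : ℕ → ℝ) (n : ℕ) (α : Fin N → ℕ) : ℝ :=
  ∏ i, qs t (wd i) n ^ α i

/-- the weight of an exponent -/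
def wg {N : ℕ} (wd : Fin N → List ℕ) (α : Fin N → ℕ) : ℕ := ∑ i, α i * (wd i).sum

/-- the exponent of the word `u` (zero for the empty word) -/
def ixw {N : ℕ} (wd : Fin N → List ℕ) (u : List ℕ) : Fin N → ℕ := fun i => if wd i = u then 1 else 0

/-- the monomial `α` in the partial sums of the words `wd i` -/
noncomputable def pm {N : ℕ} (q : ℕ) (wd : Fin N → List ℕ) (T : ℕ) (α : Fin N → ℕ) (j : ℕ) : ℝ :=
  ∏ i, pw q ((j % q : ℕ) : ℝ) (wd i) (j / q + T + 1) ^ α i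

/-- the tails: the sum over `m_1 > .. > m_r > j / q + T` -/
noncomputable def aw (q T : ℕ) (u : List ℕ) (j : ℕ) : ℝ := sw q ((j : ℝ) + q * (T + 1)) u

/-- the rows -/
noncomputable def rwf {N H : ℕ} (q : ℕ) (wd : Fin N → List ℕ) (φ : Fin H → ℕ → ℚ) (T : ℕ)
    (h : Fin H) (α : Fin N → ℕ) (j : ℕ) : ℝ := (φ h (j % q) : ℝ) * pm q wd T α j

/-- positive letters -/
def Pos (v : List ℕ) : Prop := ∀ k ∈ v, 1 ≤ k

/-- the words `wd i` are the nonempty words of weight `≤ w`, each once -/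
structure IsWd {N : ℕ} (w : ℕ) (wd : Fin N → List ℕ) : Prop where
  inj : Function.Injective wd
  mem : ∀ v : List ℕ, (∃ i, wd i = v) ↔ v ≠ [] ∧ Pos v ∧ v.sum ≤ w

/-- the monomials `α ∈ Λ` are a basis of the space of the polynomials of degree `≤ B`, as functions of `(t, n)` -/
structure IsBs {N : ℕ} (wd : Fin N → List ℕ) (B : ℕ) (Λ : Finset (Fin N → ℕ)) : Prop where
  sub : Λ ⊆ expo N B
  ind : ∀ a : (Fin N → ℕ) → ℝ, (∀ (t : ℕ → ℝ) (n : ℕ), ∑ α ∈ Λ, a α * qm wd t n α = 0) →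
    ∀ α ∈ Λ, a α = 0
  span : ∀ β ∈ expo N B, ∃ a : (Fin N → ℕ) → ℝ, (∀ α, a α ≠ 0 → α ∈ Λ ∧ wg wd α = wg wd β) ∧
    ∀ (t : ℕ → ℝ) (n : ℕ), qm wd t n β = ∑ α ∈ Λ, a α * qm wd t n α

/-- the function of `(t, n)` is a combination of the functions of words with positive letters -/
def QF (F : (ℕ → ℝ) → ℕ → ℝ) : Prop :=
  ∃ (Fc : Finset (List ℕ)) (c : List ℕ → ℝ), (∀ v ∈ Fc, Pos v) ∧
    ∀ (t : ℕ → ℝ) (n : ℕ), F t n = ∑ v ∈ Fc, c v * qs t v n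

/-- the iterates of `v ↦ (v (X + c)) U` -/
noncomputable def itv {ι : Type*} [Fintype ι] (c : ℝ) (U : ι → ι → ℝ[X]) (v : ι → ℝ[X]) :
    ℕ → ι → ℝ[X]
  | 0 => v
  | l + 1 => fun i => ∑ i', taylor c (itv c U v l i') * U i' i

/-- the leading part of the relation `l`, times the monomial `α'`, in the coordinates of the rows -/
noncomputable def rvec {N H H' : ℕ} (wd : Fin N → List ℕ) (Λ : Finset (Fin N → ℕ))
    (Ws : Finset (List ℕ)) (e : ℕ) (a : (Fin N → ℕ) → (Fin N → ℕ) → ℝ)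
    (t : Fin H' → List ℕ → Fin H → ℝ) (l : Fin H') (α' : Fin N → ℕ) (s : Fin H × Λ) : ℝ :=
  ∑ u ∈ Ws.filter (fun u => u.sum = e), t l u s.1 * a (ixw wd u + α') s.2

/-- the relation `∑ u ∈ Ws, c u x * sw q x u = 0`, `x ∈ I`, of weight exactly `e`, and the functions `φ`, `ψ` -/
structure RelW {N H H' : ℕ} (q w B e : ℕ) (wd : Fin N → List ℕ) (Λ Λ' : Finset (Fin N → ℕ))
    (I : Finset ℕ) (φ : Fin H → ℕ → ℚ) (ψ : Fin H' → ℕ → ℚ) (Ws : Finset (List ℕ))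
    (c : List ℕ → ℕ → ℝ) (a : (Fin N → ℕ) → (Fin N → ℕ) → ℝ)
    (t : Fin H' → List ℕ → Fin H → ℝ) : Prop where
  hq : 2 ≤ q
  hB : 1 ≤ B
  he : 1 ≤ e
  hwd : IsWd w wd
  hΛ : IsBs wd B Λ
  hΛ' : IsBs wd (B - 1) Λ'
  hI : ∀ x ∈ I, 0 < x ∧ x < q
  hWs : ∀ u : List ℕ, u ∈ Ws ↔ Adms u ∧ u.sum ≤ w
  hψ : ∀ b : Fin H' → ℝ, (∀ x ∈ I, ∑ l, b l * (ψ l x : ℝ) = 0) → b = 0
  hmul : ∀ l, ∀ u ∈ Ws, ∀ x ∈ I, (ψ l x : ℝ) * c u x = ∑ h, t l u h * (φ h x : ℝ)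
  ha : ∀ β ∈ expo N B, (∀ α, a β α ≠ 0 → α ∈ Λ ∧ wg wd α = wg wd β) ∧
    ∀ (t : ℕ → ℝ) (n : ℕ), qm wd t n β = ∑ α ∈ Λ, a β α * qm wd t n α
  hsup : ∀ x ∈ I, ∀ u ∈ Ws, c u x ≠ 0 → u.sum ≤ e
  hlead : ∀ x ∈ I, ∃ u ∈ Ws, u.sum = e ∧ c u x ≠ 0
  hrel : ∀ x ∈ I, ∑ u ∈ Ws, c u x * sw q (x : ℝ) u = 0

/-- The data: level `q`, words of weight `≤ w`, degree `≤ B`; the rows are `φ h (j % q) * pm α j`, `(h, α) ∈ Fin H × Λ`; the `φ h` are independent on every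
large subset of `I`; every row is a combination of the rows of `Sg` and of rows of smaller weight, the latter with coefficients constant or constant times a tail. -/
structure DatW where
  q : ℕ
  w : ℕ
  N : ℕ
  B : ℕ
  H : ℕ
  Sp : ℕ
  wd : Fin N → List ℕ
  Λ : Finset (Fin N → ℕ)
  I : Finset ℕ
  φ : Fin H → ℕ → ℚ
  Sg : Finset (Fin H × Λ)
  hq : 2 ≤ q
  hw : 1 ≤ w
  hB : 1 ≤ B
  hwd : IsWd w wd
  hΛ : IsBs wd B Λ
  hI : ∀ x ∈ I, 0 < x ∧ x < q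
  hIne : I.Nonempty
  hspread : ∀ F : Finset ℕ, F ⊆ I → Sp * (I \ F).card ≤ I.card → ∀ a : Fin H → ℝ,
    (∀ x ∈ F, ∑ h, a h * (φ h x : ℝ) = 0) → a = 0
  hgood : ∀ s : Fin H × Λ, ∃ (c₀ : Fin H × Λ → ℝ) (c : Fin N → Fin H × Λ → ℝ),
    (∀ s', c₀ s' ≠ 0 → s' ∈ Sg ∨ wg wd s'.2 < wg wd s.2) ∧
    (∀ i s', c i s' ≠ 0 → Adms (wd i) ∧ wg wd s'.2 < wg wd s.2) ∧
    ∀ T j : ℕ, j % q ∈ I → rwf q wd φ T s.1 s.2 j =
      ∑ s', c₀ s' * rwf q wd φ T s'.1 s'.2 j +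
        ∑ i, ∑ s', c i s' * aw q T (wd i) j * rwf q wd φ T s'.1 s'.2 j

namespace DatW

variable (D : DatW)

/-- the index set of the rows -/
abbrev Ix : Type := Fin D.H × D.Λ

/-- the nodes `j` -/
def Nd (n : ℕ) : Finset ℕ := P D.q n D.I

/-- the total exponent -/
def W : ℕ := D.w * D.B

/-- the number of the rows -/
def L : ℕ := D.H * D.Λ.card

/-- the rows -/
noncomputable def row (T : ℕ) (s : D.Ix) (j : ℕ) : ℝ := rwf D.q D.wd D.φ T s.1 s.2 j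

/-- the rows times binomial coefficients -/
noncomputable def rowc (T : ℕ) (s : D.Ix) (i j : ℕ) : ℝ := D.row T s j * (j.choose i : ℝ)

/-- the column factors -/
noncomputable def wt (n T j : ℕ) : ℕ := ⌊|(WP D.q n T D.W).eval (j : ℝ)|⌋₊

/-- the span of the rows of the first type, as functions on the nodes -/
noncomputable def rsp (n T d : ℕ) : Submodule ℝ (D.Nd n → ℝ) :=
  Submodule.span ℝ (Set.range fun (a : D.Sg × Fin d) (j : D.Nd n) => D.rowc T a.1.1 a.2 (j : ℕ))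

end DatW

end WX
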