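import Pool.Agent.LibCM2.C1
import Pool.Agent.LibMH.R2
import Pool.Agent.LibWX.WDefs

/-!
# WX: basic facts (helper5)
-/

namespace WX

open Finset Polynomial CM68

theorem qs_nil (t : ℕ → ℝ) (n : ℕ) : qs t [] n = 1 := by
  simp [qs]

theorem qs_cons (t : ℕ → ℝ) (k : ℕ) (v : List ℕ) (n : ℕ) :
    qs t (k :: v) n = ∑ m ∈ range n, t m ^ k * qs t v m := by
  simp [qs]

theorem pw_qs (q : ℕ) (x : ℝ) (v : List ℕ) (n : ℕ) :
    pw q x v n = qs (fun m => 1 / ((q : ℝ) * m + x)) v n := by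
  induction v generalizing n with
  | nil => simp [pw, qs]
  | cons k v ih =>
    simp only [pw, qs]
    refine Finset.sum_congr rfl fun m _ => ?_
    rw [ih m, one_div_pow]

theorem pm_qm {N : ℕ} (q : ℕ) (wd : Fin N → List ℕ) (T : ℕ) (α : Fin N → ℕ) (j : ℕ) :
    pm q wd T α j = qm wd (fun m => 1 / ((q : ℝ) * m + ((j % q : ℕ) : ℝ))) (j / q + T + 1) α := by
  unfold pm qm
  refine Finset.prod_congr rfl fun i _ => ?_
  rw [pw_qs]

theorem qm_add {N : ℕ} (wd : Fin N → List ℕ) (t : ℕ → ℝ) (n : ℕ) (α β : Fin N → ℕ) :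
    qm wd t n (α + β) = qm wd t n α * qm wd t n β := by
  unfold qm
  rw [← Finset.prod_mul_distrib]
  exact Finset.prod_congr rfl fun i _ => by rw [Pi.add_apply, pow_add]

theorem qm_zero {N : ℕ} (wd : Fin N → List ℕ) (t : ℕ → ℝ) (n : ℕ) : qm wd t n 0 = 1 := by
  simp [qm]

theorem pm_add {N : ℕ} (q : ℕ) (wd : Fin N → List ℕ) (T : ℕ) (α β : Fin N → ℕ) (j : ℕ) :
    pm q wd T (α + β) j = pm q wd T α j * pm q wd T β j := by
  rw [pm_qm, pm_qm, pm_qm, qm_add]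

theorem wg_add {N : ℕ} (wd : Fin N → List ℕ) (α β : Fin N → ℕ) :
    wg wd (α + β) = wg wd α + wg wd β := by
  unfold wg
  rw [← Finset.sum_add_distrib]
  exact Finset.sum_congr rfl fun i _ => by rw [Pi.add_apply, add_mul]

theorem wg_le {N w B : ℕ} {wd : Fin N → List ℕ} (hwd : IsWd w wd) {α : Fin N → ℕ}
    (hα : α ∈ expo N B) : wg wd α ≤ w * B := by
  unfold wg
  calc ∑ i, α i * (wd i).sum ≤ ∑ i, α i * w := by
        refine Finset.sum_le_sum fun i _ => Nat.mul_le_mul_left _ ?_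
        exact ((hwd.mem (wd i)).1 ⟨i, rfl⟩).2.2
    _ = (∑ i, α i) * w := by rw [Finset.sum_mul]
    _ ≤ B * w := Nat.mul_le_mul_right _ (mem_expo.1 hα)
    _ = w * B := Nat.mul_comm _ _

/-- a word of weight `≤ w` is empty or one of the `wd i` -/
theorem wd_cases {N w : ℕ} {wd : Fin N → List ℕ} (hwd : IsWd w wd) {u : List ℕ} (hu : Pos u)
    (hs : u.sum ≤ w) : u = [] ∨ ∃ i, wd i = u := by
  by_cases h : u = []
  · exact Or.inl h
  · exact Or.inr ((hwd.mem u).2 ⟨h, hu, hs⟩)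

theorem ixw_nil {N w : ℕ} {wd : Fin N → List ℕ} (hwd : IsWd w wd) : ixw wd [] = 0 := by
  funext i
  unfold ixw
  rw [if_neg]
  · rfl
  · exact ((hwd.mem (wd i)).1 ⟨i, rfl⟩).1

theorem ixw_wd {N w : ℕ} {wd : Fin N → List ℕ} (hwd : IsWd w wd) (i : Fin N) :
    ixw wd (wd i) = Pi.single i 1 := by
  funext i'
  unfold ixw
  by_cases h : i' = i
  · subst h
    rw [if_pos rfl, Pi.single_eq_same]
  · rw [if_neg (fun h1 => h (hwd.inj h1)), Pi.single_eq_of_ne h]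

theorem ixw_expo {N w : ℕ} {wd : Fin N → List ℕ} (hwd : IsWd w wd) {u : List ℕ} (hu : Pos u)
    (hs : u.sum ≤ w) : ∑ i, ixw wd u i ≤ 1 := by
  rcases wd_cases hwd hu hs with rfl | ⟨i, rfl⟩
  · rw [ixw_nil hwd]
    simp
  · rw [ixw_wd hwd]
    rw [Finset.sum_pi_single']
    simp

theorem qm_ixw {N w : ℕ} {wd : Fin N → List ℕ} (hwd : IsWd w wd) {u : List ℕ} (hu : Pos u)
    (hs : u.sum ≤ w) (t : ℕ → ℝ) (n : ℕ) : qm wd t n (ixw wd u) = qs t u n := by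
  rcases wd_cases hwd hu hs with rfl | ⟨i, rfl⟩
  · rw [ixw_nil hwd, qm_zero, qs_nil]
  · rw [ixw_wd hwd]
    unfold qm
    rw [Finset.prod_eq_single i]
    · rw [Pi.single_eq_same, pow_one]
    · intro i' _ h
      rw [Pi.single_eq_of_ne h, pow_zero]
    · intro h
      exact absurd (Finset.mem_univ i) h

theorem wg_ixw {N w : ℕ} {wd : Fin N → List ℕ} (hwd : IsWd w wd) {u : List ℕ} (hu : Pos u)
    (hs : u.sum ≤ w) : wg wd (ixw wd u) = u.sum := by
  rcases wd_cases hwd hu hs with rfl | ⟨i, rfl⟩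
  · rw [ixw_nil hwd]
    simp [wg]
  · rw [ixw_wd hwd]
    unfold wg
    rw [Finset.sum_eq_single i]
    · rw [Pi.single_eq_same, one_mul]
    · intro i' _ h
      rw [Pi.single_eq_of_ne h, zero_mul]
    · intro h
      exact absurd (Finset.mem_univ i) h

theorem pm_ixw {N w : ℕ} {wd : Fin N → List ℕ} (hwd : IsWd w wd) {u : List ℕ} (hu : Pos u)
    (hs : u.sum ≤ w) (q T j : ℕ) :
    pm q wd T (ixw wd u) j = pw q ((j % q : ℕ) : ℝ) u (j / q + T + 1) := by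
  rw [pm_qm, qm_ixw hwd hu hs, pw_qs]

/-- the shift of the partial sums of one word -/
theorem pw_shift {q : ℕ} (hq : 1 ≤ q) (k : ℕ) (v : List ℕ) (T j : ℕ) :
    pw q (((j + q) % q : ℕ) : ℝ) (k :: v) ((j + q) / q + T + 1) =
      pw q ((j % q : ℕ) : ℝ) (k :: v) (j / q + T + 1) +
        1 / ((j : ℝ) + q * (T + 1)) ^ k * pw q ((j % q : ℕ) : ℝ) v (j / q + T + 1) := by
  have h1 : (j + q) % q = j % q := Nat.add_mod_right j q
  have h2 : (j + q) / q = j / q + 1 := Nat.add_div_right j (by omega)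
  rw [h1, h2]
  have h3 : j / q + 1 + T + 1 = (j / q + T + 1) + 1 := by ring
  rw [h3]
  simp only [pw]
  rw [Finset.sum_range_succ]
  have h4 : (j : ℝ) = (q : ℝ) * ((j / q : ℕ) : ℝ) + ((j % q : ℕ) : ℝ) := by
    exact_mod_cast (Nat.div_add_mod j q).symm
  have h5 : (q : ℝ) * ((j / q + T + 1 : ℕ) : ℝ) + ((j % q : ℕ) : ℝ) = (j : ℝ) + q * (T + 1) := by
    conv_rhs => rw [h4]
    push_cast
    ring
  rw [h5]

/-- the relation at a node: deconcatenation -/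
theorem sw_node {q : ℕ} (hq : 1 ≤ q) (T : ℕ) {j : ℕ} (hj : 0 < j % q) {u : List ℕ} (hu : Adms u) :
    sw q ((j % q : ℕ) : ℝ) u = ∑ i ∈ range (u.length + 1),
      aw q T (u.take i) j * pw q ((j % q : ℕ) : ℝ) (u.drop i) (j / q + T + 1) := by
  rw [sw_split hq (x := ((j % q : ℕ) : ℝ)) (by exact_mod_cast hj) hu (j / q + T + 1)]
  have h4 : (j : ℝ) = (q : ℝ) * ((j / q : ℕ) : ℝ) + ((j % q : ℕ) : ℝ) := by
    exact_mod_cast (Nat.div_add_mod j q).symm
  have h5 : ((j % q : ℕ) : ℝ) + (q : ℝ) * ((j / q + T + 1 : ℕ) : ℝ) = (j : ℝ) + q * (T + 1) := by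
    conv_rhs => rw [h4]
    push_cast
    ring
  refine Finset.sum_congr rfl fun i _ => ?_
  unfold aw
  rw [h5]

end WX
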