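import Pool.Agent.LibMH.R4
import Pool.Agent.LibWX.WBase

/-!
# Row W11: the monomials in the tails are approximated by polynomials (MEDIUM; templates LibMH/R4.lean (`A_poly4`), LibCM3/B4.lean (powers and products))

Put `a = q n / 2 + q (r n + 1)`, `h = q n / 2`, `R = 2 r + 1`, `y = j - q n / 2` as in the proof of `A_poly4`.  For an admissible word `u`: `apx_sw` (LibMH/R4), `apx_mono` (`sw q a u ≤ sw 1 1 u ≤ K₁`,
`K₁ = 1 + ∑ i, sw 1 1 (wd i)`; exponent `u.sum + u.length ≤ 2 w`).  The product of `∑ μ ≤ m₀` factors: `apx_mul` repeatedly: constant `K₁^m₀`, exponent `(2 w + 1) m₀` (for every factor with `μ i ≠ 0`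
`wd i` is admissible; factors with `μ i = 0` are `1`), `apx_mono`.  `apx_poly` (LibCM2/B1) and `G = G₁.comp (X - C (q n / 2))`.  Any constants are allowed.
-/

namespace WX

open Finset Polynomial CM68

private theorem w11_params {q n r : ℕ} (hq : 1 ≤ q) (hn : 1 ≤ n) (hr : 1 ≤ r) :
    0 < (q : ℝ) * n / 2 ∧ (2 : ℝ) ≤ 2 * r + 1 ∧ 1 ≤ (q : ℝ) * n / 2 + q * (r * n + 1) := by
  have hqR : (1 : ℝ) ≤ q := by exact_mod_cast hq
  have hnR : (1 : ℝ) ≤ n := by exact_mod_cast hn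
  have hrR : (1 : ℝ) ≤ r := by exact_mod_cast hr
  refine ⟨by positivity, by linarith, ?_⟩
  have h1 : 0 ≤ (q : ℝ) * n / 2 := by positivity
  have h2 : (0 : ℝ) ≤ r * n := by positivity
  nlinarith

private theorem w11_len (v : List ℕ) (hv : ∀ k ∈ v, 1 ≤ k) : v.length ≤ v.sum := by
  induction v with
  | nil => simp
  | cons k v ih =>
    rw [List.sum_cons, List.length_cons]
    have h1 := ih fun k hk => hv k (List.mem_cons_of_mem _ hk)
    have h2 := hv k List.mem_cons_self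
    omega

private theorem w11_pow {h R K : ℝ} {w : ℕ} {f : ℝ → ℝ} (hh : 0 < h) (hR : 2 ≤ R) (hK : 0 ≤ K)
    (a : ℕ) (hf : a ≠ 0 → Apx h R K w f) :
    Apx h R (K ^ a) (a * (w + 1)) fun v => f v ^ a := by
  rcases Nat.eq_zero_or_pos a with h0 | h0
  · subst h0
    simp only [pow_zero, Nat.zero_mul]
    exact apx_one hh hR
  · have hf' := hf (by omega)
    clear hf h0
    induction a with
    | zero =>
      simp only [pow_zero, Nat.zero_mul]
      exact apx_one hh hR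
    | succ a ih =>
      have h1 := apx_mul hh hR (by positivity) hK ih hf'
      have h2 : a * (w + 1) + w + 1 = (a + 1) * (w + 1) := by ring
      rw [h2] at h1
      simp only [pow_succ]
      exact h1

private theorem w11_prod {h R K : ℝ} {w n : ℕ} {f : Fin n → ℝ → ℝ} (hh : 0 < h) (hR : 2 ≤ R)
    (hK : 0 ≤ K) (a : Fin n → ℕ) (hf : ∀ i, a i ≠ 0 → Apx h R K w (f i)) (s : Finset (Fin n)) :
    Apx h R (K ^ ∑ i ∈ s, a i) ((∑ i ∈ s, a i) * (w + 1) + s.card)
      fun v => ∏ i ∈ s, f i v ^ a i := by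
  classical
  induction s using Finset.induction_on with
  | empty =>
    simp only [Finset.sum_empty, Finset.prod_empty, pow_zero, Nat.zero_mul, Finset.card_empty]
    exact apx_one hh hR
  | insert i s hi ih =>
    have h1 := apx_mul hh hR (by positivity) (by positivity)
      (w11_pow hh hR hK (a i) (hf i)) ih
    have h2 : a i * (w + 1) + ((∑ i ∈ s, a i) * (w + 1) + s.card) + 1 =
        (∑ i ∈ insert i s, a i) * (w + 1) + (insert i s).card := by
      rw [Finset.sum_insert hi, Finset.card_insert_of_notMem hi]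
      ring
    rw [h2] at h1
    rw [← pow_add, ← Finset.sum_insert hi] at h1
    simp only [Finset.prod_insert hi]
    exact h1

theorem Av_polyW {q w N : ℕ} (hq : 1 ≤ q) {wd : Fin N → List ℕ} (hwd : IsWd w wd) (m₀ : ℕ) :
    ∃ (K : ℝ) (ec : ℕ), 1 ≤ K ∧ ∀ n r m : ℕ, 1 ≤ n → 1 ≤ r → 1 ≤ m →
      ∀ μ : Fin N → ℕ, ∑ i, μ i ≤ m₀ → (∀ i, μ i ≠ 0 → Adms (wd i)) →
      ∃ G : ℝ[X], G.natDegree < m ∧ ∀ j : ℕ, j < q * n →
        |(∏ i, aw q (r * n) (wd i) j ^ μ i) - G.eval (j : ℝ)| ≤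
          K * ((m : ℝ) + 1) ^ ec * (1 / (2 * (r : ℝ) + 1)) ^ m := by
  obtain ⟨K₁, hK₁⟩ : ∃ K₁ : ℝ, K₁ = 1 + ∑ i, sw 1 1 (wd i) := ⟨_, rfl⟩
  obtain ⟨ec, hec⟩ : ∃ ec : ℕ, ec = m₀ * (2 * w + 1) + N := ⟨_, rfl⟩
  have hsn : ∀ i, 0 ≤ sw 1 1 (wd i) := fun i => sw_nonneg 1 (by norm_num) (wd i)
  have hK1 : 1 ≤ K₁ := by
    rw [hK₁]
    have := Finset.sum_nonneg fun i (_ : i ∈ Finset.univ) => hsn i
    linarith
  have hKm : 1 ≤ K₁ ^ m₀ := one_le_pow₀ hK1
  refine ⟨K₁ ^ m₀ * ce ec, ec, one_le_mul_of_one_le_of_one_le hKm (ce_pos ec), ?_⟩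
  intro n r m hn hr hm μ hμ hadm
  obtain ⟨hh, hR, ha⟩ := w11_params (q := q) (n := n) (r := r) hq hn hr
  have hf : ∀ i, μ i ≠ 0 → Apx ((q : ℝ) * n / 2) (2 * r + 1) K₁ (2 * w)
      fun y => sw q (((q : ℝ) * n / 2 + q * (r * n + 1)) + y) (wd i) := by
    intro i hi
    have hA := hadm i hi
    have h1 := apx_sw (n := n) (r := r) hq hn hr hA
    have hK : sw q ((q : ℝ) * n / 2 + q * (r * n + 1)) (wd i) ≤ K₁ := by
      refine (sw_mono_x hq ha hA).trans ?_
      have h2 : sw 1 1 (wd i) ≤ ∑ i, sw 1 1 (wd i) :=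
        Finset.single_le_sum (f := fun i => sw 1 1 (wd i)) (fun i _ => hsn i) (Finset.mem_univ i)
      rw [hK₁]
      linarith
    have hK0 : 0 ≤ sw q ((q : ℝ) * n / 2 + q * (r * n + 1)) (wd i) := sw_nonneg _ (by linarith) _
    have he : (wd i).sum + (wd i).length ≤ 2 * w := by
      have h2 := w11_len (wd i) hA.1
      have h3 := ((hwd.mem (wd i)).1 ⟨i, rfl⟩).2.2
      omega
    exact apx_mono hh hR hK he hK0 h1
  have hP := w11_prod hh hR (by linarith) μ hf Finset.univ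
  have hKl : K₁ ^ (∑ i, μ i) ≤ K₁ ^ m₀ := pow_le_pow_right₀ hK1 hμ
  have hel : (∑ i, μ i) * (2 * w + 1) + (Finset.univ : Finset (Fin N)).card ≤ ec := by
    rw [Finset.card_univ, Fintype.card_fin, hec]
    have := Nat.mul_le_mul_right (2 * w + 1) hμ
    omega
  have hA := apx_mono hh hR hKl hel (by positivity) hP
  obtain ⟨G, hG, hGv⟩ := apx_poly hh hR (by linarith) hA hm
  refine ⟨G.comp (X - C ((q : ℝ) * n / 2)), ?_, fun j hj => ?_⟩
  · rw [natDegree_comp, natDegree_X_sub_C, mul_one]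
    exact hG
  · have hj1 : (j : ℝ) ≤ q * n := by exact_mod_cast hj.le
    have hj0 : (0 : ℝ) ≤ j := Nat.cast_nonneg j
    have hv : |(j : ℝ) - (q : ℝ) * n / 2| ≤ (q : ℝ) * n / 2 := by
      rw [abs_le]
      constructor <;> linarith
    have h2 := hGv _ hv
    have h3 : ∏ i, aw q (r * n) (wd i) j ^ μ i =
        ∏ i, sw q (((q : ℝ) * n / 2 + q * (r * n + 1)) + ((j : ℝ) - (q : ℝ) * n / 2)) (wd i) ^ μ i := by
      refine Finset.prod_congr rfl fun i _ => ?_
      unfold aw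
      congr 2
      push_cast
      ring
    rw [eval_comp, eval_sub, eval_X, eval_C, h3]
    exact h2

end WX
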