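import Pool.Agent.LibMH.R11
import Pool.Agent.LibWX.WBase

/-!
# Row W3: independence of the words over the polynomials, one class (MEDIUM)

`words_ind`: from `zeroW4` (LibMH/R11.lean) with `I = F = {x}`.  Let `Fc'` be the set of all prefixes of the words of `Fc` (`Fc.biUnion fun v => (v.inits).toFinset`: prefix-closed, positive letters),
`w` a bound for the sums, `p' v = if v ∈ Fc then (p v).comp (X + C (q * t₀)) else 0`, `T' = T + t₀`: for `j = x + q l` the hypothesis at `l + t₀` is
`∑_{v ∈ Fc'} (p' v).eval j * pw q x v (j / q + T' + 1) = 0` (`j % q = x`, `j / q = l`).  If some `p v ≠ 0`: let `β ∈ Fc'` have `p' β ≠ 0` with `β.length` maximal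
(`Finset.exists_max_image`); `p' (β ++ v) = 0` for `v ≠ []` (longer, or not in `Fc`).  `W` = span of the `p' v`, `v ∈ Fc'` (finite dimensional, `S = finrank`), `d₁` a bound for the degrees.
`zeroW4` gives `1 * (n - L) ≤ L * (d₁ + w L)`, `L = Fc'.card * S`, for ALL `n`: contradiction for `n = L + L * (d₁ + w L) + 1`.
`qs_ind`: `words_ind` with `q = 2`, `x = 1`, `T = t₀ = 0`, `p v = C (a v)` (`pw_qs`).
-/

namespace WX

open Finset Polynomial CM68

private theorem w3_prefix (Fc : Finset (List ℕ)) (u : List ℕ) :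
    u ∈ Fc.biUnion (fun v => v.inits.toFinset) ↔ ∃ v ∈ Fc, u <+: v := by
  rw [Finset.mem_biUnion]
  refine exists_congr fun v => and_congr_right fun _ => ?_
  rw [List.mem_toFinset, List.mem_inits]

theorem words_ind {q x : ℕ} (hx : 0 < x ∧ x < q) (Fc : Finset (List ℕ)) (hFc : ∀ v ∈ Fc, Pos v)
    (T t₀ : ℕ) (p : List ℕ → ℝ[X])
    (h : ∀ l, t₀ ≤ l →
      ∑ v ∈ Fc, (p v).eval ((x : ℝ) + q * l) * pw q (x : ℝ) v (l + T + 1) = 0) :
    ∀ v ∈ Fc, p v = 0 := by
  classical
  by_contra hcon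
  push Not at hcon
  obtain ⟨v₀, hv₀, hne⟩ := hcon
  set Fc' : Finset (List ℕ) := Fc.biUnion (fun v => v.inits.toFinset) with hFc'
  have hmem : ∀ u, u ∈ Fc' ↔ ∃ v ∈ Fc, u <+: v := fun u => w3_prefix Fc u
  have hsub : Fc ⊆ Fc' := fun v hv => (hmem v).2 ⟨v, hv, List.prefix_rfl⟩
  set p' : List ℕ → ℝ[X] := fun v =>
    if v ∈ Fc then (p v).comp (X + C ((q : ℝ) * t₀)) else 0 with hp'
  have hp'0 : ∀ v, v ∉ Fc → p' v = 0 := fun v hv => by rw [hp']; simp [hv]
  have hp'1 : ∀ v ∈ Fc, p' v = (p v).comp (X + C ((q : ℝ) * t₀)) := fun v hv => by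
    rw [hp']; simp [hv]
  have hne' : p' v₀ ≠ 0 := by
    rw [hp'1 v₀ hv₀]
    intro h0
    apply hne
    rw [Polynomial.comp_eq_zero_iff] at h0
    rcases h0 with h0 | ⟨-, h0⟩
    · exact h0
    · exfalso
      have h1 := congrArg Polynomial.natDegree h0
      rw [Polynomial.natDegree_X_add_C, Polynomial.natDegree_C] at h1
      exact one_ne_zero h1
  -- the longest word
  obtain ⟨β, hβ, hβmax⟩ := Finset.exists_max_image (Fc'.filter fun v => p' v ≠ 0) List.length
    ⟨v₀, Finset.mem_filter.2 ⟨hsub hv₀, hne'⟩⟩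
  rw [Finset.mem_filter] at hβ
  -- the space
  set W : Submodule ℝ ℝ[X] := Submodule.span ℝ ((Fc'.image p' : Finset ℝ[X]) : Set ℝ[X]) with hW
  have hWfin : Module.Finite ℝ W := Module.Finite.span_finset ℝ _
  have hpW : ∀ v, p' v ∈ W := by
    intro v
    by_cases hv : v ∈ Fc
    · exact Submodule.subset_span (Finset.mem_coe.2 (Finset.mem_image_of_mem _ (hsub hv)))
    · rw [hp'0 v hv]
      exact W.zero_mem
  set d₁ : ℕ := Fc'.sup (fun v => (p' v).natDegree) with hd₁
  have hWdeg : ∀ f ∈ W, f.natDegree ≤ d₁ := by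
    have h1 : W ≤ Polynomial.degreeLE ℝ (d₁ : WithBot ℕ) := by
      rw [hW, Submodule.span_le]
      intro f hf
      rw [Finset.mem_coe, Finset.mem_image] at hf
      obtain ⟨v, hv, rfl⟩ := hf
      rw [SetLike.mem_coe, Polynomial.mem_degreeLE]
      exact Polynomial.natDegree_le_iff_degree_le.1
        (Finset.le_sup (f := fun v => (p' v).natDegree) hv)
    intro f hf
    exact Polynomial.natDegree_le_iff_degree_le.2 (Polynomial.mem_degreeLE.1 (h1 hf))
  set w : ℕ := Fc'.sup List.sum with hw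
  set S : ℕ := Module.finrank ℝ W with hS
  set L : ℕ := Fc'.card * S with hL
  have key := zeroW4 (q := q) (n := L + L * (d₁ + w * L) + 1) (d₁ := d₁) (w := w) (T := T + t₀)
    (S := S) (by omega) (I := {x}) (by
      intro y hy
      rw [Finset.mem_singleton] at hy
      omega) Fc' (by
      intro u v huv
      obtain ⟨v', hv', h1⟩ := (hmem _).1 huv
      exact (hmem u).2 ⟨v', hv', (List.prefix_append u v).trans h1⟩) (by
      intro v hv k hk
      obtain ⟨v', hv', h1⟩ := (hmem _).1 hv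
      exact hFc v' hv' k (h1.subset hk)) (fun v hv => Finset.le_sup hv) W le_rfl hWdeg
    (fun _ v => p' v) (fun _ _ v => hpW v) (by
      intro j hj
      have hjx : j % q = x := by
        rw [P, Finset.mem_filter, Finset.mem_singleton] at hj
        exact hj.2
      have hjq : (j : ℝ) = q * ((j / q : ℕ) : ℝ) + x := by
        have h1 := Nat.div_add_mod j q
        rw [hjx] at h1
        exact_mod_cast h1.symm
      have h2 := h (j / q + t₀) (Nat.le_add_left _ _)
      rw [hjx, ← Finset.sum_subset hsub (fun v _ hv => by rw [hp'0 v hv]; simp)]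
      rw [← h2]
      refine Finset.sum_congr rfl fun v hv => ?_
      have e1 : (p' v).eval (j : ℝ) = (p v).eval ((x : ℝ) + q * ((j / q + t₀ : ℕ) : ℝ)) := by
        rw [hp'1 v hv, Polynomial.eval_comp, Polynomial.eval_add, Polynomial.eval_X,
          Polynomial.eval_C]
        congr 1
        rw [hjq]
        push_cast
        ring
      have e2 : j / q + (T + t₀) + 1 = j / q + t₀ + T + 1 := by ring
      rw [e1, e2]) hβ.1 {x} (Finset.Subset.refl _) (by
      intro y _
      refine ⟨hβ.2, fun v hv => ?_⟩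
      by_contra hne2
      have h3 : β ++ v ∈ Fc := by
        by_contra h4
        exact hne2 (hp'0 _ h4)
      have h4 := hβmax (β ++ v) (Finset.mem_filter.2 ⟨hsub h3, hne2⟩)
      rw [List.length_append] at h4
      have h5 : 0 < v.length := List.length_pos_iff.2 hv
      omega)
  rw [Finset.card_singleton, one_mul, ← hL] at key
  omega

theorem qs_ind (Fc : Finset (List ℕ)) (hFc : ∀ v ∈ Fc, Pos v) (a : List ℕ → ℝ)
    (h : ∀ (t : ℕ → ℝ) (n : ℕ), ∑ v ∈ Fc, a v * qs t v n = 0) : ∀ v ∈ Fc, a v = 0 := by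
  intro v hv
  have h1 := words_ind (q := 2) (x := 1) ⟨by norm_num, by norm_num⟩ Fc hFc 0 0
    (fun v => C (a v)) (by
      intro l _
      rw [← h (fun m => 1 / (((2 : ℕ) : ℝ) * m + ((1 : ℕ) : ℝ))) (l + 0 + 1)]
      refine Finset.sum_congr rfl fun v _ => ?_
      rw [Polynomial.eval_C, pw_qs]) v hv
  exact Polynomial.C_eq_zero.1 h1

end WX
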