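import Pool.Agent.LibWX.W2
import Pool.Agent.LibWX.W3

/-!
# Row W4: independence of the monomials `α ∈ Λ` over the polynomials, one class (SHORT/MEDIUM)

`qm_QF`: `qm wd t n α = ∑_{v ∈ Fc α} c α v * qs t v n`.  Put `Fc = ⋃ Fc α` (coefficients `0` outside `Fc α`), `P v = ∑_{α ∈ Λ} C (c α v) * p α`.  By `pm_qm` the hypothesis is
`∑_{v ∈ Fc} (P v).eval (x + q l) * pw q x v (l + T + 1) = 0` (`(x + q l) % q = x`, `(x + q l) / q = l`, `pw_qs`), so `P v = 0` (`words_ind`).  For every real `y` and every `t, n`: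
`∑_{α ∈ Λ} (p α).eval y * qm wd t n α = ∑_v (P v).eval y * qs t v n = 0`, so `(p α).eval y = 0` (`hΛ.ind`), `p α = 0` (`Polynomial.funext`).
-/

namespace WX

open Finset Polynomial CM68

theorem pm_ind {q w N B x : ℕ} (hx : 0 < x ∧ x < q) {wd : Fin N → List ℕ} (hwd : IsWd w wd)
    {Λ : Finset (Fin N → ℕ)} (hΛ : IsBs wd B Λ) (T t₀ : ℕ) (p : (Fin N → ℕ) → ℝ[X])
    (h : ∀ l, t₀ ≤ l →
      ∑ α ∈ Λ, (p α).eval ((x + q * l : ℕ) : ℝ) * pm q wd T α (x + q * l) = 0) :
    ∀ α ∈ Λ, p α = 0 := by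
  classical
  have hpos : ∀ i, Pos (wd i) := fun i => ((hwd.mem (wd i)).1 ⟨i, rfl⟩).2.1
  choose Fa c hFa hc using fun α : Fin N → ℕ => qm_QF hpos α
  set Fc : Finset (List ℕ) := Λ.biUnion Fa with hFc
  set c' : (Fin N → ℕ) → List ℕ → ℝ := fun α v => if v ∈ Fa α then c α v else 0 with hc'
  have hexp : ∀ α ∈ Λ, ∀ (t : ℕ → ℝ) (n : ℕ), qm wd t n α = ∑ v ∈ Fc, c' α v * qs t v n := by
    intro α hα t n
    have hc1 : qm wd t n α = ∑ v ∈ Fa α, c α v * qs t v n := hc α t n
    rw [hc1]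
    have hsub : Fa α ⊆ Fc := by
      rw [hFc]
      exact Finset.subset_biUnion_of_mem Fa hα
    rw [← Finset.sum_subset hsub]
    · refine Finset.sum_congr rfl fun v hv => ?_
      simp only [hc', if_pos hv]
    · intro v _ hv
      simp only [hc', if_neg hv, zero_mul]
  set P : List ℕ → ℝ[X] := fun v => ∑ α ∈ Λ, C (c' α v) * p α with hP
  have hswap : ∀ (y : ℝ) (t : ℕ → ℝ) (n : ℕ),
      ∑ α ∈ Λ, (p α).eval y * qm wd t n α = ∑ v ∈ Fc, (P v).eval y * qs t v n := by
    intro y t n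
    calc ∑ α ∈ Λ, (p α).eval y * qm wd t n α
        = ∑ α ∈ Λ, ∑ v ∈ Fc, (p α).eval y * (c' α v * qs t v n) := by
          refine Finset.sum_congr rfl fun α hα => ?_
          rw [hexp α hα t n, Finset.mul_sum]
      _ = ∑ v ∈ Fc, ∑ α ∈ Λ, (p α).eval y * (c' α v * qs t v n) := Finset.sum_comm
      _ = ∑ v ∈ Fc, (P v).eval y * qs t v n := by
          refine Finset.sum_congr rfl fun v _ => ?_
          simp only [hP, Polynomial.eval_finsetSum, Polynomial.eval_mul, Polynomial.eval_C]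
          rw [Finset.sum_mul]
          exact Finset.sum_congr rfl fun α _ => by ring
  have hPos : ∀ v ∈ Fc, Pos v := by
    intro v hv
    rw [hFc, Finset.mem_biUnion] at hv
    obtain ⟨α, _, hv⟩ := hv
    exact hFa α v hv
  have hP0 : ∀ v ∈ Fc, P v = 0 := by
    refine words_ind hx Fc hPos T t₀ P ?_
    intro l hl
    have h1 := h l hl
    have hmod : (x + q * l) % q = x := by
      rw [Nat.add_mul_mod_self_left, Nat.mod_eq_of_lt hx.2]
    have hdiv : (x + q * l) / q = l := by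
      rw [Nat.add_mul_div_left _ _ (by omega), Nat.div_eq_of_lt hx.2, Nat.zero_add]
    have h2 : ∀ α, pm q wd T α (x + q * l) =
        qm wd (fun m => 1 / ((q : ℝ) * m + (x : ℝ))) (l + T + 1) α := by
      intro α
      rw [pm_qm, hmod, hdiv]
    simp only [h2] at h1
    rw [hswap] at h1
    rw [← h1]
    refine Finset.sum_congr rfl fun v _ => ?_
    rw [pw_qs]
    push_cast
    rfl
  intro α hα
  refine Polynomial.funext fun y => ?_
  rw [Polynomial.eval_zero]
  refine hΛ.ind (fun α => (p α).eval y) ?_ α hα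
  intro t n
  rw [hswap y t n]
  refine Finset.sum_eq_zero fun v hv => ?_
  rw [hP0 v hv, Polynomial.eval_zero, zero_mul]

end WX
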