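import Pool.Agent.LibWX.WBase

/-!
# Row W7: the matrix of the shift (MEDIUM)

`y = j + q (T + 1) > 0`.  For a natural number `b` and a natural number `m` let `P b m` be the set of the functions `F : ℕ → ℝ` (of `j`) for which there are polynomials `g γ` of degree `≤ m` with
`y^m * F j = ∑_{γ ∈ expo N b} (g γ).eval j * pm q wd T γ j` for all `j`.  (a) `pw (wd i)` at `j + q` is in `P 1 w`: `pw_shift` (WBase): `wd i = k :: v`, `1 ≤ k ≤ w`, `v = []` or `v = wd i'`
(`IsWd.mem`), `y^w * pw_{j+q} = y^w * pm (ixw (k :: v)) + y^(w-k) * pm (ixw v)` (`pm_ixw`, `ixw_expo`).  (b) `P b m * P b' m' ⊆ P (b + b') (m + m')` (`pm_add`), `1 ∈ P 0 0`.  (c) so `pm α (j + q)` is in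
`P (∑ α) (w * ∑ α)` and, for `∑ α ≤ B`, multiplying by a power of `y` (the polynomial `(X + C (q (T+1)))^(..)`) in `P B (w B)`.
(d) `pm γ j`, `γ ∈ expo N B`, is `∑_{α ∈ Λ} a γ α pm α j` with constants (`hΛ.span`, `pm_qm`).
-/

namespace WX

open Finset Polynomial CM68

/-- the functions `F` with `y^m * F = ∑ g γ * pm γ` -/
private def PP {N : ℕ} (q : ℕ) (wd : Fin N → List ℕ) (T b m : ℕ) (F : ℕ → ℝ) : Prop :=
  ∃ g : (Fin N → ℕ) → ℝ[X], (∀ γ, (g γ).natDegree ≤ m) ∧
    ∀ j : ℕ, ((j : ℝ) + q * (T + 1)) ^ m * F j =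
      ∑ γ ∈ expo N b, (g γ).eval (j : ℝ) * pm q wd T γ j

private theorem PP_one {N : ℕ} (q : ℕ) (wd : Fin N → List ℕ) (T : ℕ) :
    PP q wd T 0 0 (fun _ => 1) := by
  refine ⟨fun γ => if γ = 0 then 1 else 0, ?_, ?_⟩
  · intro γ
    dsimp only
    split_ifs <;> simp
  · intro j
    rw [Finset.sum_eq_single (0 : Fin N → ℕ)]
    · rw [pm_qm, qm_zero]
      simp
    · intro γ _ h
      simp [h]
    · intro h
      exact absurd (mem_expo.2 (by simp)) h

private theorem PP_mul {N : ℕ} {q : ℕ} {wd : Fin N → List ℕ} {T b m b' m' : ℕ} {F F' : ℕ → ℝ}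
    (h : PP q wd T b m F) (h' : PP q wd T b' m' F') :
    PP q wd T (b + b') (m + m') (fun j => F j * F' j) := by
  classical
  obtain ⟨g, hg, hF⟩ := h
  obtain ⟨g', hg', hF'⟩ := h'
  refine ⟨fun δ => ∑ p ∈ (expo N b ×ˢ expo N b').filter (fun p => p.1 + p.2 = δ),
    g p.1 * g' p.2, ?_, ?_⟩
  · intro δ
    refine natDegree_sum_le_of_forall_le _ _ fun p _ => ?_
    exact natDegree_mul_le.trans (add_le_add (hg _) (hg' _))
  · intro j
    have hmap : ∀ p ∈ expo N b ×ˢ expo N b', p.1 + p.2 ∈ expo N (b + b') := by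
      intro p hp
      obtain ⟨h1, h2⟩ := Finset.mem_product.1 hp
      rw [mem_expo] at h1 h2 ⊢
      simp only [Pi.add_apply, Finset.sum_add_distrib]
      omega
    calc ((j : ℝ) + q * (T + 1)) ^ (m + m') * (F j * F' j)
        = (((j : ℝ) + q * (T + 1)) ^ m * F j) * (((j : ℝ) + q * (T + 1)) ^ m' * F' j) := by ring
      _ = ∑ p ∈ expo N b ×ˢ expo N b', (g p.1).eval (j : ℝ) * pm q wd T p.1 j *
            ((g' p.2).eval (j : ℝ) * pm q wd T p.2 j) := by
          rw [hF j, hF' j, Finset.sum_mul_sum, Finset.sum_product]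
      _ = ∑ δ ∈ expo N (b + b'), ∑ p ∈ (expo N b ×ˢ expo N b').filter (fun p => p.1 + p.2 = δ),
            (g p.1).eval (j : ℝ) * pm q wd T p.1 j * ((g' p.2).eval (j : ℝ) * pm q wd T p.2 j) :=
          (Finset.sum_fiberwise_of_maps_to hmap _).symm
      _ = _ := by
          refine Finset.sum_congr rfl fun δ _ => ?_
          rw [eval_finsetSum, Finset.sum_mul]
          refine Finset.sum_congr rfl fun p hp => ?_
          have h3 : p.1 + p.2 = δ := (Finset.mem_filter.1 hp).2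
          rw [← h3, pm_add, eval_mul]
          ring

private theorem natDegree_Y_pow (c : ℝ) (n : ℕ) : ((X + C c : ℝ[X]) ^ n).natDegree ≤ n := by
  refine natDegree_pow_le.trans ?_
  rw [natDegree_X_add_C, mul_one]

private theorem eval_Y (q T j : ℕ) :
    (X + C ((q : ℝ) * ((T : ℝ) + 1))).eval (j : ℝ) = (j : ℝ) + q * (T + 1) := by
  simp

private theorem PP_mono {N : ℕ} {q : ℕ} {wd : Fin N → List ℕ} {T b m b' m' : ℕ} {F : ℕ → ℝ}
    (h : PP q wd T b m F) (hb : b ≤ b') (hm : m ≤ m') : PP q wd T b' m' F := by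
  classical
  obtain ⟨g, hg, hF⟩ := h
  refine ⟨fun γ => if γ ∈ expo N b then
    (X + C ((q : ℝ) * ((T : ℝ) + 1))) ^ (m' - m) * g γ else 0, ?_, ?_⟩
  · intro γ
    dsimp only
    split_ifs
    · refine natDegree_mul_le.trans ?_
      refine (add_le_add (natDegree_Y_pow _ _) (hg γ)).trans ?_
      omega
    · simp
  · intro j
    have hsub : expo N b ⊆ expo N b' := by
      intro γ hγ
      rw [mem_expo] at hγ ⊢
      omega
    refine Eq.trans ?_ (Finset.sum_subset hsub (by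
      intro γ _ h1
      simp [h1]))
    have h2 : ((j : ℝ) + q * (T + 1)) ^ m' =
        ((j : ℝ) + q * (T + 1)) ^ (m' - m) * ((j : ℝ) + q * (T + 1)) ^ m := by
      rw [← pow_add]
      congr 1
      omega
    rw [h2, mul_assoc, hF j, Finset.mul_sum]
    refine Finset.sum_congr rfl fun γ hγ => ?_
    simp only [if_pos hγ]
    rw [eval_mul, eval_pow, eval_Y]
    ring

private theorem PP_pow {N : ℕ} {q : ℕ} {wd : Fin N → List ℕ} {T b m : ℕ} {F : ℕ → ℝ}
    (h : PP q wd T b m F) (a : ℕ) : PP q wd T (a * b) (a * m) (fun j => F j ^ a) := by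
  induction a with
  | zero =>
    simp only [Nat.zero_mul, pow_zero]
    exact PP_one q wd T
  | succ a ih =>
    have h1 := PP_mul ih h
    rw [Nat.succ_mul, Nat.succ_mul]
    simpa only [pow_succ] using h1

private theorem PP_prod {N : ℕ} {q : ℕ} {wd : Fin N → List ℕ} {T : ℕ} {ι : Type*}
    (s : Finset ι) {b m : ι → ℕ} {F : ι → ℕ → ℝ} (h : ∀ i ∈ s, PP q wd T (b i) (m i) (F i)) :
    PP q wd T (∑ i ∈ s, b i) (∑ i ∈ s, m i) (fun j => ∏ i ∈ s, F i j) := by
  classical
  induction s using Finset.induction_on with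
  | empty =>
    simp only [Finset.sum_empty, Finset.prod_empty]
    exact PP_one q wd T
  | insert i s hi ih =>
    rw [Finset.sum_insert hi, Finset.sum_insert hi]
    simp only [Finset.prod_insert hi]
    exact PP_mul (h i (Finset.mem_insert_self i s))
      (ih fun i' hi' => h i' (Finset.mem_insert_of_mem hi'))

private theorem PP_pw {q w N : ℕ} (hq : 1 ≤ q) {wd : Fin N → List ℕ} (hwd : IsWd w wd) (T : ℕ)
    (i : Fin N) :
    PP q wd T 1 w (fun j => pw q (((j + q) % q : ℕ) : ℝ) (wd i) ((j + q) / q + T + 1)) := by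
  classical
  obtain ⟨hne, hpos, hsum⟩ := (hwd.mem (wd i)).1 ⟨i, rfl⟩
  obtain ⟨k, v, hkv⟩ : ∃ k v, wd i = k :: v := List.exists_cons_of_ne_nil hne
  rw [hkv] at hpos hsum
  rw [List.sum_cons] at hsum
  have hpv : Pos v := fun l hl => hpos l (List.mem_cons_of_mem k hl)
  have hk : k ≤ w := by omega
  have hv : v.sum ≤ w := by omega
  have hkvs : (k :: v).sum ≤ w := by rw [List.sum_cons]; exact hsum
  refine ⟨fun γ => (if γ = ixw wd (k :: v) then
      (X + C ((q : ℝ) * ((T : ℝ) + 1))) ^ w else 0) +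
      (if γ = ixw wd v then (X + C ((q : ℝ) * ((T : ℝ) + 1))) ^ (w - k) else 0), ?_, ?_⟩
  · intro γ
    refine natDegree_add_le_of_degree_le ?_ ?_
    · split_ifs
      · exact natDegree_Y_pow _ _
      · simp
    · split_ifs
      · exact (natDegree_Y_pow _ _).trans (Nat.sub_le _ _)
      · simp
  · intro j
    have hy : (0 : ℝ) < (j : ℝ) + q * (T + 1) := by
      have : (1 : ℝ) ≤ (q : ℝ) := by exact_mod_cast hq
      positivity
    have e1 : ixw wd (k :: v) ∈ expo N 1 := mem_expo.2 (ixw_expo hwd hpos hkvs)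
    have e2 : ixw wd v ∈ expo N 1 := mem_expo.2 (ixw_expo hwd hpv hv)
    simp only [eval_add, add_mul, Finset.sum_add_distrib]
    rw [Finset.sum_eq_single (ixw wd (k :: v)), Finset.sum_eq_single (ixw wd v)]
    · rw [if_pos rfl, if_pos rfl, eval_pow, eval_pow, eval_Y, pm_ixw hwd hpos hkvs,
        pm_ixw hwd hpv hv, hkv, pw_shift hq]
      have h2 : ((j : ℝ) + q * (T + 1)) ^ w =
          ((j : ℝ) + q * (T + 1)) ^ (w - k) * ((j : ℝ) + q * (T + 1)) ^ k := by
        rw [← pow_add]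
        congr 1
        omega
      have h3 : ((j : ℝ) + q * (T + 1)) ^ k ≠ 0 := (pow_pos hy k).ne'
      rw [mul_add]
      congr 1
      rw [h2]
      field_simp
    · intro γ _ h
      simp [h]
    · intro h
      exact absurd e2 h
    · intro γ _ h
      simp [h]
    · intro h
      exact absurd e1 h

private theorem PP_pm {q w N B : ℕ} (hq : 1 ≤ q) {wd : Fin N → List ℕ} (hwd : IsWd w wd) (T : ℕ)
    {α : Fin N → ℕ} (hα : α ∈ expo N B) :
    PP q wd T B (w * B) (fun j => pm q wd T α (j + q)) := by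
  have h1 := PP_prod (q := q) (wd := wd) (T := T) (Finset.univ : Finset (Fin N))
    (fun i _ => PP_pow (PP_pw hq hwd T i) (α i))
  have hs : ∑ i, α i ≤ B := mem_expo.1 hα
  refine PP_mono h1 ?_ ?_
  · simpa using hs
  · rw [← Finset.sum_mul, Nat.mul_comm]
    exact Nat.mul_le_mul_left _ hs

theorem shift_mat {q w N B : ℕ} (hq : 1 ≤ q) {wd : Fin N → List ℕ} (hwd : IsWd w wd)
    {Λ : Finset (Fin N → ℕ)} (hΛ : IsBs wd B Λ) (T : ℕ) :
    ∃ U : Λ → Λ → ℝ[X], (∀ α γ, (U α γ).natDegree ≤ w * B) ∧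
      ∀ (α : Λ) (j : ℕ), ((j : ℝ) + q * (T + 1)) ^ (w * B) * pm q wd T α (j + q) =
        ∑ γ : Λ, (U α γ).eval (j : ℝ) * pm q wd T γ j := by
  classical
  choose g hg hF using fun α : Λ => PP_pm (B := B) hq hwd T (hΛ.sub α.2)
  choose! a ha hspan using hΛ.span
  refine ⟨fun α δ => ∑ γ ∈ expo N B, g α γ * C (a γ δ), ?_, ?_⟩
  · intro α δ
    refine natDegree_sum_le_of_forall_le _ _ fun γ _ => ?_
    exact (natDegree_mul_C_le _ _).trans (hg α γ)
  · intro α j
    rw [hF α j]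
    simp only [eval_finsetSum, eval_mul, eval_C, Finset.sum_mul]
    rw [Finset.sum_comm]
    refine Finset.sum_congr rfl fun γ hγ => ?_
    rw [pm_qm, hspan γ hγ, ← Finset.sum_coe_sort Λ, Finset.mul_sum]
    refine Finset.sum_congr rfl fun δ _ => ?_
    rw [pm_qm]
    ring

end WX
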