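import Pool.Agent.LibCM68.Z1
import Pool.Agent.LibWX.WDefs

namespace WX

open Finset Polynomial CM68

private theorem W8_det_deg {n : ℕ} (M : Matrix (Fin n) (Fin n) ℝ[X]) (b : ℕ)
    (h : ∀ i j, (M i j).natDegree ≤ b) : M.det.natDegree ≤ n * b := by
  rw [Matrix.det_apply']
  refine natDegree_sum_le_of_forall_le _ _ ?_
  intro σ _
  refine natDegree_mul_le.trans ?_
  rw [natDegree_intCast, zero_add]
  refine (natDegree_prod_le _ _).trans ?_
  refine (Finset.sum_le_sum fun j _ => h _ _).trans ?_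
  simp

/-- independent rows: columns with nonzero determinant -/
private theorem W8_cols {K : Type*} [Field K] {ι : Type*} [Fintype ι] [DecidableEq ι] {ρ : ℕ}
    (f : Fin ρ → ι → K) (hf : LinearIndependent K f) :
    ∃ col : Fin ρ → ι, (Matrix.of fun l i : Fin ρ => f l (col i)).det ≠ 0 := by
  classical
  obtain ⟨A, hA⟩ : ∃ A : Matrix (Fin ρ) ι K, A = Matrix.of f := ⟨_, rfl⟩
  have hrank : A.rank = ρ := by
    have h1 : LinearIndependent K A.row := by rw [hA]; exact hf
    have := h1.rank_matrix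
    simpa using this
  have hspan : Submodule.span K (Set.range A.col) = ⊤ := by
    apply Submodule.eq_top_of_finrank_eq
    rw [← Matrix.rank_eq_finrank_span_cols, hrank]
    simp
  obtain ⟨κ, a, ha, hsp, hind⟩ := exists_linearIndependent' K A.col
  have hκ : Finite κ := Finite.of_injective a ha
  have : Fintype κ := Fintype.ofFinite κ
  rw [hspan] at hsp
  have hcard : Fintype.card κ = ρ := by
    have h2 : Module.Basis κ K (Fin ρ → K) := Module.Basis.mk hind (by rw [hsp])
    have h3 := Module.finrank_eq_card_basis h2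
    rw [← h3]
    simp
  obtain ⟨e⟩ : Nonempty (Fin ρ ≃ κ) := ⟨(Fintype.equivFinOfCardEq hcard).symm⟩
  refine ⟨fun i => a (e i), ?_⟩
  have h4 : LinearIndependent K (fun i : Fin ρ => (A.col ∘ a) (e i)) :=
    hind.comp e e.injective
  have h5 : IsUnit (Matrix.of fun l i : Fin ρ => f l (a (e i))) := by
    rw [← Matrix.linearIndependent_cols_iff_isUnit]
    have h6 : (Matrix.of fun l i : Fin ρ => f l (a (e i))).col = fun i : Fin ρ => (A.col ∘ a) (e i) := by
      funext i l
      rw [hA]
      rfl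
    rw [h6]
    exact h4
  rw [Matrix.isUnit_iff_isUnit_det] at h5
  exact h5.ne_zero

theorem cyc {ι : Type*} [Fintype ι] [DecidableEq ι] (c : ℝ) (U : ι → ι → ℝ[X]) (v : ι → ℝ[X])
    {b : ℕ} (hb : ∀ l < Fintype.card ι, ∀ i, (itv c U v l i).natDegree ≤ b) :
    ∃ ρ ≤ Fintype.card ι, ∃ Δ : ℝ[X], Δ ≠ 0 ∧ Δ.natDegree ≤ ρ * b ∧
      ∀ l, ∃ m : Fin ρ → ℝ[X], ∀ i,
        Δ * itv c U v l i = ∑ l' : Fin ρ, m l' * itv c U v (l' : ℕ) i := by
  classical
  obtain ⟨K, hK⟩ : ∃ K, K = FractionRing ℝ[X] := ⟨_, rfl⟩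
  set am : ℝ[X] →+* FractionRing ℝ[X] := algebraMap ℝ[X] (FractionRing ℝ[X]) with ham
  have hinj : Function.Injective am := IsFractionRing.injective ℝ[X] (FractionRing ℝ[X])
  obtain ⟨Vl, hVl⟩ : ∃ Vl : ℕ → ι → FractionRing ℝ[X], Vl = fun l i => am (itv c U v l i) :=
    ⟨_, rfl⟩
  -- the least dependent index
  have hex : ∃ r : ℕ, ¬ LinearIndependent (FractionRing ℝ[X]) (fun l : Fin (r + 1) => Vl l) := by
    refine ⟨Fintype.card ι, fun h => ?_⟩
    have h1 := h.fintype_card_le_finrank
    rw [Fintype.card_fin, Module.finrank_fintype_fun_eq_card] at h1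
    omega
  obtain ⟨ρ, hρ⟩ : ∃ ρ, ρ = Nat.find hex := ⟨_, rfl⟩
  have hρspec : ¬ LinearIndependent (FractionRing ℝ[X]) (fun l : Fin (ρ + 1) => Vl l) := by
    rw [hρ]
    exact Nat.find_spec hex
  have hρind : LinearIndependent (FractionRing ℝ[X]) (fun l : Fin ρ => Vl l) := by
    rcases Nat.eq_zero_or_pos ρ with h0 | hpos
    · subst h0
      exact linearIndependent_empty_type
    · obtain ⟨r, hr⟩ : ∃ r, ρ = r + 1 := ⟨ρ - 1, by omega⟩
      have h1 := Nat.find_min hex (m := r) (by omega)
      rw [hr]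
      exact not_not.1 h1
  have hρle : ρ ≤ Fintype.card ι := by
    have h1 := hρind.fintype_card_le_finrank
    rw [Fintype.card_fin, Module.finrank_fintype_fun_eq_card] at h1
    exact h1
  obtain ⟨S, hS⟩ : ∃ S, S = Submodule.span (FractionRing ℝ[X]) (Set.range fun l : Fin ρ => Vl l) :=
    ⟨_, rfl⟩
  have hgen : ∀ l < ρ, Vl l ∈ S := by
    intro l hl
    rw [hS]
    exact Submodule.subset_span ⟨⟨l, hl⟩, rfl⟩
  have hρS : Vl ρ ∈ S := by
    by_contra hcon
    apply hρspec
    rw [linearIndependent_fin_succ']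
    refine ⟨?_, ?_⟩
    · exact hρind
    · rw [hS] at hcon
      exact hcon
  -- the semilinear map
  obtain ⟨Φ, hΦ⟩ : ∃ Φ : (ι → FractionRing ℝ[X]) → ι → FractionRing ℝ[X],
      Φ = fun f i => ∑ i', SG c (f i') * am (U i' i) := ⟨_, rfl⟩
  have hΦadd : ∀ f g, Φ (f + g) = Φ f + Φ g := by
    intro f g
    rw [hΦ]
    funext i
    simp only [Pi.add_apply, map_add, add_mul, Finset.sum_add_distrib]
  have hΦsmul : ∀ (a : FractionRing ℝ[X]) f, Φ (a • f) = SG c a • Φ f := by
    intro a f
    rw [hΦ]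
    funext i
    simp only [Pi.smul_apply, smul_eq_mul, map_mul, Finset.mul_sum, mul_assoc]
  have hΦV : ∀ l, Φ (Vl l) = Vl (l + 1) := by
    intro l
    rw [hΦ, hVl]
    funext i
    simp only [itv, map_sum, map_mul]
    apply Finset.sum_congr rfl
    intro i' _
    rw [ham, SG_alg]
  have hΦS : ∀ f ∈ S, Φ f ∈ S := by
    intro f hf
    rw [hS] at hf
    induction hf using Submodule.span_induction with
    | mem x hx =>
      obtain ⟨l, rfl⟩ := hx
      rw [hΦV]
      rcases Nat.lt_or_ge ((l : ℕ) + 1) ρ with h | h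
      · exact hgen _ h
      · have h2 : (l : ℕ) + 1 = ρ := by
          have := l.2
          omega
        rw [h2]
        exact hρS
    | zero =>
      have h0 : Φ 0 = 0 := by
        rw [hΦ]
        funext i
        simp
      rw [h0]
      exact S.zero_mem
    | add x y _ _ hx hy =>
      rw [hΦadd]
      exact S.add_mem hx hy
    | smul a x _ hx =>
      rw [hΦsmul]
      exact S.smul_mem _ hx
  have hall : ∀ l, Vl l ∈ S := by
    intro l
    induction l with
    | zero =>
      rcases Nat.eq_zero_or_pos ρ with h0 | hpos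
      · rw [← h0]
        exact hρS
      · exact hgen 0 hpos
    | succ l ih =>
      rw [← hΦV]
      exact hΦS _ ih
  obtain ⟨col, hcol⟩ := W8_cols _ hρind
  obtain ⟨B0, hB0⟩ : ∃ B0 : Matrix (Fin ρ) (Fin ρ) ℝ[X],
      B0 = Matrix.of fun l i : Fin ρ => itv c U v (l : ℕ) (col i) := ⟨_, rfl⟩
  have hmap : (Matrix.of fun l i : Fin ρ => Vl l (col i)) = am.mapMatrix B0 := by
    rw [hB0, hVl]
    rfl
  rw [hmap, ← RingHom.map_det] at hcol
  refine ⟨ρ, hρle, B0.det, fun h => hcol (by rw [h, map_zero]), ?_, ?_⟩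
  · apply W8_det_deg
    intro i j
    rw [hB0]
    exact hb _ (by have := i.2; omega) _
  · intro l
    have h1 := hall l
    rw [hS, Submodule.mem_span_range_iff_exists_fun] at h1
    obtain ⟨a, ha⟩ := h1
    refine ⟨fun l' => ∑ i, itv c U v l (col i) * B0.adjugate i l', fun i => ?_⟩
    have h2 : ∀ i, Vl l i = ∑ l', a l' * Vl (l' : ℕ) i := by
      intro i
      rw [← ha, Finset.sum_apply]
      rfl
    have h3 : ∀ l', am (∑ i, itv c U v l (col i) * B0.adjugate i l') = am B0.det * a l' := by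
      intro l'
      rw [map_sum]
      have h4 : ∀ i, am (itv c U v l (col i) * B0.adjugate i l') =
          ∑ l'', a l'' * (am (B0 l'' i) * am (B0.adjugate i l')) := by
        intro i
        have h5 := h2 (col i)
        rw [hVl] at h5
        rw [map_mul]
        change am (itv c U v l (col i)) = ∑ l'' : Fin ρ, a l'' * am (itv c U v (l'' : ℕ) (col i)) at h5
        rw [h5, Finset.sum_mul]
        apply Finset.sum_congr rfl
        intro l'' _
        rw [hB0, mul_assoc]
        rfl
      rw [Finset.sum_congr rfl fun i _ => h4 i, Finset.sum_comm]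
      have h6 : ∀ l'', ∑ i, a l'' * (am (B0 l'' i) * am (B0.adjugate i l')) =
          a l'' * (if l'' = l' then am B0.det else 0) := by
        intro l''
        rw [← Finset.mul_sum]
        congr 1
        have h7 := congrArg (fun M : Matrix (Fin ρ) (Fin ρ) ℝ[X] => am (M l'' l'))
          (Matrix.mul_adjugate B0)
        simp only [Matrix.mul_apply, map_sum, map_mul, Matrix.smul_apply, Matrix.one_apply,
          smul_eq_mul] at h7
        rw [h7]
        split_ifs <;> simp
      rw [Finset.sum_congr rfl fun l'' _ => h6 l'']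
      simp [mul_comm]
    apply hinj
    rw [map_mul, map_sum]
    have h8 : ∀ l' : Fin ρ, am ((∑ i, itv c U v l (col i) * B0.adjugate i l') *
        itv c U v (l' : ℕ) i) = am B0.det * a l' * Vl (l' : ℕ) i := by
      intro l'
      rw [map_mul, h3, hVl]
    rw [Finset.sum_congr rfl fun l' _ => h8 l']
    have h9 : am (itv c U v l i) = Vl l i := by rw [hVl]
    rw [h9, h2, Finset.mul_sum]
    apply Finset.sum_congr rfl
    intro l' _
    ring

end WX
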