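import Pool.Agent.LibCM68.Z2
import Pool.Agent.LibWX.W4
import Pool.Agent.LibWX.W7
import Pool.Agent.LibWX.W8

/-!
# Row W9: the zero estimate for all classes (MEDIUM/STRONG)

`ι = Fin H × Λ`, `L = card ι = H * Λ.card`, `U₀` from `shift_mat`, `U (h, α) (h', γ) = if h = h' then U₀ α γ else 0`, `V l = itv q U R l`; `(V l i).natDegree ≤ d + w B l` (induction, `natDegree_taylor`), so
`≤ b = d + w B L` for `l < L`.  `cyc` gives `ρ ≤ L`, `Δ`.
EVALUATION: for `j` and `z_j (h, α) = φ h (j % q) * pm q wd T α j`, `f j = ∑_s z_j s * (R s).eval j`: by induction on `l`: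
`∑_s (V l s).eval j * z_j s = (∏_{m < l} ((j : ℝ) + q (T + 1 + m))^(w B)) * f (j + q l)` for all `j` (step: `V (l+1)` at `j` is `∑ (V l s').eval (j + q) * (U s' s).eval j`, `taylor_eval`, and
`∑_s (U s' s).eval j * z_j s = (j + q (T+1))^(w B) * z_(j+q) s'` by `shift_mat`, `(j + q) % q = j % q`; then the induction hypothesis at `j + q`).
Let `x ∈ I` and suppose there is a node `j₀ ∈ P q (n - L) {x}` with `Δ.eval j₀ ≠ 0`.  For `l' < ρ ≤ L` `f (j₀ + q l') = 0` (`hrel`, a node of `P q n I`), so `Δ(j₀) ∑_s (V l s).eval j₀ z_{j₀} s = 0` and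
`f (j₀ + q l) = 0` for ALL `l` (the product is positive).  `pm_ind` with `t₀ = j₀ / q`, `p α = ∑ h, C (φ h x) * R (h, α)`: all `0`.  `F` = these `x`.
For the others `Δ` vanishes on `P q (n - L) (I \ F)`, which has `(I \ F).card * (n - L)` elements (`card_nodes`, LibCM68/Z2.lean), at most `Δ.natDegree ≤ L b` (`Polynomial.card_roots'`,
`Nat.cast` injective).
-/

namespace WX

open Finset Polynomial CM68

private theorem w9_card_nodes {q n' : ℕ} {I : Finset ℕ} (hq : 1 ≤ q) (hI : ∀ x ∈ I, x < q) :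
    (P q n' I).card = I.card * n' := by
  have h : P q n' I = (I ×ˢ range n').image fun p => q * p.2 + p.1 := by
    ext j
    simp only [P, mem_filter, mem_range, mem_image, mem_product, Prod.exists]
    constructor
    · rintro ⟨h1, h2⟩
      refine ⟨j % q, j / q, ⟨h2, ?_⟩, Nat.div_add_mod j q⟩
      exact Nat.div_lt_of_lt_mul h1
    · rintro ⟨x, i, ⟨hx, hi⟩, rfl⟩
      have hxq := hI x hx
      refine ⟨?_, ?_⟩
      · calc q * i + x < q * i + q := by omega
          _ = q * (i + 1) := by ring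
          _ ≤ q * n' := Nat.mul_le_mul_left _ hi
      · rw [Nat.mul_add_mod, Nat.mod_eq_of_lt hxq]
        exact hx
  rw [h, card_image_of_injOn, card_product, card_range]
  rintro ⟨x, i⟩ hp ⟨x', i'⟩ hp' heq
  simp only [coe_product, Set.mem_prod, mem_coe] at hp hp'
  have hxq := hI x hp.1
  have hxq' := hI x' hp'.1
  simp only at heq
  have hm : (q * i + x) % q = (q * i' + x') % q := by rw [heq]
  rw [Nat.mul_add_mod, Nat.mul_add_mod, Nat.mod_eq_of_lt hxq, Nat.mod_eq_of_lt hxq'] at hm
  subst hm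
  have h5 : q * i = q * i' := by omega
  have h6 : i = i' := Nat.eq_of_mul_eq_mul_left (by omega) h5
  rw [h6]

theorem zeroP {q n d T w N B H : ℕ} (hq : 2 ≤ q) {I : Finset ℕ} (hI : ∀ x ∈ I, 0 < x ∧ x < q)
    {wd : Fin N → List ℕ} (hwd : IsWd w wd) {Λ : Finset (Fin N → ℕ)} (hΛ : IsBs wd B Λ)
    (φ : Fin H → ℕ → ℝ) (R : Fin H × Λ → ℝ[X]) (hR : ∀ s, (R s).natDegree ≤ d)
    (hrel : ∀ j ∈ P q n I,
      ∑ s : Fin H × Λ, φ s.1 (j % q) * pm q wd T s.2 j * (R s).eval (j : ℝ) = 0) :
    ∃ F ⊆ I, (I \ F).card * (n - H * Λ.card) ≤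
        H * Λ.card * (d + w * B * (H * Λ.card)) ∧
      ∀ x ∈ F, ∀ α : Λ, ∑ h, C (φ h x) * R (h, α) = 0 := by
  classical
  have hq1 : 1 ≤ q := by omega
  have hq0 : (0 : ℝ) < q := by exact_mod_cast hq1
  obtain ⟨U₀, hU₀d, hU₀⟩ := shift_mat hq1 hwd hΛ T
  set U : (Fin H × Λ) → (Fin H × Λ) → ℝ[X] :=
    fun s' s => if s'.1 = s.1 then U₀ s'.2 s.2 else 0 with hU
  have hUd : ∀ s' s, (U s' s).natDegree ≤ w * B := by
    intro s' s
    simp only [hU]
    split_ifs
    · exact hU₀d _ _
    · simp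
  set V : ℕ → (Fin H × Λ) → ℝ[X] := itv (q : ℝ) U R with hV
  set z : ℕ → (Fin H × Λ) → ℝ := fun j s => φ s.1 (j % q) * pm q wd T s.2 j with hz
  have hUz : ∀ (s' : Fin H × Λ) (j : ℕ), ∑ s, (U s' s).eval (j : ℝ) * z j s =
      ((j : ℝ) + q * (T + 1)) ^ (w * B) * z (j + q) s' := by
    intro s' j
    rw [Fintype.sum_prod_type, Finset.sum_eq_single s'.1]
    · simp only [hU, if_true, hz, Nat.add_mod_right]
      have h1 := hU₀ s'.2 j
      calc ∑ γ : Λ, (U₀ s'.2 γ).eval (j : ℝ) * (φ s'.1 (j % q) * pm q wd T γ j)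
          = φ s'.1 (j % q) * ∑ γ : Λ, (U₀ s'.2 γ).eval (j : ℝ) * pm q wd T γ j := by
            rw [Finset.mul_sum]
            exact Finset.sum_congr rfl fun γ _ => by ring
        _ = _ := by rw [← h1]; ring
    · intro h _ hne
      refine Finset.sum_eq_zero fun γ _ => ?_
      simp only [hU]
      rw [if_neg (fun h' => hne h'.symm), eval_zero, zero_mul]
    · intro h
      exact absurd (Finset.mem_univ _) h
  have hA : ∀ (l j : ℕ), ∑ s, (V l s).eval (j : ℝ) * z j s =
      (∏ m ∈ range l, ((j : ℝ) + q * (T + 1 + m)) ^ (w * B)) *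
        ∑ s, (R s).eval ((j + q * l : ℕ) : ℝ) * z (j + q * l) s := by
    intro l
    induction l with
    | zero =>
      intro j
      simp [hV, itv]
    | succ l ih =>
      intro j
      have h1 : ∀ s, (V (l + 1) s).eval (j : ℝ) =
          ∑ s', (V l s').eval ((j + q : ℕ) : ℝ) * (U s' s).eval (j : ℝ) := by
        intro s
        have h2 : V (l + 1) s = ∑ s', taylor (q : ℝ) (V l s') * U s' s := rfl
        rw [h2, eval_finsetSum]
        refine Finset.sum_congr rfl fun s' _ => ?_
        rw [eval_mul, taylor_eval]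
        push_cast
        ring_nf
      have h3 : ∑ s, (V (l + 1) s).eval (j : ℝ) * z j s =
          ∑ s', (V l s').eval ((j + q : ℕ) : ℝ) * ∑ s, (U s' s).eval (j : ℝ) * z j s := by
        simp only [h1, Finset.sum_mul, Finset.mul_sum]
        rw [Finset.sum_comm]
        exact Finset.sum_congr rfl fun _ _ => Finset.sum_congr rfl fun _ _ => by ring
      rw [h3]
      simp only [hUz]
      have h4 : ∑ s', (V l s').eval ((j + q : ℕ) : ℝ) *
          (((j : ℝ) + q * (T + 1)) ^ (w * B) * z (j + q) s') =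
          ((j : ℝ) + q * (T + 1)) ^ (w * B) *
            ∑ s', (V l s').eval ((j + q : ℕ) : ℝ) * z (j + q) s' := by
        rw [Finset.mul_sum]
        exact Finset.sum_congr rfl fun _ _ => by ring
      rw [h4, ih (j + q), Finset.prod_range_succ']
      have h5 : j + q + q * l = j + q * (l + 1) := by ring
      rw [h5]
      have h6 : ∏ m ∈ range l, (((j + q : ℕ) : ℝ) + q * (T + 1 + m)) ^ (w * B) =
          ∏ m ∈ range l, ((j : ℝ) + q * (T + 1 + ((m + 1 : ℕ) : ℝ))) ^ (w * B) := by
        refine Finset.prod_congr rfl fun m _ => ?_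
        push_cast
        ring_nf
      rw [h6]
      push_cast
      ring
  set L := H * Λ.card with hL
  have hcard : Fintype.card (Fin H × Λ) = L := by
    rw [Fintype.card_prod, Fintype.card_fin, Fintype.card_coe]
  have hVd : ∀ l s, (V l s).natDegree ≤ d + w * B * l := by
    intro l
    induction l with
    | zero =>
      intro s
      simpa [hV, itv] using hR s
    | succ l ih =>
      intro s
      have h2 : V (l + 1) s = ∑ s', taylor (q : ℝ) (V l s') * U s' s := rfl
      rw [h2]
      refine natDegree_sum_le_of_forall_le _ _ fun s' _ => ?_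
      refine natDegree_mul_le.trans ?_
      rw [natDegree_taylor]
      have h3 := ih s'
      have h4 := hUd s' s
      calc (V l s').natDegree + (U s' s).natDegree ≤ (d + w * B * l) + w * B := add_le_add h3 h4
        _ = d + w * B * (l + 1) := by ring
  obtain ⟨ρ, hρ, Δ, hΔ0, hΔd, hcyc⟩ := cyc (q : ℝ) U R (b := d + w * B * L) (by
    intro l hl s
    rw [hcard] at hl
    refine (hVd l s).trans ?_
    gcongr)
  rw [hcard] at hρ
  have hgood : ∀ x ∈ I, ∀ j₀ ∈ P q (n - L) {x}, Δ.eval (j₀ : ℝ) ≠ 0 →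
      ∀ α : Λ, ∑ h, C (φ h x) * R (h, α) = 0 := by
    intro x hx j₀ hj₀ hΔj
    rw [P, mem_filter, mem_range, mem_singleton] at hj₀
    obtain ⟨hjlt, hjx⟩ := hj₀
    have hzero : ∀ l < ρ, ∑ s, (V l s).eval (j₀ : ℝ) * z j₀ s = 0 := by
      intro l hl
      have hmod : (j₀ + q * l) % q = x := by rw [Nat.add_mul_mod_self_left, hjx]
      have hmem : j₀ + q * l ∈ P q n I := by
        refine mem_filter.2 ⟨mem_range.2 ?_, ?_⟩
        · have h5 : 0 < n - L := by
            by_contra h6
            have h7 : n - L = 0 := by omega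
            rw [h7, mul_zero] at hjlt
            omega
          have h3 : q * (n - L) + q * l = q * (n - L + l) := by ring
          have h4 : q * (n - L + l) ≤ q * n := Nat.mul_le_mul_left _ (by omega)
          omega
        · rw [hmod]
          exact hx
      have h1 := hrel _ hmem
      rw [hA l j₀]
      have h2 : ∑ s, (R s).eval ((j₀ + q * l : ℕ) : ℝ) * z (j₀ + q * l) s = 0 := by
        rw [← h1]
        refine Finset.sum_congr rfl fun s _ => ?_
        simp only [hz]
        ring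
      rw [h2, mul_zero]
    have hall : ∀ l, ∑ s, (R s).eval ((j₀ + q * l : ℕ) : ℝ) * z (j₀ + q * l) s = 0 := by
      intro l
      obtain ⟨m, hm⟩ := hcyc l
      have h1 : Δ.eval (j₀ : ℝ) * ∑ s, (V l s).eval (j₀ : ℝ) * z j₀ s = 0 := by
        have h2 : ∀ s, Δ.eval (j₀ : ℝ) * (V l s).eval (j₀ : ℝ) =
            ∑ l' : Fin ρ, (m l').eval (j₀ : ℝ) * (V l' s).eval (j₀ : ℝ) := by
          intro s
          have h3 := congrArg (eval (j₀ : ℝ)) (hm s)
          rw [eval_mul, eval_finsetSum] at h3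
          rw [hV, h3]
          exact Finset.sum_congr rfl fun _ _ => eval_mul
        calc Δ.eval (j₀ : ℝ) * ∑ s, (V l s).eval (j₀ : ℝ) * z j₀ s
            = ∑ s, (∑ l' : Fin ρ, (m l').eval (j₀ : ℝ) * (V l' s).eval (j₀ : ℝ)) * z j₀ s := by
              rw [Finset.mul_sum]
              refine Finset.sum_congr rfl fun s _ => ?_
              rw [← h2 s]
              ring
          _ = ∑ l' : Fin ρ, (m l').eval (j₀ : ℝ) * ∑ s, (V l' s).eval (j₀ : ℝ) * z j₀ s := by
              simp only [Finset.sum_mul, Finset.mul_sum]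
              rw [Finset.sum_comm]
              exact Finset.sum_congr rfl fun _ _ => Finset.sum_congr rfl fun _ _ => by ring
          _ = 0 := by
              refine Finset.sum_eq_zero fun l' _ => ?_
              rw [hzero l' l'.2, mul_zero]
      have h2 : ∑ s, (V l s).eval (j₀ : ℝ) * z j₀ s = 0 := by
        rcases mul_eq_zero.1 h1 with h3 | h3
        · exact absurd h3 hΔj
        · exact h3
      rw [hA l j₀] at h2
      rcases mul_eq_zero.1 h2 with h3 | h3
      · exfalso
        have hpos : 0 < ∏ m ∈ range l, ((j₀ : ℝ) + q * (T + 1 + m)) ^ (w * B) := by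
          refine Finset.prod_pos fun m _ => ?_
          positivity
        exact hpos.ne' h3
      · exact h3
    have hind := pm_ind (hI x hx) hwd hΛ T (j₀ / q)
      (fun α => if hα : α ∈ Λ then ∑ h, C (φ h x) * R (h, ⟨α, hα⟩) else 0) (by
      intro l hl
      have hj : j₀ + q * (l - j₀ / q) = x + q * l := by
        have h1 := Nat.div_add_mod j₀ q
        rw [hjx] at h1
        obtain ⟨k, rfl⟩ := Nat.exists_eq_add_of_le hl
        rw [Nat.add_sub_cancel_left]
        calc j₀ + q * k = (q * (j₀ / q) + x) + q * k := by rw [h1]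
          _ = x + q * (j₀ / q + k) := by ring
      have h1 := hall (l - j₀ / q)
      rw [hj] at h1
      rw [← h1, Fintype.sum_prod_type_right, ← Finset.sum_coe_sort Λ]
      refine Finset.sum_congr rfl fun α _ => ?_
      rw [dif_pos α.2, eval_finsetSum, Finset.sum_mul]
      refine Finset.sum_congr rfl fun h _ => ?_
      have hmod : (x + q * l) % q = x := by
        rw [Nat.add_mul_mod_self_left, Nat.mod_eq_of_lt (hI x hx).2]
      simp only [hz, hmod, eval_mul, eval_C]
      ring)
    intro α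
    have h1 := hind α α.2
    simp only [dif_pos α.2] at h1
    exact h1
  refine ⟨I.filter fun x => ∃ j₀ ∈ P q (n - L) {x}, Δ.eval (j₀ : ℝ) ≠ 0, Finset.filter_subset _ _,
    ?_, ?_⟩
  · set F := I.filter fun x => ∃ j₀ ∈ P q (n - L) {x}, Δ.eval (j₀ : ℝ) ≠ 0 with hF
    have hz0 : ∀ y ∈ (P q (n - L) (I \ F)).image (Nat.cast : ℕ → ℝ), Δ.eval y = 0 := by
      intro y hy
      obtain ⟨j, hj, rfl⟩ := mem_image.1 hy
      rw [P, mem_filter, mem_sdiff] at hj
      obtain ⟨hj1, hj2, hj3⟩ := hj
      by_contra hne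
      apply hj3
      rw [hF, mem_filter]
      refine ⟨hj2, j, ?_, hne⟩
      rw [P, mem_filter, mem_singleton]
      exact ⟨hj1, rfl⟩
    have hcount : (I \ F).card * (n - L) ≤ Δ.natDegree := by
      by_contra hcon
      push Not at hcon
      apply hΔ0
      apply eq_zero_of_natDegree_lt_card_of_eval_eq_zero' _ _ hz0
      rw [card_image_of_injective _ Nat.cast_injective,
        w9_card_nodes hq1 (fun x hx => (hI x (mem_sdiff.1 hx).1).2)]
      exact hcon
    calc (I \ F).card * (n - L) ≤ Δ.natDegree := hcount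
      _ ≤ ρ * (d + w * B * L) := hΔd
      _ ≤ L * (d + w * B * L) := Nat.mul_le_mul_right _ hρ
  · intro x hx
    obtain ⟨hxI, j₀, hj₀, hne⟩ := mem_filter.1 hx
    exact hgood x hxI j₀ hj₀ hne

end WX
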