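import Pool.Agent.LibCM68.D0
import Pool.Agent.LibWX.W9

/-!
# Row W10: the rows of the second type are independent modulo those of the first type (MEDIUM; template LibPX/X7.lean, simpler: no multiplier)

From `hv` (`choose_comb`, `Submodule.mem_span_range_iff_exists_fun`-like, as in LibPX/X7.lean): polynomials `R s` of degree `≤ d` with `∑_s row T s j * R s (j) = 0` at the nodes: for `s ∈ Sh` the polynomial of
`v (s, ·)` (degree `< κ ≤ d`, zero only if `v (s, ·) = 0`), for `s ∈ Sg` `-` the polynomial of the coefficients, else `0`.  `zeroP` with `φ h x = (D.φ h x : ℝ)` gives `F`; `Sp * (I \ F).card ≤ I.card`: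
`Sp * ((I \ F).card * (n - L)) ≤ Sp * (L * (d + W * L)) ≤ I.card * (n - L)` and `n - L > 0`.  For every `α` and every coefficient `i`: `∑ h, (R (h, α)).coeff i * φ h x = 0` for `x ∈ F`: `hspread`: `R (h, α) = 0`.
-/

namespace WX

open Finset Polynomial CM68

/-- a sum over a subset, in total form -/
private theorem W10_sum {ι : Type*} [Fintype ι] (S : Finset ι) (f : ι → ℝ)
    (h0 : ∀ s, s ∉ S → f s = 0) : ∑ s : S, f s = ∑ s, f s := by
  rw [Finset.sum_coe_sort S f]
  exact Finset.sum_subset (Finset.subset_univ S) fun s _ hs => h0 s hs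

theorem rows_indW (D : DatW) (Sh : Finset D.Ix) (hdis : ∀ s ∈ Sh, s ∉ D.Sg) {n T d κ : ℕ}
    (hκ : 1 ≤ κ) (hκd : κ ≤ d) (hn : D.L < n)
    (hdeg : D.Sp * (D.L * (d + D.W * D.L)) ≤ D.I.card * (n - D.L))
    (v : Sh × Fin κ → ℝ)
    (hv : (∑ b, v b • fun j : D.Nd n => D.rowc T b.1.1 b.2 (j : ℕ)) ∈ D.rsp n T d) :
    v = 0 := by
  classical
  obtain ⟨e, he⟩ := (Submodule.mem_span_range_iff_exists_fun ℝ).1 hv
  have hd1 : 1 ≤ d := by omega
  choose Q hQ1 hQ2 hQ3 using fun s : Sh => choose_comb (K := κ) hκ (fun i => v (s, i))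
  choose R hR1 hR2 hR3 using fun s : D.Sg => choose_comb hd1 (fun i => e (s, i))
  obtain ⟨Q', hQ'⟩ : ∃ Q' : D.Ix → ℝ[X], Q' = fun s => if h : s ∈ Sh then Q ⟨s, h⟩ else 0 :=
    ⟨_, rfl⟩
  obtain ⟨R', hR'⟩ : ∃ R' : D.Ix → ℝ[X], R' = fun s => if h : s ∈ D.Sg then R ⟨s, h⟩ else 0 :=
    ⟨_, rfl⟩
  have hQin : ∀ s : Sh, Q' s = Q s := by
    intro s
    rw [hQ']
    exact dif_pos s.2
  have hQout : ∀ s, s ∉ Sh → Q' s = 0 := by
    intro s hs
    rw [hQ']
    exact dif_neg hs
  have hRin : ∀ s : D.Sg, R' s = R s := by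
    intro s
    rw [hR']
    exact dif_pos s.2
  have hRout : ∀ s, s ∉ D.Sg → R' s = 0 := by
    intro s hs
    rw [hR']
    exact dif_neg hs
  have hQd : ∀ s, (Q' s).natDegree ≤ κ := by
    intro s
    by_cases h : s ∈ Sh
    · have := (hQ1 ⟨s, h⟩).le
      rwa [← hQin] at this
    · rw [hQout s h, natDegree_zero]
      exact Nat.zero_le _
  have hRd : ∀ s, (R' s).natDegree ≤ d := by
    intro s
    by_cases h : s ∈ D.Sg
    · have := (hR1 ⟨s, h⟩).le
      rwa [← hRin] at this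
    · rw [hRout s h, natDegree_zero]
      exact Nat.zero_le _
  obtain ⟨Rf, hRf⟩ : ∃ Rf : D.Ix → ℝ[X], Rf = fun s => Q' s - R' s := ⟨_, rfl⟩
  have hRfd : ∀ s, (Rf s).natDegree ≤ d := by
    intro s
    rw [hRf]
    exact (natDegree_sub_le _ _).trans (max_le ((hQd s).trans hκd) (hRd s))
  -- the relation
  have hrel : ∀ j ∈ P D.q n D.I, ∑ s : Fin D.H × D.Λ, ((D.φ s.1 (j % D.q) : ℚ) : ℝ) *
      pm D.q D.wd T s.2 j * (Rf s).eval (j : ℝ) = 0 := by
    intro j hj
    have h1 := congrFun he ⟨j, hj⟩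
    simp only [Finset.sum_apply, Pi.smul_apply, smul_eq_mul] at h1
    have e1 : ∑ a : D.Sg × Fin d, e a * D.rowc T a.1.1 a.2 j =
        ∑ s : D.Ix, D.row T s j * (R' s).eval (j : ℝ) := by
      rw [← W10_sum D.Sg (fun s => D.row T s j * (R' s).eval (j : ℝ))
        (fun s hs => by rw [hRout s hs, eval_zero, mul_zero]), Fintype.sum_prod_type]
      refine Finset.sum_congr rfl fun s _ => ?_
      simp only
      rw [hRin, hR2, Finset.mul_sum]
      refine Finset.sum_congr rfl fun i _ => ?_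
      simp only [DatW.rowc]
      ring
    have e2 : ∑ b : Sh × Fin κ, v b * D.rowc T b.1.1 b.2 j =
        ∑ s : D.Ix, D.row T s j * (Q' s).eval (j : ℝ) := by
      rw [← W10_sum Sh (fun s => D.row T s j * (Q' s).eval (j : ℝ))
        (fun s hs => by rw [hQout s hs, eval_zero, mul_zero]), Fintype.sum_prod_type]
      refine Finset.sum_congr rfl fun s _ => ?_
      simp only
      rw [hQin, hQ2, Finset.mul_sum]
      refine Finset.sum_congr rfl fun i _ => ?_
      simp only [DatW.rowc]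
      ring
    have e3 : ∑ a : D.Sg × Fin d, e a * D.rowc T a.1.1 a.2 j =
        ∑ b : Sh × Fin κ, v b * D.rowc T b.1.1 b.2 j := h1
    rw [e1, e2] at e3
    have e4 : ∑ s : D.Ix, D.row T s j * (Rf s).eval (j : ℝ) =
        ∑ s : D.Ix, D.row T s j * (Q' s).eval (j : ℝ) -
          ∑ s : D.Ix, D.row T s j * (R' s).eval (j : ℝ) := by
      rw [← Finset.sum_sub_distrib]
      refine Finset.sum_congr rfl fun s _ => ?_
      rw [hRf]
      simp only [eval_sub]
      ring
    have e5 : ∑ s : D.Ix, D.row T s j * (Rf s).eval (j : ℝ) = 0 := by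
      rw [e4, e3, sub_self]
    exact e5
  obtain ⟨F, hFI, hFc, hF⟩ := zeroP (q := D.q) (n := n) (d := d) (T := T) (w := D.w) D.hq D.hI
    D.hwd D.hΛ (fun h x => ((D.φ h x : ℚ) : ℝ)) Rf hRfd hrel
  have hFc' : (D.I \ F).card * (n - D.L) ≤ D.L * (d + D.W * D.L) := hFc
  have hbad : D.Sp * (D.I \ F).card ≤ D.I.card := by
    have h1 : D.Sp * (D.I \ F).card * (n - D.L) ≤ D.I.card * (n - D.L) := by
      rw [mul_assoc]
      exact (Nat.mul_le_mul_left _ hFc').trans hdeg
    exact Nat.le_of_mul_le_mul_right h1 (by omega)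
  have hRf0 : ∀ s, Rf s = 0 := by
    rintro ⟨h, α⟩
    ext m
    have h1 := D.hspread F hFI hbad (fun i => (Rf (i, α)).coeff m) (by
      intro x hx
      have h2 := hF x hx α
      have h3 := congrArg (fun p : ℝ[X] => p.coeff m) h2
      simp only [finsetSum_coeff, coeff_C_mul, coeff_zero] at h3
      rw [← h3]
      exact Finset.sum_congr rfl fun i _ => mul_comm _ _)
    have h2 := congrFun h1 h
    simpa using h2
  funext b
  obtain ⟨s, i⟩ := b
  have h1 := hRf0 s
  rw [hRf] at h1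
  simp only at h1
  rw [hRout s (hdis s s.2), sub_zero, hQin] at h1
  exact congrFun (hQ3 s h1) i

end WX
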