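import Pool.Agent.LibWX.WBase

/-!
# Row W13: every row is a combination of the rows of `Sg` (MEDIUM, algebra; template LibPX/X3.lean, simpler)

Induction on the weight `wg D.wd s.2` (statement for all `s` of weight `≤ m`): `row T s j = ∑_{s' ∈ Sg} ∑_μ Γ s s' μ * A^μ * row T s' j`, `A^μ = ∏ i, aw q T (wd i) j ^ μ i`, with constants `Γ` independent of
`T, j` and `∑ μ ≤ m` for `Γ s s' μ ≠ 0`, `Adms (wd i)` for `μ i ≠ 0`.  Step: `hgood`: the `s'` with `c₀ s' ≠ 0` are in `Sg` (the term `μ = 0`) or have smaller weight; the terms `c i s' * aw (wd i) * row s'` have smaller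
weight, `μ + Pi.single i 1`.  A convenient formulation (X3): the set of the functions `F : ℕ → ℕ → ℝ` (of `T` and `j`, equality required for `j % q ∈ I`) of the form
`∑_{s'} ∑_{μ ∈ expo N m} Γ s' μ * A^μ * row s'` with the two conditions is a real vector space `V m`, increasing in `m`, and multiplication by `aw (wd i)`, `Adms (wd i)`, maps `V m` to `V (m + 1)`.
In the end `wg ≤ w B = W` (`wg_le`, `D.hΛ.sub`).
-/

namespace WX

open Finset CM68

/-- the points `(T, j)` -/
private abbrev W13_Pt (D : DatW) : Type := {z : ℕ × ℕ // z.2 % D.q ∈ D.I}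

/-- the coefficient functions on the points -/
private noncomputable def W13_C (D : DatW) (μ : Fin D.N → ℕ) : W13_Pt D → ℝ :=
  fun z => ∏ i, aw D.q z.1.1 (D.wd i) z.1.2 ^ μ i

/-- the rows on the points -/
private noncomputable def W13_P (D : DatW) (s : D.Ix) : W13_Pt D → ℝ :=
  fun z => D.row z.1.1 s z.1.2

/-- the pairs allowed in weight `m` -/
private noncomputable def W13_S (D : DatW) (m : ℕ) : Finset (D.Ix × (Fin D.N → ℕ)) :=
  @Finset.filter _ (fun p => ∀ i, p.2 i ≠ 0 → Adms (D.wd i)) (Classical.decPred _)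
    (D.Sg ×ˢ expo D.N m)

private theorem W13_mem (D : DatW) (m : ℕ) (p : D.Ix × (Fin D.N → ℕ)) :
    p ∈ W13_S D m ↔ p.1 ∈ D.Sg ∧ ∑ i, p.2 i ≤ m ∧ ∀ i, p.2 i ≠ 0 → Adms (D.wd i) := by
  unfold W13_S
  rw [@Finset.mem_filter _ _ (Classical.decPred _), Finset.mem_product, mem_expo, and_assoc]

/-- the combinations of the rows of `Sg` -/
private noncomputable def W13_V (D : DatW) (m : ℕ) : Submodule ℝ (W13_Pt D → ℝ) :=
  Submodule.span ℝ (Set.range fun p : ↥(W13_S D m) => W13_C D p.1.2 * W13_P D p.1.1)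

private theorem W13_C_add (D : DatW) (μ ν : Fin D.N → ℕ) :
    W13_C D (μ + ν) = W13_C D μ * W13_C D ν := by
  funext z
  unfold W13_C
  simp only [Pi.mul_apply, Pi.add_apply, pow_add, Finset.prod_mul_distrib]

private theorem W13_C_zero (D : DatW) : W13_C D 0 = 1 := by
  funext z
  simp [W13_C]

private theorem W13_C_single (D : DatW) (i : Fin D.N) (z : W13_Pt D) :
    W13_C D (Pi.single i 1) z = aw D.q z.1.1 (D.wd i) z.1.2 := by
  unfold W13_C
  rw [Finset.prod_eq_single i]
  · rw [Pi.single_eq_same, pow_one]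
  · intro i' _ h
    rw [Pi.single_eq_of_ne h, pow_zero]
  · intro h
    exact absurd (Finset.mem_univ i) h

private theorem W13_gen (D : DatW) {s : D.Ix} (hs : s ∈ D.Sg) (μ : Fin D.N → ℕ) {m : ℕ}
    (h1 : ∑ i, μ i ≤ m) (h2 : ∀ i, μ i ≠ 0 → Adms (D.wd i)) :
    W13_C D μ * W13_P D s ∈ W13_V D m :=
  Submodule.subset_span ⟨⟨(s, μ), (W13_mem D m (s, μ)).2 ⟨hs, h1, h2⟩⟩, rfl⟩

private theorem W13_mul (D : DatW) (μ : Fin D.N → ℕ) {m m' : ℕ} (hm : m + ∑ i, μ i ≤ m')
    (hμ : ∀ i, μ i ≠ 0 → Adms (D.wd i)) {F : W13_Pt D → ℝ} (hF : F ∈ W13_V D m) :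
    W13_C D μ * F ∈ W13_V D m' := by
  have h : W13_V D m ≤ (W13_V D m').comap (LinearMap.mulLeft ℝ (W13_C D μ)) := by
    unfold W13_V
    rw [Submodule.span_le]
    rintro _ ⟨p, rfl⟩
    obtain ⟨⟨s, ν⟩, hp⟩ := p
    obtain ⟨hp1, hp2, hp3⟩ := (W13_mem D m (s, ν)).1 hp
    change W13_C D μ * (W13_C D ν * W13_P D s) ∈ W13_V D m'
    rw [← mul_assoc, ← W13_C_add]
    refine W13_gen D hp1 _ ?_ ?_
    · simp only [Pi.add_apply, Finset.sum_add_distrib]
      simp only at hp2
      omega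
    · intro i hi
      rw [Pi.add_apply] at hi
      by_cases h0 : μ i = 0
      · rw [h0, zero_add] at hi
        exact hp3 i hi
      · exact hμ i h0
  exact h hF

private theorem W13_mono (D : DatW) {m m' : ℕ} (hm : m ≤ m') {F : W13_Pt D → ℝ}
    (hF : F ∈ W13_V D m) : F ∈ W13_V D m' := by
  have h := W13_mul D 0 (m' := m') (by simpa using hm) (fun i hi => absurd rfl hi) hF
  rwa [W13_C_zero, one_mul] at h

private theorem W13_main (D : DatW) :
    ∀ (m : ℕ) (s : D.Ix), wg D.wd s.2 = m → W13_P D s ∈ W13_V D m := by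
  classical
  intro m
  induction m using Nat.strong_induction_on with
  | _ m ih =>
    intro s hs
    obtain ⟨c₀, c, h0, h1, h2⟩ := D.hgood s
    have hkey : W13_P D s = (∑ s' : D.Ix, c₀ s' • W13_P D s') +
        ∑ i, ∑ s' : D.Ix, c i s' • (W13_C D (Pi.single i 1) * W13_P D s') := by
      funext z
      have h3 := h2 z.1.1 z.1.2 z.2
      simp only [Pi.add_apply, Finset.sum_apply, Pi.smul_apply, Pi.mul_apply, smul_eq_mul,
        W13_C_single]
      refine h3.trans ?_
      congr 1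
      refine Finset.sum_congr rfl fun i _ => Finset.sum_congr rfl fun s' _ => ?_
      rw [mul_assoc]
      rfl
    rw [hkey]
    refine Submodule.add_mem _ ?_ ?_
    · refine Submodule.sum_mem _ fun s' _ => ?_
      by_cases hc : c₀ s' = 0
      · rw [hc, zero_smul]
        exact Submodule.zero_mem _
      · refine Submodule.smul_mem _ _ ?_
        rcases h0 s' hc with h3 | h3
        · have h4 := W13_gen D h3 0 (m := m) (by simp) (fun i hi => absurd rfl hi)
          rwa [W13_C_zero, one_mul] at h4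
        · rw [hs] at h3
          exact W13_mono D h3.le (ih _ h3 s' rfl)
    · refine Submodule.sum_mem _ fun i _ => Submodule.sum_mem _ fun s' _ => ?_
      by_cases hc : c i s' = 0
      · rw [hc, zero_smul]
        exact Submodule.zero_mem _
      · refine Submodule.smul_mem _ _ ?_
        obtain ⟨h3, h4⟩ := h1 i s' hc
        rw [hs] at h4
        refine W13_mul D (Pi.single i 1) (m' := m) ?_ ?_ (ih _ h4 s' rfl)
        · rw [Finset.sum_pi_single']
          simp only [Finset.mem_univ, if_true]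
          exact h4
        · intro i' hi'
          by_cases h5 : i' = i
          · rw [h5]
            exact h3
          · exact absurd (Pi.single_eq_of_ne h5 _) hi'

theorem combW (D : DatW) :
    ∃ Γ : D.Ix → D.Ix → (Fin D.N → ℕ) → ℝ,
      (∀ s s' μ, Γ s s' μ ≠ 0 → s' ∈ D.Sg ∧ ∀ i, μ i ≠ 0 → Adms (D.wd i)) ∧
      ∀ (T : ℕ) (s : D.Ix) (j : ℕ), j % D.q ∈ D.I → D.row T s j =
        ∑ s' : D.Ix, ∑ μ ∈ expo D.N D.W,
          Γ s s' μ * (∏ i, aw D.q T (D.wd i) j ^ μ i) * D.row T s' j := by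
  classical
  have h : ∀ s : D.Ix, ∃ c : ↥(W13_S D D.W) → ℝ,
      ∑ p, c p • (W13_C D p.1.2 * W13_P D p.1.1) = W13_P D s := by
    intro s
    have h1 : wg D.wd s.2 ≤ D.W := wg_le D.hwd (D.hΛ.sub s.2.2)
    have h2 := W13_mono D h1 (W13_main D _ s rfl)
    exact (Submodule.mem_span_range_iff_exists_fun ℝ).1 h2
  choose c hc using h
  refine ⟨fun s s' μ => if h : (s', μ) ∈ W13_S D D.W then c s ⟨(s', μ), h⟩ else 0, ?_, ?_⟩
  · intro s s' μ h0
    by_contra h1
    apply h0
    refine dif_neg fun h2 => h1 ?_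
    obtain ⟨h3, _, h5⟩ := (W13_mem D D.W (s', μ)).1 h2
    exact ⟨h3, h5⟩
  · intro T s j hj
    have h1 := congrFun (hc s) (⟨(T, j), hj⟩ : W13_Pt D)
    rw [Finset.sum_apply] at h1
    have h2 : D.row T s j = W13_P D s (⟨(T, j), hj⟩ : W13_Pt D) := rfl
    rw [h2, ← h1]
    have h3 : ∑ s' : D.Ix, ∑ μ ∈ expo D.N D.W,
        (if h : (s', μ) ∈ W13_S D D.W then c s ⟨(s', μ), h⟩ else 0) *
          (∏ i, aw D.q T (D.wd i) j ^ μ i) * D.row T s' j =
        ∑ p ∈ (Finset.univ : Finset D.Ix) ×ˢ expo D.N D.W,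
        (if h : p ∈ W13_S D D.W then c s ⟨p, h⟩ else 0) *
          (∏ i, aw D.q T (D.wd i) j ^ p.2 i) * D.row T p.1 j := by
      rw [Finset.sum_product]
    rw [h3]
    have h4 : W13_S D D.W ⊆ (Finset.univ : Finset D.Ix) ×ˢ expo D.N D.W := by
      intro p hp
      exact Finset.mem_product.2 ⟨Finset.mem_univ _, mem_expo.2 ((W13_mem D D.W p).1 hp).2.1⟩
    rw [← Finset.sum_subset h4, ← Finset.sum_coe_sort (W13_S D D.W)
      (fun p => (if h : p ∈ W13_S D D.W then c s ⟨p, h⟩ else 0) *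
          (∏ i, aw D.q T (D.wd i) j ^ p.2 i) * D.row T p.1 j)]
    · refine Finset.sum_congr rfl fun p _ => ?_
      rw [dif_pos p.2]
      simp only [Pi.smul_apply, Pi.mul_apply, smul_eq_mul]
      unfold W13_C W13_P
      ring
    · intro p _ hp
      rw [dif_neg hp, zero_mul, zero_mul]

end WX
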