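import Pool.Agent.LibCM68.S1
import Pool.Agent.LibMH.R5
import Pool.Agent.LibWX.WBase

/-!
# Row W12: column factors, integrality, sizes (MEDIUM; templates LibMH/R5.lean, LibMH/R6.lean, LibPX/X4.lean)

`WP q n T (a + b) = WP q n T a * WP q n T b` (`pow_add`, private `R5_add` in LibMH/R5: copy).  `Wpw_int`: `WP(v.sum).eval j * pw q (j % q) v (j / q + T + 1)` is an integer for positive words, so
`WP(wg α) * pm α` is an integer (`WP(∑ α i s_i) = ∏ WP(s_i)^(α i)`), and `wg α ≤ W` (`wg_le`), the rest `WP(W - wg α)` is an integer (`W_int`); `wt = |WP(W).eval j|` (`⌊|z|⌋₊ = |z|` for integers, `R5_wt`).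
`row_leW`: `1 ≤ j % q`, `pw ≤ N^length` (`pw_le_pow`, `pw_nonneg`), `N = j / q + T + 1 ≤ win n T`, length `≤` sum, `∏ N^(α i * len) ≤ win^(wg α) ≤ win^W`.
`wt_posW`, `wt_leW`: as `wt_pos4`, `wt_le4` in LibMH/R5.lean.
-/

namespace WX

open Finset Polynomial CM68

private theorem w12_add (q n T a b : ℕ) (x : ℝ) :
    (WP q n T (a + b)).eval x = (WP q n T a).eval x * (WP q n T b).eval x := by
  unfold WP
  rw [pow_add, eval_mul]

private theorem w12_mul (q n T a b : ℕ) (x : ℝ) :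
    (WP q n T (a * b)).eval x = (WP q n T b).eval x ^ a := by
  unfold WP
  rw [mul_comm a b, pow_mul, eval_pow]

private theorem w12_zero (q n T : ℕ) (x : ℝ) : (WP q n T 0).eval x = 1 := by
  unfold WP
  rw [pow_zero, eval_one]

private theorem w12_nd {D : DatW} {n j : ℕ} (hj : j ∈ D.Nd n) : j < D.q * n ∧ j % D.q ∈ D.I := by
  have hj' := Finset.mem_filter.1
    (show j ∈ (range (D.q * n)).filter fun j => j % D.q ∈ D.I from hj)
  exact ⟨Finset.mem_range.1 hj'.1, hj'.2⟩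

private theorem w12_wt (D : DatW) (n T j : ℕ) :
    ((D.wt n T j : ℕ) : ℝ) = |(WP D.q n T D.W).eval (j : ℝ)| := by
  obtain ⟨z, hz⟩ := W_int D.q n T D.W j
  unfold DatW.wt
  rw [hz]
  have h1 : |(z : ℝ)| = ((z.natAbs : ℕ) : ℝ) := by
    rw [Nat.cast_natAbs, Int.cast_abs]
  rw [h1, Nat.floor_natCast]

private theorem w12_prod {q w N n T j : ℕ} {wd : Fin N → List ℕ} (hwd : IsWd w wd)
    (hj : j < q * n) (α : Fin N → ℕ) (s : Finset (Fin N)) :
    ∃ z : ℤ, (WP q n T (∑ i ∈ s, α i * (wd i).sum)).eval (j : ℝ) *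
      ∏ i ∈ s, pw q ((j % q : ℕ) : ℝ) (wd i) (j / q + T + 1) ^ α i = z := by
  classical
  induction s using Finset.induction_on with
  | empty => exact ⟨1, by rw [Finset.sum_empty, Finset.prod_empty, w12_zero]; simp⟩
  | insert a s ha ih =>
    obtain ⟨z₂, h₂⟩ := ih
    obtain ⟨z₁, h₁⟩ := Wpw_int (T := T) (w := (wd a).sum) (v := wd a)
      (((hwd.mem (wd a)).1 ⟨a, rfl⟩).2.1) le_rfl hj
    refine ⟨z₁ ^ α a * z₂, ?_⟩
    rw [Finset.sum_insert ha, Finset.prod_insert ha, w12_add, w12_mul, Int.cast_mul, Int.cast_pow,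
      ← h₁, ← h₂]
    ring

private theorem w12_pm {q w N n T j B : ℕ} {wd : Fin N → List ℕ} (hwd : IsWd w wd)
    (hj : j < q * n) {α : Fin N → ℕ} (hα : α ∈ expo N B) :
    ∃ z : ℤ, (WP q n T (w * B)).eval (j : ℝ) * pm q wd T α j = z := by
  obtain ⟨z₁, h₁⟩ := w12_prod (T := T) hwd hj α Finset.univ
  obtain ⟨z₂, h₂⟩ := W_int q n T (w * B - wg wd α) j
  refine ⟨z₁ * z₂, ?_⟩
  have h3 : w * B = wg wd α + (w * B - wg wd α) := by
    have := wg_le hwd hα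
    omega
  conv_lhs => rw [h3]
  rw [w12_add, Int.cast_mul, ← h₁, ← h₂]
  unfold pm wg
  ring

theorem row_intW (D : DatW) {n T D₀ : ℕ}
    (hco : ∀ h, ∀ x < D.q, ∃ m : ℤ, (D₀ : ℚ) * D.φ h x = m) (s : D.Ix) {j : ℕ}
    (hj : j ∈ D.Nd n) : ∃ z : ℤ, (D₀ : ℝ) * (D.wt n T j : ℕ) * D.row T s j = z := by
  have hq := D.hq
  rw [w12_wt]
  obtain ⟨e, he⟩ : ∃ e : ℤ, |(WP D.q n T D.W).eval (j : ℝ)| =
      e * (WP D.q n T D.W).eval (j : ℝ) := by
    rcases abs_choice ((WP D.q n T D.W).eval (j : ℝ)) with h | h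
    · exact ⟨1, by rw [h]; simp⟩
    · exact ⟨-1, by rw [h]; simp⟩
  rw [he]
  obtain ⟨m, hm⟩ := hco s.1 (j % D.q) (Nat.mod_lt _ (by omega))
  obtain ⟨z, hz⟩ := w12_pm (T := T) D.hwd (w12_nd hj).1 (D.hΛ.sub s.2.2)
  have hm' : (D₀ : ℝ) * (D.φ s.1 (j % D.q) : ℝ) = m := by
    have h3 := congrArg (Rat.cast : ℚ → ℝ) hm
    push_cast at h3
    exact h3
  refine ⟨e * m * z, ?_⟩
  rw [Int.cast_mul, Int.cast_mul, ← hm', ← hz]
  unfold DatW.row rwf DatW.W
  ring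

theorem wt_posW (D : DatW) {n T j : ℕ} (hj : j ∈ D.Nd n) : 1 ≤ D.wt n T j := by
  have hq := D.hq
  have h1 : (0 : ℝ) < ((D.wt n T j : ℕ) : ℝ) := by
    rw [w12_wt]
    exact abs_pos.2 (W_eval_ne (by omega) (D.hI _ (w12_nd hj).2).1)
  exact Nat.cast_pos.1 h1

theorem wt_leW (D : DatW) {n T j : ℕ} (hj : j ∈ D.Nd n) :
    (D.wt n T j : ℝ) ≤ Wb D.q n T D.W := by
  have hq := D.hq
  rw [w12_wt]
  exact W_le (by omega) (w12_nd hj).1

theorem row_leW (D : DatW) {Bd : ℝ} (hBd : ∀ h, ∀ x < D.q, |(D.φ h x : ℝ)| ≤ Bd) {n T j : ℕ}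
    (hj : j ∈ D.Nd n) (s : D.Ix) : |D.row T s j| ≤ Bd * (win n T : ℝ) ^ D.W := by
  have hq : 0 < D.q := by have := D.hq; omega
  obtain ⟨hlt, hI⟩ := w12_nd hj
  have hpos : 0 < j % D.q := (D.hI _ hI).1
  have hdiv : j / D.q < n := by
    rw [Nat.div_lt_iff_lt_mul hq, mul_comm]
    exact hlt
  have hN : j / D.q + T + 1 ≤ win n T := by
    unfold win
    omega
  have hW : (1 : ℝ) ≤ (win n T : ℝ) := by
    have : 1 ≤ win n T := by unfold win; omega
    exact_mod_cast this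
  have hx : (1 : ℝ) ≤ ((j % D.q : ℕ) : ℝ) := by exact_mod_cast hpos
  have hB0 := hBd s.1 (j % D.q) (Nat.mod_lt _ hq)
  have hpm0 : 0 ≤ pm D.q D.wd T s.2 j := by
    unfold pm
    exact Finset.prod_nonneg fun i _ => pow_nonneg (pw_nonneg D.q (zero_le_one.trans hx) _ _) _
  have hpm : pm D.q D.wd T s.2 j ≤ (win n T : ℝ) ^ D.W := by
    have h1 : pm D.q D.wd T s.2 j ≤ (win n T : ℝ) ^ wg D.wd s.2 := by
      unfold pm wg
      rw [← Finset.prod_pow_eq_pow_sum]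
      refine Finset.prod_le_prod
        (fun i _ => pow_nonneg (pw_nonneg D.q (zero_le_one.trans hx) _ _) _) fun i _ => ?_
      have h2 := pw_le_pow (q := D.q) hx (D.wd i) (j / D.q + T + 1)
      have h3 : (D.wd i).length ≤ (D.wd i).sum :=
        List.length_le_sum_of_one_le _ fun k hk =>
          (((D.hwd.mem (D.wd i)).1 ⟨i, rfl⟩).2.1) k hk
      have h4 : pw D.q ((j % D.q : ℕ) : ℝ) (D.wd i) (j / D.q + T + 1) ≤
          (win n T : ℝ) ^ (D.wd i).sum := by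
        calc pw D.q ((j % D.q : ℕ) : ℝ) (D.wd i) (j / D.q + T + 1)
            ≤ ((j / D.q + T + 1 : ℕ) : ℝ) ^ (D.wd i).length := h2
          _ ≤ (win n T : ℝ) ^ (D.wd i).length :=
              pow_le_pow_left₀ (Nat.cast_nonneg _) (by exact_mod_cast hN) _
          _ ≤ (win n T : ℝ) ^ (D.wd i).sum := pow_le_pow_right₀ hW h3
      refine (pow_le_pow_left₀ (pw_nonneg D.q (zero_le_one.trans hx) _ _) h4 _).trans_eq ?_
      rw [← pow_mul, mul_comm]
    refine h1.trans (pow_le_pow_right₀ hW ?_)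
    exact wg_le D.hwd (D.hΛ.sub s.2.2)
  unfold DatW.row rwf
  rw [abs_mul, abs_of_nonneg hpm0]
  exact mul_le_mul hB0 hpm hpm0 ((abs_nonneg _).trans hB0)

end WX
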