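import Pool.Agent.LibWX.WBase

/-!
# Row W5: quasi-symmetric functions form a domain (MEDIUM; only Mathlib and the definitions)

Suppose `F t₁ n₁ ≠ 0` and `G t₂ n₂ ≠ 0`.  Let `n = max n₁ n₂` and cut: `t₁' m = if m < n₁ then t₁ m else 0`: for positive words `qs t₁' v n = qs t₁ v n₁` for all `n ≥ n₁`
(induction on the word: the terms `m ≥ n₁` vanish since `k ≥ 1`, for `m < n₁` `qs t₁' v m = qs t₁ v m`: the value only depends on `t` below `m`).  So `F t₁' n ≠ 0`, `G t₂' n ≠ 0`.
For fixed `n` there is a polynomial `Q v : MvPolynomial ℕ ℝ` with `MvPolynomial.eval t (Q v) = qs t v n` (induction on the word, for all `n`), so `F · n`, `G · n` are given by polynomials,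
both nonzero; `MvPolynomial ℕ ℝ` is a domain, `MvPolynomial.funext` (infinite field) gives `t` with `F t n * G t n ≠ 0`.
-/

namespace WX

open Finset

private theorem qs_cut (t : ℕ → ℝ) (N : ℕ) (v : List ℕ) (hv : Pos v) (n : ℕ) :
    qs (fun m => if m < N then t m else 0) v n = qs t v (min n N) := by
  induction v generalizing n with
  | nil => rw [qs_nil, qs_nil]
  | cons k v ih =>
    rw [qs_cons, qs_cons]
    have hk : 1 ≤ k := hv k (by simp)
    have hv' : Pos v := fun x hx => hv x (by simp [hx])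
    symm
    have hsub : range (min n N) ⊆ range n := by
      intro m hm
      rw [mem_range] at hm ⊢
      exact lt_of_lt_of_le hm (min_le_left _ _)
    rw [← Finset.sum_subset hsub]
    · refine Finset.sum_congr rfl fun m hm => ?_
      rw [mem_range] at hm
      have hmN : m < N := lt_of_lt_of_le hm (min_le_right _ _)
      rw [ih hv' m, if_pos hmN, min_eq_left hmN.le]
    · intro m hm hm'
      rw [mem_range] at hm hm'
      have hmN : ¬ m < N := fun h => hm' (lt_min hm h)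
      rw [if_neg hmN, zero_pow (by omega), zero_mul]

private theorem qs_poly (v : List ℕ) (n : ℕ) :
    ∃ Q : MvPolynomial ℕ ℝ, ∀ t : ℕ → ℝ, MvPolynomial.eval t Q = qs t v n := by
  induction v generalizing n with
  | nil => exact ⟨1, fun t => by rw [qs_nil]; simp⟩
  | cons k v ih =>
    choose Q hQ using ih
    refine ⟨∑ m ∈ range n, MvPolynomial.X m ^ k * Q m, fun t => ?_⟩
    rw [qs_cons, map_sum]
    refine Finset.sum_congr rfl fun m _ => ?_
    rw [map_mul, map_pow, MvPolynomial.eval_X, hQ]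

private theorem qf_poly {F : (ℕ → ℝ) → ℕ → ℝ} (hF : QF F) (n : ℕ) :
    ∃ Q : MvPolynomial ℕ ℝ, ∀ t : ℕ → ℝ, MvPolynomial.eval t Q = F t n := by
  obtain ⟨Fc, c, _, h⟩ := hF
  choose Q hQ using fun v : List ℕ => qs_poly v n
  refine ⟨∑ v ∈ Fc, MvPolynomial.C (c v) * Q v, fun t => ?_⟩
  rw [h, map_sum]
  refine Finset.sum_congr rfl fun v _ => ?_
  rw [map_mul, MvPolynomial.eval_C, hQ]

private theorem qf_cut {F : (ℕ → ℝ) → ℕ → ℝ} (hF : QF F) (t : ℕ → ℝ) {N n : ℕ} (hn : N ≤ n) :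
    F (fun m => if m < N then t m else 0) n = F t N := by
  obtain ⟨Fc, c, hp, h⟩ := hF
  rw [h, h]
  refine Finset.sum_congr rfl fun v hv => ?_
  rw [qs_cut t N v (hp v hv) n, min_eq_right hn]

theorem qf_dom {F G : (ℕ → ℝ) → ℕ → ℝ} (hF : QF F) (hG : QF G) (h : ∀ t n, F t n * G t n = 0) :
    (∀ t n, F t n = 0) ∨ ∀ t n, G t n = 0 := by
  by_contra hcon
  push Not at hcon
  obtain ⟨⟨t₁, n₁, h₁⟩, ⟨t₂, n₂, h₂⟩⟩ := hcon
  obtain ⟨P, hP⟩ := qf_poly hF (max n₁ n₂)
  obtain ⟨Q, hQ⟩ := qf_poly hG (max n₁ n₂)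
  have hP0 : P ≠ 0 := by
    intro h0
    apply h₁
    rw [← qf_cut hF t₁ (le_max_left n₁ n₂), ← hP, h0, map_zero]
  have hQ0 : Q ≠ 0 := by
    intro h0
    apply h₂
    rw [← qf_cut hG t₂ (le_max_right n₁ n₂), ← hQ, h0, map_zero]
  apply mul_ne_zero hP0 hQ0
  apply MvPolynomial.funext
  intro t
  rw [map_mul, hP, hQ, map_zero]
  exact h t _

end WX
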