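import Pool.Agent.LibWX.W2
import Pool.Agent.LibWX.W3
import Pool.Agent.LibWX.W5

/-!
# Row W15b: the leading parts are independent (MEDIUM/STRONG, algebra)

Let `∑_{l, α'} b (l, α') • rvec l α' = 0` (`Fintype.linearIndependent_iff`).  For `x ∈ I`, all `t', n`: multiply the coordinate `s = (h, α)` by `φ h x * qm wd t' n α` and sum over `s`:
`0 = ∑_{l, α'} b (l, α') ∑_{u ∈ Ws, sum = e} (∑ h, t l u h φ h x) (∑_{α ∈ Λ} a (ixw u + α') α qm t' n α) = ∑ b (l, α') ∑_u ψ l x c u x * qm (ixw u + α') = F(t', n) * G(t', n)`,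
`F = ∑_{u ∈ Ws, sum = e} c u x * qs t' u n` (`qm_ixw`, `qm_add`), `G = ∑_{α' ∈ Λ'} (∑ l, b (l, α') ψ l x) qm t' n α'`; both `QF` (`qf_sum`, `qf_smul`, `qf_qs`, `qm_QF`).  `F` is not identically `0`: `qs_ind`
and `hlead`.  So `G = 0` (`qf_dom`), `∑ l, b (l, α') ψ l x = 0` for all `α' ∈ Λ'` (`hΛ'.ind`) and all `x ∈ I`: `b = 0` (`hψ`).
-/

namespace WX

open Finset CM68

private lemma w15b_one {N H H' q w B e : ℕ} {wd : Fin N → List ℕ} {Λ Λ' : Finset (Fin N → ℕ)}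
    {I : Finset ℕ} {φ : Fin H → ℕ → ℚ} {ψ : Fin H' → ℕ → ℚ} {Ws : Finset (List ℕ)}
    {c : List ℕ → ℕ → ℝ} {a : (Fin N → ℕ) → (Fin N → ℕ) → ℝ} {t : Fin H' → List ℕ → Fin H → ℝ}
    (R : RelW q w B e wd Λ Λ' I φ ψ Ws c a t) {x : ℕ} (hx : x ∈ I) (l : Fin H')
    (α' : Fin N → ℕ) (hα' : α' ∈ Λ') (τ : ℕ → ℝ) (n : ℕ) :
    ∑ s : Fin H × Λ, rvec wd Λ Ws e a t l α' s * ((φ s.1 x : ℝ) * qm wd τ n s.2) =
      (ψ l x : ℝ) * qm wd τ n α' *
        ∑ u ∈ Ws.filter (fun u => u.sum = e), c u x * qs τ u n := by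
  unfold rvec
  have h1 : ∑ s : Fin H × Λ, (∑ u ∈ Ws.filter (fun u => u.sum = e),
      t l u s.1 * a (ixw wd u + α') s.2) * ((φ s.1 x : ℝ) * qm wd τ n s.2) =
      ∑ u ∈ Ws.filter (fun u => u.sum = e), (∑ h : Fin H, t l u h * (φ h x : ℝ)) *
        ∑ α : Λ, a (ixw wd u + α') α * qm wd τ n α := by
    calc _ = ∑ s : Fin H × Λ, ∑ u ∈ Ws.filter (fun u => u.sum = e),
        (t l u s.1 * (φ s.1 x : ℝ)) * (a (ixw wd u + α') s.2 * qm wd τ n s.2) := by
          refine Finset.sum_congr rfl fun s _ => ?_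
          rw [Finset.sum_mul]
          refine Finset.sum_congr rfl fun u _ => ?_
          ring
      _ = ∑ u ∈ Ws.filter (fun u => u.sum = e), ∑ s : Fin H × Λ,
        (t l u s.1 * (φ s.1 x : ℝ)) * (a (ixw wd u + α') s.2 * qm wd τ n s.2) :=
          Finset.sum_comm
      _ = _ := by
          refine Finset.sum_congr rfl fun u _ => ?_
          rw [Fintype.sum_prod_type, Finset.sum_mul_sum]
  rw [h1, Finset.mul_sum]
  refine Finset.sum_congr rfl fun u hu => ?_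
  rw [Finset.mem_filter] at hu
  have hadm := (R.hWs u).1 hu.1
  have hpos : Pos u := hadm.1.1
  rw [← R.hmul l u hu.1 x hx]
  have hexp : ixw wd u + α' ∈ expo N B := by
    rw [mem_expo]
    have h2 := ixw_expo R.hwd hpos hadm.2
    have h3 := mem_expo.1 (R.hΛ'.sub hα')
    have h4 : ∑ i, (ixw wd u + α') i = ∑ i, ixw wd u i + ∑ i, α' i := by
      rw [← Finset.sum_add_distrib]
      rfl
    have h5 := R.hB
    omega
  have h6 : ∑ α : Λ, a (ixw wd u + α') α * qm wd τ n α = qm wd τ n (ixw wd u + α') := by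
    rw [(R.ha _ hexp).2 τ n]
    exact Finset.sum_coe_sort Λ (fun α => a (ixw wd u + α') α * qm wd τ n α)
  rw [h6, qm_add, qm_ixw R.hwd hpos hadm.2]
  ring

theorem rvec_indep {N H H' q w B e : ℕ} {wd : Fin N → List ℕ} {Λ Λ' : Finset (Fin N → ℕ)}
    {I : Finset ℕ} {φ : Fin H → ℕ → ℚ} {ψ : Fin H' → ℕ → ℚ} {Ws : Finset (List ℕ)}
    {c : List ℕ → ℕ → ℝ} {a : (Fin N → ℕ) → (Fin N → ℕ) → ℝ} {t : Fin H' → List ℕ → Fin H → ℝ}
    (R : RelW q w B e wd Λ Λ' I φ ψ Ws c a t) :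
    LinearIndependent ℝ fun p : Fin H' × Λ' =>
      (rvec wd Λ Ws e a t p.1 p.2 : Fin H × Λ → ℝ) := by
  rw [Fintype.linearIndependent_iff]
  intro b hb
  have hwdP : ∀ i, Pos (wd i) := fun i => ((R.hwd.mem (wd i)).1 ⟨i, rfl⟩).2.1
  have hEP : ∀ u ∈ Ws.filter (fun u => u.sum = e), Pos u := fun u hu =>
    ((R.hWs u).1 (Finset.mem_filter.1 hu).1).1.1
  -- the product vanishes
  have hG : ∀ x ∈ I, ∀ (τ : ℕ → ℝ) (n : ℕ),
      ∑ p : Fin H' × Λ', (b p * (ψ p.1 x : ℝ)) * qm wd τ n (p.2 : Fin N → ℕ) = 0 := by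
    intro x hx
    have hprod : ∀ (τ : ℕ → ℝ) (n : ℕ),
        (∑ u ∈ Ws.filter (fun u => u.sum = e), c u x * qs τ u n) *
          (∑ p : Fin H' × Λ', (b p * (ψ p.1 x : ℝ)) * qm wd τ n (p.2 : Fin N → ℕ)) = 0 := by
      intro τ n
      have h0 : ∑ s : Fin H × Λ, (∑ p : Fin H' × Λ', b p *
          rvec wd Λ Ws e a t p.1 p.2 s) * ((φ s.1 x : ℝ) * qm wd τ n s.2) = 0 := by
        refine Finset.sum_eq_zero fun s _ => ?_
        have := congrFun hb s
        simp only [Finset.sum_apply, Pi.smul_apply, smul_eq_mul, Pi.zero_apply] at this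
        rw [this, zero_mul]
      have h1 : ∑ s : Fin H × Λ, (∑ p : Fin H' × Λ', b p *
          rvec wd Λ Ws e a t p.1 p.2 s) * ((φ s.1 x : ℝ) * qm wd τ n s.2) =
          ∑ p : Fin H' × Λ', b p * ∑ s : Fin H × Λ, rvec wd Λ Ws e a t p.1 p.2 s *
            ((φ s.1 x : ℝ) * qm wd τ n s.2) := by
        simp_rw [Finset.sum_mul, Finset.mul_sum]
        rw [Finset.sum_comm]
        refine Finset.sum_congr rfl fun p _ => Finset.sum_congr rfl fun s _ => ?_
        ring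
      rw [h1] at h0
      rw [← h0, Finset.mul_sum]
      refine Finset.sum_congr rfl fun p _ => ?_
      rw [w15b_one R hx p.1 p.2 p.2.2 τ n]
      ring
    have hF : QF fun τ n => ∑ u ∈ Ws.filter (fun u => u.sum = e), c u x * qs τ u n :=
      qf_sum _ (fun u τ n => c u x * qs τ u n) fun u hu => qf_smul _ (qf_qs (hEP u hu))
    have hGf : QF fun τ n =>
        ∑ p : Fin H' × Λ', (b p * (ψ p.1 x : ℝ)) * qm wd τ n (p.2 : Fin N → ℕ) :=
      qf_sum _ (fun (p : Fin H' × Λ') τ n => (b p * (ψ p.1 x : ℝ)) * qm wd τ n (p.2 : Fin N → ℕ))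
        fun p _ => qf_smul _ (qm_QF hwdP _)
    rcases qf_dom hF hGf hprod with h | h
    · exfalso
      obtain ⟨u, hu, hue, huc⟩ := R.hlead x hx
      exact huc (qs_ind (Ws.filter (fun u => u.sum = e)) hEP (fun u => c u x) h u
        (Finset.mem_filter.2 ⟨hu, hue⟩))
    · exact h
  -- the coefficients vanish
  rintro ⟨l, α'⟩
  have hz : (fun l => b (l, α')) = 0 := by
    apply R.hψ
    intro x hx
    classical
    have h2 := R.hΛ'.ind
      (fun β => if h : β ∈ Λ' then ∑ l, b (l, ⟨β, h⟩) * (ψ l x : ℝ) else 0) (by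
        intro τ n
        rw [← hG x hx τ n, Fintype.sum_prod_type, Finset.sum_comm,
          ← Finset.sum_coe_sort Λ']
        refine Finset.sum_congr rfl fun β _ => ?_
        rw [dif_pos β.2, Finset.sum_mul]) α' α'.2
    rw [dif_pos α'.2] at h2
    exact h2
  exact congrFun hz l

end WX
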