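import Pool.Agent.LibPX.X1

/-!
# Row W15c: a complement adapted to the degree, graded version (SHORT/MEDIUM)

`R` = the span of the `r i`, `finrank R = card κ` (`finrank_span_eq_card`).  `greedy deg R` (LibPX/X1.lean) gives `Sg` and `Pi.single s 1 = ρ + t`, `ρ = ∑ i, b i • r i`.  Put
`b' i = if dg i ≤ deg s then b i else 0`.  `∑ b' i r i = ρ`: at `s'` with `deg s' ≤ deg s` the terms left out vanish (`hgr`); at `s'` with `deg s' > deg s` the left hand side is `0` (`hgr`) and
`ρ s' = Pi.single s 1 s' - t s' = 0`.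
-/

namespace WX

open Finset CM68

theorem greedyG {ι κ : Type*} [Fintype ι] [DecidableEq ι] [Fintype κ] (deg : ι → ℕ) (dg : κ → ℕ)
    (r : κ → ι → ℝ) (hr : LinearIndependent ℝ r) (hgr : ∀ i s, r i s ≠ 0 → deg s = dg i) :
    ∃ Sg : Finset ι, Sg.card + Fintype.card κ = Fintype.card ι ∧
      ∀ s, ∃ (b : κ → ℝ) (t : ι → ℝ), (∀ i, b i ≠ 0 → dg i ≤ deg s) ∧
        (∀ s', t s' ≠ 0 → s' ∈ Sg ∧ deg s' ≤ deg s) ∧ Pi.single s 1 = ∑ i, b i • r i + t := by
  obtain ⟨Sg, hcard, hS⟩ := greedy deg (Submodule.span ℝ (Set.range r))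
  rw [finrank_span_eq_card hr] at hcard
  refine ⟨Sg, hcard, fun s => ?_⟩
  obtain ⟨ρ, hρ, t, ht, he⟩ := hS s
  obtain ⟨b, hb⟩ := (Submodule.mem_span_range_iff_exists_fun ℝ).1 hρ
  refine ⟨fun i => if dg i ≤ deg s then b i else 0, t, ?_, ht, ?_⟩
  · intro i hi
    by_contra hn
    apply hi
    simp only [if_neg hn]
  · rw [he]
    congr 1
    funext s'
    rw [Finset.sum_apply]
    by_cases hd : deg s' ≤ deg s
    · rw [← hb, Finset.sum_apply]
      refine Finset.sum_congr rfl fun i _ => ?_
      rw [Pi.smul_apply, Pi.smul_apply]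
      by_cases hi : dg i ≤ deg s
      · simp only [if_pos hi]
      · simp only [if_neg hi]
        have h0 : r i s' = 0 := by
          by_contra h
          exact hi (hgr i s' h ▸ hd)
        rw [h0, smul_zero, smul_zero]
    · have h1 : ρ s' = 0 := by
        have h2 := congrFun he s'
        rw [Pi.add_apply] at h2
        have h3 : t s' = 0 := by
          by_contra h
          exact hd (ht s' h).2
        have h4 : s' ≠ s := by
          intro h
          rw [h] at hd
          exact hd le_rfl
        rw [Pi.single_eq_of_ne h4, h3, add_zero] at h2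
        exact h2.symm
      rw [h1]
      symm
      apply Finset.sum_eq_zero
      intro i _
      rw [Pi.smul_apply]
      by_cases hi : dg i ≤ deg s
      · have h0 : r i s' = 0 := by
          by_contra h
          apply hd
          rw [hgr i s' h]
          exact hi
        rw [h0, smul_zero]
      · simp only [if_neg hi, zero_smul]

end WX
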