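import Pool.Agent.LibWX.W15a
import Pool.Agent.LibWX.W15b
import Pool.Agent.LibWX.W15c

/-!
# The complement `Sg` (assembly, helper5)
-/

namespace WX

open Finset CM68

theorem exists_Sg {N H H' q w B e : ℕ} {wd : Fin N → List ℕ} {Λ Λ' : Finset (Fin N → ℕ)}
    {I : Finset ℕ} {φ : Fin H → ℕ → ℚ} {ψ : Fin H' → ℕ → ℚ} {Ws : Finset (List ℕ)}
    {c : List ℕ → ℕ → ℝ} {a : (Fin N → ℕ) → (Fin N → ℕ) → ℝ} {t : Fin H' → List ℕ → Fin H → ℝ}
    (R : RelW q w B e wd Λ Λ' I φ ψ Ws c a t) :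
    ∃ Sg : Finset (Fin H × Λ), Sg.card + H' * Λ'.card = H * Λ.card ∧
      ∀ s : Fin H × Λ, ∃ (c₀ : Fin H × Λ → ℝ) (c : Fin N → Fin H × Λ → ℝ),
        (∀ s', c₀ s' ≠ 0 → s' ∈ Sg ∨ wg wd s'.2 < wg wd s.2) ∧
        (∀ i s', c i s' ≠ 0 → Adms (wd i) ∧ wg wd s'.2 < wg wd s.2) ∧
        ∀ T j : ℕ, j % q ∈ I → rwf q wd φ T s.1 s.2 j =
          ∑ s', c₀ s' * rwf q wd φ T s'.1 s'.2 j +
            ∑ i, ∑ s', c i s' * aw q T (wd i) j * rwf q wd φ T s'.1 s'.2 j := by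
  classical
  have hgr : ∀ (p : Fin H' × Λ') (s : Fin H × Λ), rvec wd Λ Ws e a t p.1 p.2 s ≠ 0 →
      wg wd s.2 = e + wg wd p.2 := by
    intro p s hne
    unfold rvec at hne
    obtain ⟨u, hu, hu0⟩ := Finset.exists_ne_zero_of_sum_ne_zero hne
    obtain ⟨hu1, hu2⟩ := mem_filter.1 hu
    obtain ⟨hadm, hsum⟩ := (R.hWs u).1 hu1
    have hmem : ixw wd u + (p.2 : Fin N → ℕ) ∈ expo N B := by
      rw [mem_expo]
      have h1 := ixw_expo R.hwd (u := u) hadm.1 hsum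
      have h2 := mem_expo.1 (R.hΛ'.sub p.2.2)
      have h3 := R.hB
      have h4 : ∑ i, (ixw wd u + (p.2 : Fin N → ℕ)) i = ∑ i, ixw wd u i + ∑ i, (p.2 : Fin N → ℕ) i := by
        rw [← Finset.sum_add_distrib]
        rfl
      rw [h4]
      omega
    have h5 := ((R.ha _ hmem).1 _ (right_ne_zero_of_mul hu0)).2
    rw [h5, wg_add, wg_ixw R.hwd hadm.1 hsum, hu2]
  obtain ⟨Sg, hcard, hS⟩ := greedyG (ι := Fin H × Λ) (κ := Fin H' × Λ') (fun s => wg wd s.2)
    (fun p => e + wg wd p.2) (fun p => rvec wd Λ Ws e a t p.1 p.2) (rvec_indep R) hgr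
  rw [Fintype.card_prod, Fintype.card_prod, Fintype.card_fin, Fintype.card_fin, Fintype.card_coe,
    Fintype.card_coe] at hcard
  refine ⟨Sg, hcard, fun s => ?_⟩
  obtain ⟨b, tt, hb, ht, hs⟩ := hS s
  choose c₀ c' h1 h2 h3 using fun p : Fin H' × Λ' => red_row R p.1 p.2.2
  refine ⟨fun s' => tt s' + ∑ p, b p * c₀ p s', fun i s' => ∑ p, b p * c' p i s', ?_, ?_, ?_⟩
  · intro s' hne
    by_cases h0 : tt s' = 0
    · right
      have hne : tt s' + ∑ p, b p * c₀ p s' ≠ 0 := hne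
      rw [h0, zero_add] at hne
      obtain ⟨p, -, hp⟩ := Finset.exists_ne_zero_of_sum_ne_zero hne
      exact (h1 p s' (right_ne_zero_of_mul hp)).trans_le (hb p (left_ne_zero_of_mul hp))
    · exact Or.inl (ht s' h0).1
  · intro i s' hne
    have hne : ∑ p, b p * c' p i s' ≠ 0 := hne
    obtain ⟨p, -, hp⟩ := Finset.exists_ne_zero_of_sum_ne_zero hne
    obtain ⟨h4, h5⟩ := h2 p i s' (right_ne_zero_of_mul hp)
    exact ⟨h4, h5.trans_le (hb p (left_ne_zero_of_mul hp))⟩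
  · intro T j hj
    have e1 : rwf q wd φ T s.1 s.2 j =
        ∑ s', (Pi.single s (1 : ℝ) : Fin H × Λ → ℝ) s' * rwf q wd φ T s'.1 s'.2 j := by
      rw [Finset.sum_eq_single s]
      · rw [Pi.single_eq_same, one_mul]
      · intro s' _ hne
        rw [Pi.single_eq_of_ne hne, zero_mul]
      · intro h
        exact absurd (Finset.mem_univ s) h
    have e2 : ∀ s' : Fin H × Λ, (Pi.single s (1 : ℝ) : Fin H × Λ → ℝ) s' * rwf q wd φ T s'.1 s'.2 j =
        ∑ p, b p * (rvec wd Λ Ws e a t p.1 p.2 s' * rwf q wd φ T s'.1 s'.2 j) +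
          tt s' * rwf q wd φ T s'.1 s'.2 j := by
      intro s'
      rw [hs, Pi.add_apply, Finset.sum_apply, add_mul, Finset.sum_mul]
      congr 1
      exact Finset.sum_congr rfl fun p _ => by rw [Pi.smul_apply, smul_eq_mul, mul_assoc]
    rw [e1, Finset.sum_congr rfl fun s' _ => e2 s', Finset.sum_add_distrib, Finset.sum_comm]
    have e3 : ∀ p : Fin H' × Λ',
        ∑ s', b p * (rvec wd Λ Ws e a t p.1 p.2 s' * rwf q wd φ T s'.1 s'.2 j) =
          ∑ s', b p * c₀ p s' * rwf q wd φ T s'.1 s'.2 j +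
            ∑ i, ∑ s', b p * c' p i s' * aw q T (wd i) j * rwf q wd φ T s'.1 s'.2 j := by
      intro p
      rw [← Finset.mul_sum, h3 p T j hj, mul_add, Finset.mul_sum, Finset.mul_sum]
      congr 1
      · exact Finset.sum_congr rfl fun s' _ => by ring
      · refine Finset.sum_congr rfl fun i _ => ?_
        rw [Finset.mul_sum]
        exact Finset.sum_congr rfl fun s' _ => by ring
    rw [Finset.sum_congr rfl fun p _ => e3 p, Finset.sum_add_distrib]
    have e4 : ∑ p, ∑ s', b p * c₀ p s' * rwf q wd φ T s'.1 s'.2 j =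
        ∑ s', (∑ p, b p * c₀ p s') * rwf q wd φ T s'.1 s'.2 j := by
      rw [Finset.sum_comm]
      exact Finset.sum_congr rfl fun s' _ => by rw [Finset.sum_mul]
    have e5 : ∑ p, ∑ i, ∑ s', b p * c' p i s' * aw q T (wd i) j * rwf q wd φ T s'.1 s'.2 j =
        ∑ i, ∑ s', (∑ p, b p * c' p i s') * aw q T (wd i) j * rwf q wd φ T s'.1 s'.2 j := by
      rw [Finset.sum_comm]
      refine Finset.sum_congr rfl fun i _ => ?_
      rw [Finset.sum_comm]
      refine Finset.sum_congr rfl fun s' _ => ?_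
      rw [Finset.sum_mul, Finset.sum_mul]
    rw [e4, e5]
    have e6 : ∑ s', (tt s' + ∑ p, b p * c₀ p s') * rwf q wd φ T s'.1 s'.2 j =
        ∑ s', tt s' * rwf q wd φ T s'.1 s'.2 j +
          ∑ s', (∑ p, b p * c₀ p s') * rwf q wd φ T s'.1 s'.2 j := by
      rw [← Finset.sum_add_distrib]
      exact Finset.sum_congr rfl fun s' _ => by rw [add_mul]
    rw [e6]
    ring

end WX
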