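import Pool.Agent.LibPX.X2
import Pool.Agent.LibWX.EXSG

/-!
# The data from real coefficients in `V` (assembly, helper5)
-/

namespace WX

open Finset Polynomial CM68

theorem mkWX {q w e N DD B b₀ Sp : ℕ} {ε : ℝ} (hq : 2 ≤ q) (hw : 1 ≤ w)
    {wd : Fin N → List ℕ} (hwd : IsWd w wd) {Λ Λ' : Finset (Fin N → ℕ)} (hB : 1 ≤ B)
    (hΛ : IsBs wd B Λ) (hΛ' : IsBs wd (B - 1) Λ')
    (V : Submodule ℚ ℝ) [Module.Finite ℚ V] (hD : Module.finrank ℚ V = DD + 1)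
    (Ws : Finset (List ℕ)) (hWs : ∀ u : List ℕ, u ∈ Ws ↔ Adms u ∧ u.sum ≤ w)
    (I₀ : Finset ℕ) (hne : I₀.Nonempty) (c : List ℕ → ℕ → ℝ)
    (hI : ∀ x ∈ I₀, 0 < x ∧ x < q) (he : 1 ≤ e)
    (hε : 0 < ε) (hSp : 2 * (b₀ + 1) ^ (Ws.card * (DD + 1)) ≤ Sp)
    (hb : ((b₀ : ℝ) + 1) ^ (Ws.card * (DD + 1)) < (1 + ε) ^ b₀)
    (hcV : ∀ x ∈ I₀, ∀ u ∈ Ws, c u x ∈ V)
    (hsup : ∀ x ∈ I₀, ∀ u ∈ Ws, c u x ≠ 0 → u.sum ≤ e)
    (hlead : ∀ x ∈ I₀, ∃ u ∈ Ws, u.sum = e ∧ c u x ≠ 0)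
    (hrel : ∀ x ∈ I₀, ∑ u ∈ Ws, c u x * sw q (x : ℝ) u = 0) :
    ∃ (D : DatW) (H' : ℕ), D.q = q ∧ D.w = w ∧ D.B = B ∧ D.Sp = Sp ∧ D.Λ.card = Λ.card ∧
      D.I ⊆ I₀ ∧ I₀.card ≤ 2 * D.I.card ∧ 1 ≤ H' ∧ (D.H : ℝ) ≤ (1 + ε) * H' ∧
      D.H ≤ (b₀ + 1) ^ (Ws.card * (DD + 1)) ∧
      D.Sg.card + H' * Λ'.card = D.H * Λ.card := by
  classical
  let b := Module.finBasisOfFinrankEq ℚ V hD
  let c' : List ℕ → ℕ → V := fun u x => if h : c u x ∈ V then ⟨c u x, h⟩ else 0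
  have hc' : ∀ x ∈ I₀, ∀ u ∈ Ws, ((c' u x : V) : ℝ) = c u x := by
    intro x hx u hu
    simp only [c', dif_pos (hcV x hx u hu)]
  have hsum : ∀ x ∈ I₀, ∀ u ∈ Ws,
      c u x = ∑ δ, ((b.repr (c' u x) δ : ℚ) : ℝ) * ((b δ : V) : ℝ) := by
    intro x hx u hu
    rw [← hc' x hx u hu]
    have h1 := congrArg (fun u : V => (u : ℝ)) (b.sum_repr (c' u x))
    simp only [Submodule.coe_sum, Submodule.coe_smul, Rat.smul_def] at h1
    exact h1.symm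
  have hcard : Fintype.card (Ws × Fin (DD + 1)) = Ws.card * (DD + 1) := by
    rw [Fintype.card_prod, Fintype.card_coe, Fintype.card_fin]
  obtain ⟨I, hII, hIc, H, H', φ, ψ, hH', hHH', hH, hspread, hψ, hmul⟩ :=
    hilb (κ := Ws × Fin (DD + 1)) (fun p x => b.repr (c' p.1.1 x) p.2) I₀ hne
      (b₀ := b₀) (Sp := Sp) hε (by rw [hcard]; exact hSp) (by rw [hcard]; exact hb)
  rw [hcard] at hH
  have hIne : I.Nonempty := by
    rw [← Finset.card_pos]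
    have := hne.card_pos
    omega
  -- the coefficients
  have ht : ∀ l : Fin H', ∀ u : List ℕ, ∃ t : Fin H → ℝ, u ∈ Ws → ∀ x ∈ I,
      (ψ l x : ℝ) * c u x = ∑ h, t h * (φ h x : ℝ) := by
    intro l u
    by_cases hu : u ∈ Ws
    · choose t ht using fun δ : Fin (DD + 1) => hmul l (⟨u, hu⟩, δ)
      refine ⟨fun h => ∑ δ, t δ h * ((b δ : V) : ℝ), fun _ x hx => ?_⟩
      rw [hsum x (hII hx) u hu, Finset.mul_sum]
      have h1 : ∀ δ, (ψ l x : ℝ) * (((b.repr (c' u x) δ : ℚ) : ℝ) * ((b δ : V) : ℝ)) =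
          ∑ h, t δ h * ((b δ : V) : ℝ) * (φ h x : ℝ) := by
        intro δ
        rw [← mul_assoc, ht δ x hx, Finset.sum_mul]
        exact Finset.sum_congr rfl fun h _ => by ring
      rw [Finset.sum_congr rfl fun δ _ => h1 δ, Finset.sum_comm]
      refine Finset.sum_congr rfl fun h _ => ?_
      rw [Finset.sum_mul]
    · exact ⟨0, fun h => absurd h hu⟩
  choose t ht using ht
  have ha : ∀ β : Fin N → ℕ, ∃ a : (Fin N → ℕ) → ℝ, β ∈ expo N B →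
      (∀ α, a α ≠ 0 → α ∈ Λ ∧ wg wd α = wg wd β) ∧
      ∀ (t : ℕ → ℝ) (n : ℕ), qm wd t n β = ∑ α ∈ Λ, a α * qm wd t n α := by
    intro β
    by_cases hβ : β ∈ expo N B
    · obtain ⟨a, h1, h2⟩ := hΛ.span β hβ
      exact ⟨a, fun _ => ⟨h1, h2⟩⟩
    · exact ⟨0, fun h => absurd h hβ⟩
  choose a ha using ha
  have R : RelW q w B e wd Λ Λ' I φ ψ Ws c a t :=
    { hq := hq, hB := hB, he := he, hwd := hwd, hΛ := hΛ, hΛ' := hΛ',
      hI := fun x hx => hI x (hII hx), hWs := hWs, hψ := hψ,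
      hmul := fun l u hu x hx => ht l u hu x hx, ha := ha,
      hsup := fun x hx => hsup x (hII hx), hlead := fun x hx => hlead x (hII hx),
      hrel := fun x hx => hrel x (hII hx) }
  obtain ⟨Sg, hSg, hgood⟩ := exists_Sg R
  exact ⟨{ q := q, w := w, N := N, B := B, H := H, Sp := Sp, wd := wd, Λ := Λ, I := I, φ := φ,
           Sg := Sg, hq := hq, hw := hw, hB := hB, hwd := hwd, hΛ := hΛ,
           hI := fun x hx => hI x (hII hx), hIne := hIne, hspread := hspread, hgood := hgood },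
    H', rfl, rfl, rfl, rfl, rfl, hII, hIc, hH', hHH', hH, hSg⟩

end WX
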