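import Pool.Agent.LibWX.WBase

/-!
# Row W6: bases of the spaces of polynomials in the words, and slow growth (MEDIUM; only Mathlib and the definitions)

Functions `fn α : (ℕ → ℝ) × ℕ → ℝ`, `fn α (t, n) = qm wd t n α`.
`exists_bs`: a maximal independent subset of `{fn α | α ∈ expo N B}` which spans (`exists_linearIndependent'`, or `Submodule.exists_fun_fin_finrank_span_eq`-like; or by induction on a finset:
for every finset `S` of exponents there is `Λ ⊆ S` independent such that every `fn β`, `β ∈ S`, is in the span of the `fn α`, `α ∈ Λ`).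
WEIGHTS: let `fn β = ∑_{α ∈ Λ} a α fn α` (`a = 0` outside `Λ`).  Scaling: `qs (fun m => r * t m) v n = r^(v.sum) * qs t v n`, so `qm (r t) n α = r^(wg α) qm t n α`.  For fixed `t, n` the polynomial
`r^(wg β) qm β - ∑ a α qm α r^(wg α)` in `r` is zero for all real `r`, hence (coefficients; e.g. `Polynomial.funext`) `∑_{α ∈ Λ, wg α = k} a α qm t n α = 0` for all `k ≠ wg β`, for all `t, n`:
`ind` gives `a α = 0` for `wg α ≠ wg β`.
`exists_growth`: choose `Λ_B` for all `B`, `c B = (Λ_B).card ≤ (expo N B).card ≤ (B + 1)^N` (`card_expo_le`, LibCM2/C1), `c B ≥ 1` (`fn 0 = 1 ≠ 0` is in the span, so `Λ_B ≠ ∅`); if always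
`c B > (1 + ε) c (B - 1)` for `1 ≤ B ≤ B₀`, then `(1 + ε)^B₀ ≤ c B₀` (induction): contradiction with `hb`.
-/

namespace WX

open Finset CM68

private theorem w6_basis {ι : Type*} [DecidableEq ι] {X : Type*} (f : ι → X → ℝ) (S : Finset ι) :
    ∃ Λ ⊆ S, (∀ a : ι → ℝ, (∀ x, ∑ α ∈ Λ, a α * f α x = 0) → ∀ α ∈ Λ, a α = 0) ∧
      ∀ β ∈ S, ∃ a : ι → ℝ, (∀ α, a α ≠ 0 → α ∈ Λ) ∧ ∀ x, f β x = ∑ α ∈ Λ, a α * f α x := by
  induction S using Finset.induction_on with
  | empty => exact ⟨∅, subset_rfl, by simp, by simp⟩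
  | insert b S hb ih =>
    obtain ⟨Λ, hΛ, hind, hsp⟩ := ih
    by_cases h : ∃ a : ι → ℝ, (∀ α, a α ≠ 0 → α ∈ Λ) ∧ ∀ x, f b x = ∑ α ∈ Λ, a α * f α x
    · refine ⟨Λ, hΛ.trans (Finset.subset_insert _ _), hind, ?_⟩
      intro β hβ
      rcases Finset.mem_insert.1 hβ with rfl | hβ
      · exact h
      · exact hsp β hβ
    · have hbΛ : b ∉ Λ := fun h1 => hb (hΛ h1)
      refine ⟨insert b Λ, Finset.insert_subset_insert _ hΛ, ?_, ?_⟩
      · intro a ha
        have hab : a b = 0 := by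
          by_contra hne
          refine h ⟨fun α => if α ∈ Λ then -(a α / a b) else 0, ?_, ?_⟩
          · intro α hα
            by_contra hh
            exact hα (if_neg hh)
          · intro x
            have h1 := ha x
            rw [Finset.sum_insert hbΛ] at h1
            have h2 : ∑ α ∈ Λ, (if α ∈ Λ then -(a α / a b) else 0) * f α x =
                -(∑ α ∈ Λ, a α * f α x) / a b := by
              rw [neg_div, Finset.sum_div, ← Finset.sum_neg_distrib]
              refine Finset.sum_congr rfl fun α hα => ?_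
              rw [if_pos hα]
              ring
            rw [h2, eq_div_iff hne]
            linarith
        intro α hα
        rcases Finset.mem_insert.1 hα with rfl | hα
        · exact hab
        · refine hind a (fun x => ?_) α hα
          have h1 := ha x
          rw [Finset.sum_insert hbΛ, hab, zero_mul, zero_add] at h1
          exact h1
      · intro β hβ
        rcases Finset.mem_insert.1 hβ with rfl | hβ
        · refine ⟨fun α => if α = β then 1 else 0, ?_, ?_⟩
          · intro α hα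
            by_contra hh
            refine hα (if_neg fun h1 => hh ?_)
            rw [h1]
            exact Finset.mem_insert_self _ _
          · intro x
            have h0 : ∑ α ∈ Λ, (if α = β then (1 : ℝ) else 0) * f α x = 0 := by
              refine Finset.sum_eq_zero fun α hα => ?_
              have hne : α ≠ β := fun h1 => hbΛ (h1 ▸ hα)
              rw [if_neg hne, zero_mul]
            rw [Finset.sum_insert hbΛ]
            simp only [if_pos]
            rw [h0, one_mul, add_zero]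
        · obtain ⟨a, ha1, ha2⟩ := hsp β hβ
          refine ⟨a, fun α hα => Finset.mem_insert_of_mem (ha1 α hα), fun x => ?_⟩
          have h0 : a b = 0 := by
            by_contra hh
            exact hbΛ (ha1 b hh)
          rw [Finset.sum_insert hbΛ, h0, zero_mul, zero_add]
          exact ha2 x

private theorem w6_qs (r : ℝ) (t : ℕ → ℝ) (v : List ℕ) (n : ℕ) :
    qs (fun m => r * t m) v n = r ^ v.sum * qs t v n := by
  induction v generalizing n with
  | nil => simp [qs]
  | cons k v ih =>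
    simp only [qs, List.sum_cons]
    rw [Finset.mul_sum]
    refine Finset.sum_congr rfl fun m _ => ?_
    rw [ih m, mul_pow, pow_add]
    ring

private theorem w6_qm {N : ℕ} (wd : Fin N → List ℕ) (r : ℝ) (t : ℕ → ℝ) (n : ℕ)
    (α : Fin N → ℕ) : qm wd (fun m => r * t m) n α = r ^ wg wd α * qm wd t n α := by
  unfold qm wg
  rw [← Finset.prod_pow_eq_pow_sum, ← Finset.prod_mul_distrib]
  refine Finset.prod_congr rfl fun i _ => ?_
  rw [w6_qs, mul_pow, ← pow_mul, Nat.mul_comm]

private theorem w6_weight {N : ℕ} (wd : Fin N → List ℕ) (Λ : Finset (Fin N → ℕ))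
    (hind : ∀ a : (Fin N → ℕ) → ℝ, (∀ (t : ℕ → ℝ) (n : ℕ), ∑ α ∈ Λ, a α * qm wd t n α = 0) →
      ∀ α ∈ Λ, a α = 0) (β : Fin N → ℕ) (a : (Fin N → ℕ) → ℝ)
    (ha : ∀ (t : ℕ → ℝ) (n : ℕ), qm wd t n β = ∑ α ∈ Λ, a α * qm wd t n α)
    (α : Fin N → ℕ) (hα : α ∈ Λ) (hw : wg wd α ≠ wg wd β) : a α = 0 := by
  have key := hind (fun γ => if wg wd γ = wg wd α then a γ else 0) (fun t n => by
    have hp : (Polynomial.C (qm wd t n β) * Polynomial.X ^ wg wd β : Polynomial ℝ) =
        ∑ γ ∈ Λ, Polynomial.C (a γ * qm wd t n γ) * Polynomial.X ^ wg wd γ := by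
      refine Polynomial.funext fun r => ?_
      have h1 := ha (fun m => r * t m) n
      rw [w6_qm] at h1
      rw [Polynomial.eval_finsetSum]
      simp only [Polynomial.eval_mul, Polynomial.eval_C, Polynomial.eval_pow, Polynomial.eval_X]
      rw [mul_comm, h1]
      refine Finset.sum_congr rfl fun γ _ => ?_
      rw [w6_qm]
      ring
    have h2 := congrArg (fun p => Polynomial.coeff p (wg wd α)) hp
    simp only [Polynomial.finsetSum_coeff, Polynomial.coeff_C_mul_X_pow] at h2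
    rw [if_neg hw] at h2
    refine Eq.trans ?_ h2.symm
    refine Finset.sum_congr rfl fun γ _ => ?_
    by_cases h3 : wg wd γ = wg wd α
    · rw [if_pos h3, if_pos h3.symm]
    · rw [if_neg h3, if_neg (fun h4 => h3 h4.symm), zero_mul]) α hα
  simpa using key

theorem exists_bs {N : ℕ} (wd : Fin N → List ℕ) (B : ℕ) : ∃ Λ, IsBs wd B Λ := by
  obtain ⟨Λ, hΛ, hind, hsp⟩ := w6_basis
    (fun (α : Fin N → ℕ) (x : (ℕ → ℝ) × ℕ) => qm wd x.1 x.2 α) (expo N B)
  have hind' : ∀ a : (Fin N → ℕ) → ℝ,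
      (∀ (t : ℕ → ℝ) (n : ℕ), ∑ α ∈ Λ, a α * qm wd t n α = 0) → ∀ α ∈ Λ, a α = 0 :=
    fun a ha => hind a fun x => ha x.1 x.2
  refine ⟨Λ, hΛ, hind', ?_⟩
  intro β hβ
  obtain ⟨a, ha1, ha2⟩ := hsp β hβ
  have ha2' : ∀ (t : ℕ → ℝ) (n : ℕ), qm wd t n β = ∑ α ∈ Λ, a α * qm wd t n α :=
    fun t n => ha2 (t, n)
  refine ⟨a, ?_, ha2'⟩
  intro α hα
  refine ⟨ha1 α hα, ?_⟩
  by_contra hw
  exact hα (w6_weight wd Λ hind' β a ha2' α (ha1 α hα) hw)

theorem exists_growth {N : ℕ} (wd : Fin N → List ℕ) {B₀ : ℕ} {ε : ℝ} (hε : 0 < ε)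
    (hb : ((B₀ : ℝ) + 1) ^ N < (1 + ε) ^ B₀) :
    ∃ B, 1 ≤ B ∧ B ≤ B₀ ∧ ∃ Λ Λ' : Finset (Fin N → ℕ), IsBs wd B Λ ∧ IsBs wd (B - 1) Λ' ∧
      1 ≤ Λ'.card ∧ (Λ.card : ℝ) ≤ (1 + ε) * Λ'.card := by
  choose Λ hΛ using fun B => exists_bs wd B
  have hc1 : ∀ B, 1 ≤ (Λ B).card := by
    intro B
    by_contra hcon
    have h0 : Λ B = ∅ := by
      rw [← Finset.card_eq_zero]
      omega
    have hmem : (0 : Fin N → ℕ) ∈ expo N B := by
      rw [mem_expo]
      simp
    obtain ⟨a, _, ha⟩ := (hΛ B).span 0 hmem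
    have h1 := ha (fun _ => 0) 0
    rw [qm_zero, h0, Finset.sum_empty] at h1
    exact one_ne_zero h1
  by_contra hcon
  have hstep : ∀ B, 1 ≤ B → B ≤ B₀ → (1 + ε) * ((Λ (B - 1)).card : ℝ) < ((Λ B).card : ℝ) := by
    intro B h1 h2
    by_contra h3
    exact hcon ⟨B, h1, h2, Λ B, Λ (B - 1), hΛ B, hΛ (B - 1), hc1 _, not_lt.1 h3⟩
  have hpow : ∀ B, B ≤ B₀ → (1 + ε) ^ B ≤ ((Λ B).card : ℝ) := by
    intro B
    induction B with
    | zero =>
      intro _
      rw [pow_zero]
      exact_mod_cast hc1 0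
    | succ B ih =>
      intro hB
      have h1 := hstep (B + 1) (by omega) hB
      rw [Nat.add_sub_cancel] at h1
      have h2 := ih (by omega)
      calc (1 + ε) ^ (B + 1) = (1 + ε) * (1 + ε) ^ B := by ring
        _ ≤ (1 + ε) * ((Λ B).card : ℝ) := mul_le_mul_of_nonneg_left h2 (by linarith)
        _ ≤ ((Λ (B + 1)).card : ℝ) := h1.le
  have h1 := hpow B₀ le_rfl
  have h2 : ((Λ B₀).card : ℝ) ≤ ((B₀ : ℝ) + 1) ^ N := by
    have h3 : (Λ B₀).card ≤ (B₀ + 1) ^ N :=
      (Finset.card_le_card (hΛ B₀).sub).trans (card_expo_le N B₀)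
    exact_mod_cast h3
  linarith

end WX
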