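import Pool.Agent.LibWX.WDefs

/-!
# Row W0: the words (SHORT/MEDIUM; only Mathlib and the definitions)

`F m` = the lists of positive numbers with sum `m`, at most `2^(m-1)` for `m ≥ 1`: copy `WMW_inc`, `WMW_F`, `WMW_mem`, `WMW_card` (private) from LibMH/WMW.lean.
The union `S` of the `F m`, `1 ≤ m ≤ M` (`biUnion`), has at most `∑ 2^(m-1) = 2^M - 1` elements, at least one (`[1]`); `wd` = an enumeration (`Finset.equivFin`).
-/

namespace WX

open Finset

private def W0_inc : List ℕ → List ℕ
  | [] => []
  | k :: v => (k + 1) :: v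

private def W0_S : ℕ → Finset (List ℕ)
  | 0 => {[]}
  | M + 1 => (W0_S M).image (fun v => 1 :: v) ∪ (W0_S M).image W0_inc

private theorem W0_card (M : ℕ) : (W0_S M).card ≤ 2 ^ M := by
  induction M with
  | zero => simp [W0_S]
  | succ M ih =>
    calc (W0_S (M + 1)).card
        ≤ ((W0_S M).image (fun v => 1 :: v)).card + ((W0_S M).image W0_inc).card :=
          Finset.card_union_le _ _
      _ ≤ (W0_S M).card + (W0_S M).card := Nat.add_le_add Finset.card_image_le Finset.card_image_le
      _ ≤ 2 ^ (M + 1) := by rw [pow_succ]; omega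

private theorem W0_mem (M : ℕ) (v : List ℕ) : v ∈ W0_S M ↔ Pos v ∧ v.sum ≤ M := by
  induction M generalizing v with
  | zero =>
    simp only [W0_S, Finset.mem_singleton]
    constructor
    · rintro rfl
      exact ⟨fun k hk => by simp at hk, by simp⟩
    · rintro ⟨h1, h2⟩
      cases v with
      | nil => rfl
      | cons k u =>
        have := h1 k (by simp)
        simp at h2
        omega
  | succ M ih =>
    simp only [W0_S, Finset.mem_union, Finset.mem_image]
    constructor
    · rintro (⟨u, hu, rfl⟩ | ⟨u, hu, rfl⟩)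
      · obtain ⟨h1, h2⟩ := (ih u).1 hu
        refine ⟨?_, ?_⟩
        · intro k hk
          rcases List.mem_cons.1 hk with rfl | hk
          · exact le_rfl
          · exact h1 k hk
        · simp only [List.sum_cons]; omega
      · obtain ⟨h1, h2⟩ := (ih u).1 hu
        cases u with
        | nil => exact ⟨fun k hk => by simp [W0_inc] at hk, by simp [W0_inc]⟩
        | cons k u =>
          refine ⟨?_, ?_⟩
          · intro l hl
            simp only [W0_inc] at hl
            rcases List.mem_cons.1 hl with rfl | hl
            · omega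
            · exact h1 l (List.mem_cons_of_mem _ hl)
          · simp only [W0_inc, List.sum_cons] at h2 ⊢; omega
    · rintro ⟨h1, h2⟩
      cases v with
      | nil =>
        refine Or.inr ⟨[], (ih []).2 ⟨fun k hk => by simp at hk, by simp⟩, rfl⟩
      | cons k u =>
        have hk := h1 k (by simp)
        have hu : Pos u := fun l hl => h1 l (List.mem_cons_of_mem _ hl)
        simp only [List.sum_cons] at h2
        rcases Nat.lt_or_ge 1 k with h | h
        · refine Or.inr ⟨(k - 1) :: u, (ih _).2 ⟨?_, ?_⟩, ?_⟩
          · intro l hl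
            rcases List.mem_cons.1 hl with rfl | hl
            · omega
            · exact hu l hl
          · simp only [List.sum_cons]; omega
          · simp only [W0_inc]
            congr 1
            omega
        · have : k = 1 := by omega
          subst this
          exact Or.inl ⟨u, (ih u).2 ⟨hu, by omega⟩, rfl⟩

theorem exists_wd {M : ℕ} (hM : 1 ≤ M) :
    ∃ (N : ℕ) (wd : Fin N → List ℕ), 1 ≤ N ∧ N + 1 ≤ 2 ^ M ∧ IsWd M wd := by
  classical
  have h0 : ([] : List ℕ) ∈ W0_S M := (W0_mem M []).2 ⟨fun k hk => by simp at hk, by simp⟩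
  have h1 : ([1] : List ℕ) ∈ (W0_S M).erase [] := by
    refine Finset.mem_erase.2 ⟨by simp, (W0_mem M [1]).2 ⟨?_, by simpa using hM⟩⟩
    intro k hk
    simp at hk
    omega
  have hc : ((W0_S M).erase []).card + 1 = (W0_S M).card := Finset.card_erase_add_one h0
  let e := ((W0_S M).erase []).equivFin
  refine ⟨((W0_S M).erase []).card, fun i => (e.symm i : List ℕ), Finset.card_pos.2 ⟨_, h1⟩,
    hc ▸ W0_card M, ⟨?_, ?_⟩⟩
  · intro i j hij
    exact e.symm.injective (Subtype.ext hij)
  · intro v
    constructor
    · rintro ⟨i, rfl⟩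
      have h := (e.symm i).2
      rw [Finset.mem_erase] at h
      exact ⟨h.1, (W0_mem M _).1 h.2⟩
    · rintro ⟨hne, hp⟩
      have hv : v ∈ (W0_S M).erase [] := Finset.mem_erase.2 ⟨hne, (W0_mem M v).2 hp⟩
      refine ⟨e ⟨v, hv⟩, ?_⟩
      simp

end WX
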