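import Pool.Agent.LibCM68.D0
import Pool.Agent.LibWX.W11
import Pool.Agent.LibWX.W12
import Pool.Agent.LibWX.W13

/-!
# Row W14: all rows are small modulo those of the first type (MEDIUM; template LibPX/X6.lean, simpler: no multiplier)

`spanW`: as `spanX` in LibPX/X6.lean (`exists_choose`).
`rows_smallW`: `Γ` from `combW`, `K`, `ec` from `Av_polyW` with `m₀ = W`; with `Ψ` the polynomial of `j.choose i` (`choose_poly`), `m = d - i ≥ 1`, `G μ` from `Av_polyW`: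
`v' j = ∑_{s'} ∑_μ Γ s s' μ * row s' j * (j.choose i) * (A^μ(j) - G μ (j))`; the difference with `rowc s i` is `- ∑ Γ row s' j (G μ * Ψ)(j)`, `natDegree (G μ * Ψ) < m + i = d` (`spanW`, `s' ∈ Sg`).
For the `μ` with `Γ s s' μ = 0` take `G μ = 0`.  Size: `row_leW` (`Bd` = `1 + ` the sum of the `|φ h x|`, `x < q`), `(m + 1)^ec ≤ (d + 1)^ec`.  `Kx = 1 + Bd * (∑ s, ∑ s', ∑ μ |Γ s s' μ|) * K`.
Nodes: `j < q n`, `j % q ∈ I` (`P`).
-/

namespace WX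

open Finset Polynomial CM68

theorem spanW (D : DatW) {n T d : ℕ} {p : ℝ[X]} (hp : p.natDegree < d)
    {s : D.Ix} (hs : s ∈ D.Sg) :
    (fun j : D.Nd n => D.row T s (j : ℕ) * p.eval ((j : ℕ) : ℝ)) ∈ D.rsp n T d := by
  obtain ⟨a, ha⟩ := exists_choose hp
  have h1 : (fun j : D.Nd n => D.row T s (j : ℕ) * p.eval ((j : ℕ) : ℝ)) =
      ∑ k : Fin d, a k • fun j : D.Nd n => D.rowc T s k (j : ℕ) := by
    funext j
    rw [Finset.sum_apply, ha, Finset.mul_sum]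
    refine Finset.sum_congr rfl fun k _ => ?_
    rw [Pi.smul_apply, smul_eq_mul]
    unfold DatW.rowc
    ring
  rw [h1]
  exact Submodule.sum_mem _ fun k _ => Submodule.smul_mem _ _
    (Submodule.subset_span ⟨(⟨s, hs⟩, k), rfl⟩)

theorem rows_smallW (D : DatW) : ∃ (Kx : ℝ) (ec : ℕ), 1 ≤ Kx ∧
    ∀ n r d i : ℕ, 1 ≤ n → 1 ≤ r → i < d → ∀ s : D.Ix,
    ∃ v' : D.Nd n → ℝ, (v' - fun j : D.Nd n => D.rowc (r * n) s i j) ∈ D.rsp n (r * n) d ∧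
      ∀ j : D.Nd n, |v' j| ≤
        Kx * ((win n (r * n) : ℝ) ^ D.W * ((d : ℝ) + 1) ^ ec) *
          (1 / (2 * (r : ℝ) + 1)) ^ (d - i) * ((j : ℕ).choose i : ℝ) := by
  classical
  obtain ⟨Γ, hΓ, hcomb⟩ := combW D
  obtain ⟨K, ec, hK1, hK⟩ := Av_polyW (q := D.q) (le_trans one_le_two D.hq) D.hwd D.W
  obtain ⟨Bd, hBd⟩ : ∃ Bd : ℝ, Bd = ∑ h : Fin D.H, ∑ x ∈ range D.q, |(D.φ h x : ℝ)| := ⟨_, rfl⟩
  have hBd' : ∀ h, ∀ x < D.q, |(D.φ h x : ℝ)| ≤ Bd := by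
    intro h x hx
    rw [hBd]
    refine (Finset.single_le_sum (f := fun x => |(D.φ h x : ℝ)|) (fun _ _ => abs_nonneg _)
      (mem_range.2 hx)).trans ?_
    exact Finset.single_le_sum (f := fun h => ∑ x ∈ range D.q, |(D.φ h x : ℝ)|)
      (fun _ _ => Finset.sum_nonneg fun _ _ => abs_nonneg _) (mem_univ h)
  have hBd0 : 0 ≤ Bd := by
    rw [hBd]
    exact Finset.sum_nonneg fun _ _ => Finset.sum_nonneg fun _ _ => abs_nonneg _
  obtain ⟨Gs, hGs⟩ : ∃ Gs : ℝ, Gs = ∑ s : D.Ix, ∑ s' : D.Ix, ∑ μ ∈ expo D.N D.W, |Γ s s' μ| :=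
    ⟨_, rfl⟩
  have hGs' : ∀ s : D.Ix, ∑ s' : D.Ix, ∑ μ ∈ expo D.N D.W, |Γ s s' μ| ≤ Gs := by
    intro s
    rw [hGs]
    exact Finset.single_le_sum (f := fun s => ∑ s' : D.Ix, ∑ μ ∈ expo D.N D.W, |Γ s s' μ|)
      (fun _ _ => Finset.sum_nonneg fun _ _ => Finset.sum_nonneg fun _ _ => abs_nonneg _)
      (mem_univ s)
  have hGs0 : 0 ≤ Gs := by
    rw [hGs]
    exact Finset.sum_nonneg fun _ _ => Finset.sum_nonneg fun _ _ =>
      Finset.sum_nonneg fun _ _ => abs_nonneg _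
  have hK0 : 0 ≤ K := le_trans zero_le_one hK1
  obtain ⟨Kx, hKx⟩ : ∃ Kx : ℝ, Kx = Bd * Gs * K := ⟨_, rfl⟩
  have hKx0 : 0 ≤ Kx := by
    rw [hKx]
    positivity
  refine ⟨1 + Kx, ec, by linarith, ?_⟩
  intro n r d i hn hr hi s
  obtain ⟨Ψ, hΨ, hΨ'⟩ := choose_poly i
  obtain ⟨m, hm⟩ : ∃ m, m = d - i := ⟨_, rfl⟩
  have hm1 : 1 ≤ m := by omega
  have hNd : ∀ j : D.Nd n, (j : ℕ) < D.q * n ∧ (j : ℕ) % D.q ∈ D.I := by
    intro j
    have h1 := Finset.mem_filter.1 (show (j : ℕ) ∈ (range (D.q * n)).filter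
      fun j => j % D.q ∈ D.I from j.2)
    exact ⟨Finset.mem_range.1 h1.1, h1.2⟩
  have hP : ∀ (s' : D.Ix) (μ : Fin D.N → ℕ), ∃ G : ℝ[X],
      (μ ∈ expo D.N D.W → Γ s s' μ ≠ 0 → G.natDegree < m ∧
      ∀ j : ℕ, j < D.q * n →
        |(∏ i, aw D.q (r * n) (D.wd i) j ^ μ i) - G.eval (j : ℝ)| ≤
          K * ((m : ℝ) + 1) ^ ec * (1 / (2 * (r : ℝ) + 1)) ^ m) := by
    intro s' μ
    by_cases hμ : μ ∈ expo D.N D.W ∧ Γ s s' μ ≠ 0
    · obtain ⟨G, h1, h2⟩ := hK n r m hn hr hm1 μ (mem_expo.1 hμ.1) (hΓ s s' μ hμ.2).2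
      exact ⟨G, fun _ _ => ⟨h1, h2⟩⟩
    · exact ⟨0, fun h h' => absurd ⟨h, h'⟩ hμ⟩
  choose G hGp using hP
  refine ⟨fun j => ∑ s' : D.Ix, ∑ μ ∈ expo D.N D.W, Γ s s' μ * (D.row (r * n) s' (j : ℕ) *
    (((j : ℕ).choose i : ℝ) * ((∏ i, aw D.q (r * n) (D.wd i) (j : ℕ) ^ μ i) -
      (G s' μ).eval ((j : ℕ) : ℝ)))), ?_, ?_⟩
  · have h1 : ((fun j : D.Nd n => ∑ s' : D.Ix, ∑ μ ∈ expo D.N D.W,
        Γ s s' μ * (D.row (r * n) s' (j : ℕ) *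
        (((j : ℕ).choose i : ℝ) * ((∏ i, aw D.q (r * n) (D.wd i) (j : ℕ) ^ μ i) -
          (G s' μ).eval ((j : ℕ) : ℝ))))) -
        fun j : D.Nd n => D.rowc (r * n) s i j) =
        ∑ s' : D.Ix, ∑ μ ∈ expo D.N D.W, (-Γ s s' μ) • fun j : D.Nd n =>
          D.row (r * n) s' (j : ℕ) * (G s' μ * Ψ).eval ((j : ℕ) : ℝ) := by
      funext j
      rw [Pi.sub_apply, Finset.sum_apply]
      show ∑ s' : D.Ix, ∑ μ ∈ expo D.N D.W, Γ s s' μ * (D.row (r * n) s' (j : ℕ) *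
        (((j : ℕ).choose i : ℝ) * ((∏ i, aw D.q (r * n) (D.wd i) (j : ℕ) ^ μ i) -
          (G s' μ).eval ((j : ℕ) : ℝ)))) - D.rowc (r * n) s i j = _
      unfold DatW.rowc
      rw [hcomb (r * n) s (j : ℕ) (hNd j).2, Finset.sum_mul, ← Finset.sum_sub_distrib]
      refine Finset.sum_congr rfl fun s' _ => ?_
      rw [Finset.sum_mul, ← Finset.sum_sub_distrib, Finset.sum_apply]
      refine Finset.sum_congr rfl fun μ _ => ?_
      rw [Pi.smul_apply, smul_eq_mul, eval_mul, hΨ']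
      ring
    rw [h1]
    refine Submodule.sum_mem _ fun s' _ => Submodule.sum_mem _ fun μ hμ => ?_
    by_cases h0 : Γ s s' μ = 0
    · rw [h0, neg_zero, zero_smul]
      exact Submodule.zero_mem _
    · refine Submodule.smul_mem _ _ (spanW D ?_ (hΓ s s' μ h0).1)
      have h2 := (hGp s' μ hμ h0).1
      have h3 : (G s' μ * Ψ).natDegree ≤ (G s' μ).natDegree + Ψ.natDegree := natDegree_mul_le
      omega
  · intro j
    obtain ⟨Bw, hBw⟩ : ∃ Bw : ℝ, Bw = Bd * (win n (r * n) : ℝ) ^ D.W := ⟨_, rfl⟩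
    have hrow : ∀ s' : D.Ix, |D.row (r * n) s' (j : ℕ)| ≤ Bw := by
      intro s'
      rw [hBw]
      exact row_leW D hBd' j.2 s'
    have hBw0 : 0 ≤ Bw := by
      rw [hBw]
      positivity
    have hρ : 0 ≤ (1 / (2 * (r : ℝ) + 1)) ^ m := by positivity
    obtain ⟨Ed, hEd⟩ : ∃ Ed : ℝ, Ed =
        K * ((d : ℝ) + 1) ^ ec * (1 / (2 * (r : ℝ) + 1)) ^ m := ⟨_, rfl⟩
    have hEd0 : 0 ≤ Ed := by
      rw [hEd]
      positivity
    have hAG : ∀ (s' : D.Ix), ∀ μ ∈ expo D.N D.W, Γ s s' μ ≠ 0 →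
        |(∏ i, aw D.q (r * n) (D.wd i) (j : ℕ) ^ μ i) - (G s' μ).eval ((j : ℕ) : ℝ)| ≤ Ed := by
      intro s' μ hμ h0
      refine ((hGp s' μ hμ h0).2 (j : ℕ) (hNd j).1).trans ?_
      rw [hEd]
      have hmd : (m : ℝ) ≤ d := by
        have : m ≤ d := by omega
        exact_mod_cast this
      have h4 : ((m : ℝ) + 1) ^ ec ≤ ((d : ℝ) + 1) ^ ec :=
        pow_le_pow_left₀ (by positivity) (by linarith) _
      exact mul_le_mul_of_nonneg_right (mul_le_mul_of_nonneg_left h4 hK0) hρ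
    have hC0 : (0 : ℝ) ≤ ((j : ℕ).choose i : ℝ) := Nat.cast_nonneg _
    obtain ⟨X, hX⟩ : ∃ X : ℝ, X = Bw * (((j : ℕ).choose i : ℝ) * Ed) := ⟨_, rfl⟩
    have hX0 : 0 ≤ X := by
      rw [hX]
      positivity
    have hterm : ∀ s' : D.Ix, ∀ μ ∈ expo D.N D.W, |Γ s s' μ * (D.row (r * n) s' (j : ℕ) *
        (((j : ℕ).choose i : ℝ) * ((∏ i, aw D.q (r * n) (D.wd i) (j : ℕ) ^ μ i) -
          (G s' μ).eval ((j : ℕ) : ℝ))))| ≤ |Γ s s' μ| * X := by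
      intro s' μ hμ
      by_cases h0 : Γ s s' μ = 0
      · rw [h0, zero_mul, abs_zero, zero_mul]
      · rw [abs_mul, abs_mul (D.row (r * n) s' (j : ℕ)), abs_mul ((j : ℕ).choose i : ℝ),
          Nat.abs_cast, hX]
        refine mul_le_mul_of_nonneg_left ?_ (abs_nonneg _)
        exact mul_le_mul (hrow s') (mul_le_mul_of_nonneg_left (hAG s' μ hμ h0) hC0)
          (by positivity) hBw0
    show |∑ s' : D.Ix, ∑ μ ∈ expo D.N D.W, Γ s s' μ * (D.row (r * n) s' (j : ℕ) *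
      (((j : ℕ).choose i : ℝ) * ((∏ i, aw D.q (r * n) (D.wd i) (j : ℕ) ^ μ i) -
        (G s' μ).eval ((j : ℕ) : ℝ))))| ≤ _
    have hsum : |∑ s' : D.Ix, ∑ μ ∈ expo D.N D.W, Γ s s' μ * (D.row (r * n) s' (j : ℕ) *
        (((j : ℕ).choose i : ℝ) * ((∏ i, aw D.q (r * n) (D.wd i) (j : ℕ) ^ μ i) -
          (G s' μ).eval ((j : ℕ) : ℝ))))| ≤ Gs * X := by
      refine (Finset.abs_sum_le_sum_abs _ _).trans ?_
      refine (Finset.sum_le_sum fun s' _ => (Finset.abs_sum_le_sum_abs _ _).trans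
        (Finset.sum_le_sum (hterm s'))).trans ?_
      refine le_trans (le_of_eq ?_) (mul_le_mul_of_nonneg_right (hGs' s) hX0)
      rw [Finset.sum_mul]
      exact Finset.sum_congr rfl fun s' _ => (Finset.sum_mul _ _ _).symm
    refine hsum.trans ?_
    have hfin : Gs * X = Kx * ((win n (r * n) : ℝ) ^ D.W * ((d : ℝ) + 1) ^ ec) *
        (1 / (2 * (r : ℝ) + 1)) ^ m * ((j : ℕ).choose i : ℝ) := by
      rw [hX, hEd, hBw, hKx]
      ring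
    rw [hfin, ← hm]
    refine mul_le_mul_of_nonneg_right (mul_le_mul_of_nonneg_right
      (mul_le_mul_of_nonneg_right (by linarith) (by positivity)) hρ) hC0

end WX
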