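import Mathlib

/-!
# Row PAW: the final bound (SHORT/MEDIUM, natural numbers, ONLY MATHLIB; template LibPX/PA4.lean)

`y = 26 lam^2 KK`.  `b₀ + 1 = (26 lam^2 K)^2 ≤ y^2`, `B + 1 ≤ (26 lam^2 N)^2 ≤ y^2` (natural subtraction: the squares are `≥ 1`).  The left hand side is at most
`2 * 2 (y^2)^K * ((y^2)^K * (y^2)^N) * (640 lam (w y^2)) = 2560 lam w * y^(4 K + 2 N + 2)`; `2560 lam w ≤ 2560 lam KK ≤ 676 lam^4 KK^2 = y^2` (`lam ≥ 3`), and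
`4 K + 2 N + 4 ≤ 2 KK + 2 (KK - 1) + 4 = 4 KK + 2 ≤ 6 KK + 2`.
-/

namespace WX

theorem parFinW {K N w lam KK B b₀ H e₀ : ℕ} (hlam : 3 ≤ lam) (hw : 1 ≤ w) (hwK : w ≤ KK)
    (hK1 : 1 ≤ K) (hN : 1 ≤ N) (h1 : 2 * K ≤ KK) (h2 : N + 1 ≤ KK)
    (hb : b₀ = (26 * lam ^ 2 * K) ^ 2 - 1) (hB : B ≤ (26 * lam ^ 2 * N) ^ 2 - 1)
    (hH : H ≤ (b₀ + 1) ^ K) (he : e₀ ≤ (B + 1) ^ N) :
    2 * ((2 * (b₀ + 1) ^ K) * (H * e₀) * (640 * lam * (w * B))) ≤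
      (26 * KK * lam ^ 2) ^ (6 * KK + 2) := by
  have hKK1 : 1 ≤ KK := by omega
  have hKKK : K ≤ KK := by omega
  have hNKK : N ≤ KK := by omega
  have hlam1 : 1 ≤ lam := by omega
  set y : ℕ := 26 * KK * lam ^ 2 with hy
  have hlam2 : 1 ≤ lam ^ 2 := Nat.one_le_pow _ _ hlam1
  have hy1 : 1 ≤ y := by
    rw [hy]
    exact Nat.one_le_iff_ne_zero.mpr (by positivity)
  have hbK : 1 ≤ (26 * lam ^ 2 * K) ^ 2 := Nat.one_le_pow _ _ (by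
    exact Nat.one_le_iff_ne_zero.mpr (by positivity))
  have hbN : 1 ≤ (26 * lam ^ 2 * N) ^ 2 := Nat.one_le_pow _ _ (by
    exact Nat.one_le_iff_ne_zero.mpr (by positivity))
  have hyK : (26 * lam ^ 2 * K) ^ 2 ≤ y ^ 2 := by
    apply Nat.pow_le_pow_left
    rw [hy]
    calc 26 * lam ^ 2 * K ≤ 26 * lam ^ 2 * KK := Nat.mul_le_mul_left _ hKKK
      _ = 26 * KK * lam ^ 2 := by ring
  have hyN : (26 * lam ^ 2 * N) ^ 2 ≤ y ^ 2 := by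
    apply Nat.pow_le_pow_left
    rw [hy]
    calc 26 * lam ^ 2 * N ≤ 26 * lam ^ 2 * KK := Nat.mul_le_mul_left _ hNKK
      _ = 26 * KK * lam ^ 2 := by ring
  have hb1 : b₀ + 1 ≤ y ^ 2 := by omega
  have hB1 : B + 1 ≤ y ^ 2 := by omega
  have hB2 : B ≤ y ^ 2 := by omega
  have hbp : (b₀ + 1) ^ K ≤ (y ^ 2) ^ K := Nat.pow_le_pow_left hb1 K
  have hH' : H ≤ (y ^ 2) ^ K := hH.trans hbp
  have he' : e₀ ≤ (y ^ 2) ^ N := he.trans (Nat.pow_le_pow_left hB1 N)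
  have hw' : 2560 * lam * w ≤ y ^ 2 := by
    have h27 : 27 ≤ lam ^ 3 := by
      calc 27 = 3 ^ 3 := by norm_num
        _ ≤ lam ^ 3 := Nat.pow_le_pow_left hlam 3
    calc 2560 * lam * w ≤ 2560 * lam * KK := Nat.mul_le_mul_left _ hwK
      _ ≤ (676 * 27) * lam * (KK * KK) := by nlinarith [Nat.zero_le (lam * KK), Nat.mul_le_mul_left (lam * KK) hKK1]
      _ ≤ (676 * lam ^ 3) * lam * (KK * KK) := by gcongr
      _ = y ^ 2 := by rw [hy]; ring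
  calc 2 * ((2 * (b₀ + 1) ^ K) * (H * e₀) * (640 * lam * (w * B)))
      ≤ 2 * ((2 * (y ^ 2) ^ K) * ((y ^ 2) ^ K * (y ^ 2) ^ N) * (640 * lam * (w * y ^ 2))) := by
        gcongr
    _ = (2560 * lam * w) * y ^ (4 * K + 2 * N + 2) := by
        rw [← pow_mul, ← pow_mul]
        have : y ^ (4 * K + 2 * N + 2) = y ^ (2 * K) * (y ^ (2 * K) * y ^ (2 * N)) * y ^ 2 := by
          rw [← pow_add, ← pow_add, ← pow_add]
          congr 1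
          ring
        rw [this]
        ring
    _ ≤ y ^ 2 * y ^ (4 * K + 2 * N + 2) := Nat.mul_le_mul_right _ hw'
    _ = y ^ (4 * K + 2 * N + 4) := by
        rw [← pow_add]
        congr 1
        ring
    _ ≤ y ^ (6 * KK + 2) := Nat.pow_le_pow_right hy1 (by omega)

end WX
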