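import Pool.Agent.LibPX.PA1
import Pool.Agent.LibPX.PA3
import Pool.Agent.LibWX.COREW
import Pool.Agent.LibWX.MKWX
import Pool.Agent.LibWX.PAW
import Pool.Agent.LibWX.W6

/-!
# The count of the exceptional classes, one weight (assembly, helper5)
-/

namespace WX

open Finset Polynomial CM68

theorem countWe {q w e N DD lam KK : ℕ} (hq : 2 ≤ q) (hw : 1 ≤ w)
    {wd : Fin N → List ℕ} (hwd : IsWd w wd) (hN : 1 ≤ N) (hNK : N + 1 ≤ KK) (hwK : w ≤ KK)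
    (V : Submodule ℚ ℝ) [Module.Finite ℚ V] (hD : Module.finrank ℚ V = DD + 1)
    (Ws : Finset (List ℕ)) (hWs : ∀ u : List ℕ, u ∈ Ws ↔ Adms u ∧ u.sum ≤ w)
    (hKK : 2 * (Ws.card * (DD + 1)) ≤ KK)
    (hlam : Real.log q + 2 ≤ lam) (hlam3 : 3 ≤ lam)
    (I₀ : Finset ℕ) (c : List ℕ → ℕ → ℝ)
    (hI : ∀ x ∈ I₀, 0 < x ∧ x < q) (he : 1 ≤ e)
    (hcV : ∀ x ∈ I₀, ∀ u ∈ Ws, c u x ∈ V)
    (hsup : ∀ x ∈ I₀, ∀ u ∈ Ws, c u x ≠ 0 → u.sum ≤ e)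
    (hlead : ∀ x ∈ I₀, ∃ u ∈ Ws, u.sum = e ∧ c u x ≠ 0)
    (hrel : ∀ x ∈ I₀, ∑ u ∈ Ws, c u x * sw q (x : ℝ) u = 0) :
    I₀.card ≤ (26 * KK * lam ^ 2) ^ (6 * KK + 2) := by
  classical
  rcases I₀.eq_empty_or_nonempty with h0 | hne
  · rw [h0, card_empty]
    exact Nat.zero_le _
  obtain ⟨K, hK⟩ : ∃ K, K = Ws.card * (DD + 1) := ⟨_, rfl⟩
  have hWs1 : 1 ≤ Ws.card := by
    obtain ⟨x, hx⟩ := hne
    obtain ⟨u, hu, -⟩ := hlead x hx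
    exact card_pos.2 ⟨u, hu⟩
  have hK1 : 1 ≤ K := by
    rw [hK]
    exact Nat.mul_pos hWs1 (by omega)
  rw [← hK] at hKK
  have hlamR : (3 : ℝ) ≤ lam := by exact_mod_cast hlam3
  have hε : (0 : ℝ) < 1 / (12 * (lam : ℝ) ^ 2) := by positivity
  obtain ⟨ε, hεd⟩ : ∃ ε : ℝ, ε = 1 / (12 * (lam : ℝ) ^ 2) := ⟨_, rfl⟩
  rw [← hεd] at hε
  obtain ⟨B, hB1, hB2, Λ, Λ', hΛ, hΛ', hΛ'1, hΛΛ'⟩ := exists_growth wd
    (B₀ := (26 * lam ^ 2 * N) ^ 2 - 1) (ε := ε) hε (by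
      rw [hεd]
      exact parb hN (by omega))
  obtain ⟨b₀, hb₀⟩ : ∃ b₀, b₀ = (26 * lam ^ 2 * K) ^ 2 - 1 := ⟨_, rfl⟩
  obtain ⟨D, H', e1, e2, e3, e4, e5, hII, hIc, hH', hHH', hHb, hSg⟩ :=
    mkWX (q := q) (w := w) (e := e) (DD := DD) (B := B) (b₀ := b₀)
      (Sp := 2 * (b₀ + 1) ^ K) (ε := ε) hq hw hwd hB1 hΛ hΛ' V hD Ws hWs I₀ hne c hI he hε
      (by rw [hK]) (by
        rw [← hK, hb₀, hεd]
        exact parb (by omega) (by omega)) hcV hsup hlead hrel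
  rw [← hK] at hHb
  obtain ⟨E', hE'⟩ : ∃ E', E' = Λ'.card := ⟨_, rfl⟩
  obtain ⟨E₀, hE₀⟩ : ∃ E₀, E₀ = Λ.card := ⟨_, rfl⟩
  rw [← hE', ← hE₀] at hSg hΛΛ'
  rw [← hE₀] at e5
  rw [← hE'] at hΛ'1
  have hcardIx : Fintype.card D.Ix = D.H * E₀ := by
    rw [Fintype.card_prod, Fintype.card_fin, Fintype.card_coe, e5]
  have hF₂1 : 1 ≤ H' * E' := Nat.mul_pos hH' hΛ'1
  have hcardle : H' * E' ≤ D.H * E₀ := by omega
  have hSgc : D.Sg.card = D.H * E₀ - H' * E' := by omega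
  -- the proportion
  have hF : (2 * lam) ^ 2 * (D.H * E₀ - H' * E') ≤ H' * E' := by
    have h2 : ((D.H * E₀ : ℕ) : ℝ) ≤ (1 + ε) ^ 2 * (H' * E') := by
      push_cast
      calc (D.H : ℝ) * E₀ ≤ ((1 + ε) * H') * ((1 + ε) * E') :=
            mul_le_mul hHH' hΛΛ' (Nat.cast_nonneg _) (by positivity)
        _ = _ := by ring
    have hε1 : ε ≤ 1 := by
      rw [hεd, div_le_one (by positivity)]
      nlinarith
    have h3 : (1 + ε) ^ 2 ≤ 1 + 3 * ε := by nlinarith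
    have h4 : (4 * (lam : ℝ) ^ 2) * (3 * ε) = 1 := by
      rw [hεd]
      field_simp
      norm_num
    have h5 : (0 : ℝ) ≤ (H' : ℝ) * E' := by positivity
    have h6 : ((2 * lam) ^ 2 * (D.H * E₀ - H' * E') : ℝ) ≤ H' * E' := by
      push_cast at h2
      have h7 : (D.H : ℝ) * E₀ - H' * E' ≤ (3 * ε) * (H' * E') := by
        have := mul_le_mul_of_nonneg_right h3 h5
        linarith
      calc ((2 * (lam : ℝ)) ^ 2 * (D.H * E₀ - H' * E') : ℝ)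
          ≤ (2 * (lam : ℝ)) ^ 2 * ((3 * ε) * (H' * E')) :=
            mul_le_mul_of_nonneg_left h7 (by positivity)
        _ = ((4 * (lam : ℝ) ^ 2) * (3 * ε)) * (H' * E') := by ring
        _ = H' * E' := by rw [h4, one_mul]
    have h8 : (((2 * lam) ^ 2 * (D.H * E₀ - H' * E') : ℕ) : ℝ) ≤ ((H' * E' : ℕ) : ℝ) := by
      push_cast [Nat.cast_sub hcardle]
      exact h6
    exact_mod_cast h8
  have hE₀le : E₀ ≤ (B + 1) ^ N := by
    rw [hE₀]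
    exact (card_le_card hΛ.sub).trans (card_expo_le N B)
  have hfin := parFinW (K := K) (N := N) (w := w) (lam := lam) (KK := KK) (B := B) (b₀ := b₀)
    (H := D.H) (e₀ := E₀) hlam3 hw hwK hK1 hN hKK hNK hb₀ hB2 hHb hE₀le
  by_contra hcon
  push Not at hcon
  have hlt := lt_of_le_of_lt hfin hcon
  have hDW : D.W = w * B := by
    unfold DatW.W
    rw [e2, e3]
  have hDL : D.L = D.H * E₀ := by
    unfold DatW.L
    rw [e5]
  have hZE : D.Sp * D.L * (640 * lam * D.W) < D.I.card := by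
    rw [e4, hDL, hDW]
    omega
  have hW : 1 ≤ D.W := by
    rw [hDW]
    exact Nat.mul_pos hw hB1
  have hA := parIN (q := D.q) (F₁ := D.H * E₀ - H' * E') (F₂ := H' * E') (W := D.W)
    (lam := lam) D.hq (by rw [e1]; exact hlam) hlam3 hW hF hF₂1 hZE
  exact coreW D hSgc (by rw [hcardIx]; omega) hA

end WX
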