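import Pool.Agent.LibMH.REPW
import Pool.Agent.LibMH.WMW
import Pool.Agent.LibPX.PIX
import Pool.Agent.LibWX.CNTWX
import Pool.Agent.LibWX.W0

/-!
# The count for the multiple Hurwitz zeta values (assembly, helper5)
-/

namespace WX

open Finset CM68 Pool.MH.Stmt

theorem count_words {M D q lam : ℕ} (hM : 1 ≤ M) (hq : 2 ≤ q)
    (hlam : Real.log q + 2 ≤ lam) (hlam3 : 3 ≤ lam) {V : Submodule ℚ ℝ}
    (hVf : Module.Finite ℚ V) (hVD : Module.finrank ℚ V ≤ D) {W : Finset (List ℕ)}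
    (hadm : ∀ u ∈ W, Admissible u ∧ u.sum ≤ M) :
    {x : ℕ | 0 < x ∧ x < q ∧ ¬ IndepV V W fun u => zetaH u ((x : ℝ) / q)}.ncard ≤
      bX M (D * 2 ^ M) lam := by
  classical
  obtain ⟨W', hW', hcardW⟩ := exists_allWords M hM
  have hsub : W ⊆ W' := fun u hu => (hW' u).2 (hadm u hu)
  rcases Nat.eq_zero_or_pos (Module.finrank ℚ V) with hr0 | hrpos
  · have hbot : V = ⊥ := by
      have hVf' := hVf
      exact Submodule.finrank_eq_zero.1 hr0
    have hemp : {x : ℕ | 0 < x ∧ x < q ∧ ¬ IndepV V W fun u => zetaH u ((x : ℝ) / q)} = ∅ := by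
      rw [Set.eq_empty_iff_forall_notMem]
      rintro x ⟨-, -, h⟩
      apply h
      intro c hc _ u hu
      have h1 := hc u hu
      rw [hbot, Submodule.mem_bot] at h1
      exact h1
    rw [hemp, Set.ncard_empty]
    exact Nat.zero_le _
  obtain ⟨s, hs⟩ : ∃ s, Module.finrank ℚ V = s + 1 := ⟨Module.finrank ℚ V - 1, by omega⟩
  have hsD : s + 1 ≤ D := by omega
  obtain ⟨I₀, hI₀⟩ : ∃ I₀ : Finset ℕ, I₀ = (range q).filter fun x : ℕ => 0 < x ∧
      ¬ IndepV V W' fun u => zetaH u ((x : ℝ) / q) := ⟨_, rfl⟩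
  have hset : {x : ℕ | 0 < x ∧ x < q ∧ ¬ IndepV V W fun u => zetaH u ((x : ℝ) / q)} ⊆
      (I₀ : Set ℕ) := by
    rintro x ⟨h1, h2, h3⟩
    rw [hI₀, Finset.mem_coe, Finset.mem_filter, mem_range]
    exact ⟨h2, h1, fun h => h3 (indepV_mono le_rfl hsub h)⟩
  refine (Set.ncard_le_ncard hset (Finset.finite_toSet I₀)).trans ?_
  rw [Set.ncard_coe_finset]
  have hmem : ∀ x ∈ I₀, 0 < x ∧ x < q ∧ ¬ IndepV V W' fun u => zetaH u ((x : ℝ) / q) := by
    intro x hx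
    rw [hI₀, Finset.mem_filter, mem_range] at hx
    exact ⟨hx.2.1, hx.1, hx.2.2⟩
  have hex : ∀ x : ℕ, ∃ c : List ℕ → ℝ, x ∈ I₀ → (∀ u ∈ W', c u ∈ V) ∧
      ∑ u ∈ W', c u * sw q (x : ℝ) u = 0 ∧ ∃ u ∈ W', c u ≠ 0 := by
    intro x
    by_cases hx0 : x ∈ I₀
    · obtain ⟨hx1, hx2, hx3⟩ := hmem x hx0
      unfold IndepV at hx3
      push Not at hx3
      obtain ⟨c, h2, h3, u₀, hu₀, hu₀'⟩ := hx3
      have hqR : (q : ℝ) ≠ 0 := by exact_mod_cast (by omega : q ≠ 0)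
      refine ⟨fun u => c u * (q : ℝ) ^ u.sum, fun _ => ⟨?_, ?_, u₀, hu₀,
        mul_ne_zero hu₀' (pow_ne_zero _ hqR)⟩⟩
      · intro u hu
        have h4 := V.smul_mem ((q : ℚ) ^ u.sum) (h2 u hu)
        rw [Rat.smul_def] at h4
        have h5 : (((q : ℚ) ^ u.sum : ℚ) : ℝ) * c u = c u * (q : ℝ) ^ u.sum := by
          rw [mul_comm, Rat.cast_pow, Rat.cast_natCast]
        rw [h5] at h4
        exact h4
      · have hxpos : (0 : ℝ) < (x : ℝ) / q := by
          have h2 : (0 : ℝ) < x := by exact_mod_cast hx1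
          have h3 : (0 : ℝ) < q := by exact_mod_cast (by omega : 0 < q)
          positivity
        rw [← h3]
        apply Finset.sum_congr rfl
        intro u _
        rw [sw_scale (by omega : 1 ≤ q), ← zetaH_eq hxpos u, mul_assoc]
        congr 1
        rw [← mul_assoc, mul_one_div_cancel (pow_ne_zero _ hqR), one_mul]
    · exact ⟨0, fun h => absurd h hx0⟩
  choose c hc using hex
  -- the weight of the relation
  obtain ⟨I, hIdef⟩ : ∃ I : ℕ → Finset ℕ, ∀ e, I e = I₀.filter fun x =>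
      (∀ u ∈ W', c x u ≠ 0 → u.sum ≤ e) ∧ ∃ u ∈ W', u.sum = e ∧ c x u ≠ 0 := ⟨_, fun _ => rfl⟩
  have hcover : I₀ ⊆ (Icc 1 M).biUnion I := by
    intro x hx
    obtain ⟨h1, h2, u₀, hu₀, hu₀'⟩ := hc x hx
    obtain ⟨u, hu, hmax⟩ := Finset.exists_max_image (W'.filter fun u => c x u ≠ 0) List.sum
      ⟨u₀, mem_filter.2 ⟨hu₀, hu₀'⟩⟩
    obtain ⟨hu1, hu2⟩ := mem_filter.1 hu
    have hmax' : ∀ v ∈ W', c x v ≠ 0 → v.sum ≤ u.sum := fun v hv hv' =>
      hmax v (mem_filter.2 ⟨hv, hv'⟩)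
    rw [mem_biUnion]
    refine ⟨u.sum, mem_Icc.2 ⟨?_, ((hW' u).1 hu1).2⟩, ?_⟩
    · by_contra hcon
      have hu0 : u.sum = 0 := by omega
      have hnil : ∀ v ∈ W', c x v ≠ 0 → v = [] := by
        intro v hv hv'
        have h3 := hmax' v hv hv'
        rcases v with _ | ⟨k, v⟩
        · rfl
        · have h4 := ((hW' _).1 hv).1.1 k (by simp)
          rw [List.sum_cons] at h3
          omega
      have hunil := hnil u hu1 hu2
      subst hunil
      rw [Finset.sum_eq_single_of_mem ([] : List ℕ) hu1] at h2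
      · have h5 : sw q (x : ℝ) [] = 1 := by simp [sw]
        rw [h5, mul_one] at h2
        exact hu2 h2
      · intro v hv hne
        by_contra hcon2
        exact hne (hnil v hv (left_ne_zero_of_mul hcon2))
    · rw [hIdef, mem_filter]
      exact ⟨hx, hmax', u, hu1, rfl, hu2⟩
  -- the words
  obtain ⟨N, wd, hN, hN2, hwd⟩ := exists_wd hM
  obtain ⟨KK, hKK⟩ : ∃ KK, KK = D * 2 ^ M := ⟨_, rfl⟩
  have h2M : 2 ^ M ≤ KK := by
    rw [hKK]
    exact Nat.le_mul_of_pos_left _ (by omega)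
  have hMlt : M < 2 ^ M := Nat.lt_two_pow_self
  have hK2 : 2 * (W'.card * (s + 1)) ≤ KK := by
    have h1 : 2 ^ M = 2 * 2 ^ (M - 1) := by
      rw [← pow_succ']
      congr 1
      omega
    calc 2 * (W'.card * (s + 1)) ≤ 2 * (2 ^ (M - 1) * D) :=
          Nat.mul_le_mul_left _ (Nat.mul_le_mul hcardW hsD)
      _ = KK := by rw [hKK, h1]; ring
  have hVf' := hVf
  have hI : ∀ e ∈ Icc 1 M, (I e).card ≤ (26 * KK * lam ^ 2) ^ (6 * KK + 2) := by
    intro e he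
    have hmemI : ∀ x ∈ I e, x ∈ I₀ ∧ (∀ u ∈ W', c x u ≠ 0 → u.sum ≤ e) ∧
        ∃ u ∈ W', u.sum = e ∧ c x u ≠ 0 := by
      intro x hx
      rw [hIdef, mem_filter] at hx
      exact hx
    exact countWe (w := M) (e := e) (N := N) (DD := s) (lam := lam) (KK := KK) hq hM hwd hN
      (by omega) (by omega) V hs W' (fun u => hW' u) hK2 hlam hlam3 (I e) (fun u x => c x u)
      (fun x hx => ⟨(hmem x (hmemI x hx).1).1, (hmem x (hmemI x hx).1).2.1⟩)
      (mem_Icc.1 he).1 (fun x hx => (hc x (hmemI x hx).1).1)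
      (fun x hx => (hmemI x hx).2.1) (fun x hx => (hmemI x hx).2.2)
      (fun x hx => (hc x (hmemI x hx).1).2.1)
  calc I₀.card ≤ ((Icc 1 M).biUnion I).card := card_le_card hcover
    _ ≤ ∑ e ∈ Icc 1 M, (I e).card := card_biUnion_le
    _ ≤ ∑ _e ∈ Icc 1 M, (26 * KK * lam ^ 2) ^ (6 * KK + 2) := Finset.sum_le_sum hI
    _ = bX M (D * 2 ^ M) lam := by
        rw [Finset.sum_const, Nat.card_Icc, Nat.add_sub_cancel, smul_eq_mul, ← hKK]
        rfl

/-- the explicit bound -/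
theorem words_bound {M D q : ℕ} (hM : 1 ≤ M) (hD : 1 ≤ D) (hq : 3 ≤ q) {V : Submodule ℚ ℝ}
    (hVf : Module.Finite ℚ V) (hVD : Module.finrank ℚ V ≤ D) {W : Finset (List ℕ)}
    (hadm : ∀ u ∈ W, Admissible u ∧ u.sum ≤ M) :
    ({x : ℕ | 0 < x ∧ x < q ∧ ¬ IndepV V W fun u => zetaH u ((x : ℝ) / q)}.ncard : ℝ) ≤
      M * (416 * (D * 2 ^ M) * Real.log q ^ 2) ^ (6 * (D * 2 ^ M) + 2) := by
  have h1 := count_words (D := D) (lam := LX q) hM (by omega : 2 ≤ q) (le_LX q)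
    (by
      have h2 := le_LX q
      have h3 := one_lt_log hq
      have h4 : (3 : ℝ) ≤ LX q := by linarith
      exact_mod_cast h4) hVf hVD hadm
  have h2 := bX_real (q := q) (w := M) (K := D * 2 ^ M) hq hM (Nat.mul_pos hD (by positivity))
  have h3 : ({x : ℕ | 0 < x ∧ x < q ∧ ¬ IndepV V W fun u => zetaH u ((x : ℝ) / q)}.ncard : ℝ) ≤
      (bX M (D * 2 ^ M) (LX q) : ℝ) := by exact_mod_cast h1
  refine (h3.trans (by linarith)).trans (h2.trans (le_of_eq ?_))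
  push_cast
  ring

end WX
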