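import Pool.Agent.LibMH.FINW
import Pool.Agent.LibPX.GRX0
import Pool.Agent.LibPX.HTX
import Pool.Agent.LibPX.FINX
import Pool.Agent.LibWX.FINWX

/-!
# The final forms (helper5)
-/

namespace WX

open Finset CM68 Pool.MH.Stmt

theorem words_EP {M D q : ℕ} (hM : 1 ≤ M) (hD : 1 ≤ D) (hq : 3 ≤ q) {V : Submodule ℚ ℝ}
    (hVf : Module.Finite ℚ V) (hVD : Module.finrank ℚ V ≤ D) {W : Finset (List ℕ)}
    (hadm : ∀ u ∈ W, Admissible u ∧ u.sum ≤ M) :
    ({x : ℕ | 0 < x ∧ x < q ∧ ¬ IndepV V W fun u => zetaH u ((x : ℝ) / q)}.ncard : ℝ) ≤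
      EP M (D * 2 ^ M) (Real.log q) := by
  refine (words_bound hM hD hq hVf hVD hadm).trans (le_of_eq ?_)
  unfold EP
  push_cast
  rfl

/-- by height -/
theorem words_heightX {M D H : ℕ} (hM : 1 ≤ M) (hD : 1 ≤ D) (hH : 3 ≤ H) {V : Submodule ℚ ℝ}
    (hVf : Module.Finite ℚ V) (hVD : Module.finrank ℚ V ≤ D) {W : Finset (List ℕ)}
    (hadm : ∀ u ∈ W, Admissible u ∧ u.sum ≤ M) :
    ({y : ℚ | 0 < y ∧ y < 1 ∧ y.den ≤ H ∧ ¬ IndepV V W fun u => zetaH u (y : ℝ)}.ncard : ℝ) ≤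
      H * EP M (D * 2 ^ M) (Real.log H) := by
  have hK : 1 ≤ D * 2 ^ M := Nat.mul_pos hD (by positivity)
  have hlH := one_lt_log hH
  refine height_bound (fun y => ¬ IndepV V W fun u => zetaH u y) (EP_nonneg (by linarith)) H
    (by omega) ?_
  intro q hq hqH
  rcases Nat.lt_or_ge q 3 with h3 | h3
  · have hq2 : q = 2 := by omega
    subst hq2
    refine le_trans ?_ (one_le_EP hM hK (by linarith))
    have hsub : {x : ℕ | 0 < x ∧ x < 2 ∧ ¬ IndepV V W fun u => zetaH u ((x : ℝ) / (2 : ℕ))} ⊆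
        {1} := by
      rintro x ⟨hx0, hxq, -⟩
      rw [Set.mem_singleton_iff]
      omega
    have h4 := Set.ncard_le_ncard hsub (Set.finite_singleton _)
    rw [Set.ncard_singleton] at h4
    exact_mod_cast h4
  · refine (words_EP hM hD h3 hVf hVD hadm).trans (EP_mono ?_ ?_)
    · have := one_lt_log h3
      linarith
    · exact Real.log_le_log (by exact_mod_cast (by omega : 0 < q)) (by exact_mod_cast hqH)

/-- near every point -/
theorem words_nearX {M D q : ℕ} (hM : 1 ≤ M) (hD : 1 ≤ D) (hq : 3 ≤ q) {V : Submodule ℚ ℝ}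
    (hVf : Module.Finite ℚ V) (hVD : Module.finrank ℚ V ≤ D) {W : Finset (List ℕ)}
    (hadm : ∀ u ∈ W, Admissible u ∧ u.sum ≤ M)
    (hl : EP M (D * 2 ^ M) (Real.log q) + 3 ≤ q) {t : ℝ} (ht0 : 0 ≤ t) (ht1 : t ≤ 1) :
    ∃ x : ℕ, 0 < x ∧ x < q ∧
      |(x : ℝ) / q - t| ≤ (EP M (D * 2 ^ M) (Real.log q) + 3) / q ∧
      IndepV V W fun u => zetaH u ((x : ℝ) / q) := by
  have hlq := one_lt_log hq
  obtain ⟨x, h2, h3, h4, h5⟩ := CM68.near_of_count (fun y => ¬ IndepV V W fun u => zetaH u y)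
    (EP_nonneg (by linarith)) (by omega : 2 ≤ q) (words_EP hM hD hq hVf hVD hadm) hl ht0 ht1
  exact ⟨x, h2, h3, h4, not_not.1 h5⟩

/-- the weight and the dimension may tend to infinity with `q` -/
theorem words_growingX {η : ℝ} (h0 : 0 < η) (h1 : η < 1 / 2) :
    ∃ q₀ : ℕ, ∀ q : ℕ, q₀ ≤ q → ∀ M D : ℕ, 1 ≤ M → 1 ≤ D →
      (D : ℝ) * 2 ^ M ≤ Real.log q ^ (1 - 2 * η) →
      ∀ V : Submodule ℚ ℝ, Module.Finite ℚ V → Module.finrank ℚ V ≤ D →
      ∀ W : Finset (List ℕ), (∀ u ∈ W, Admissible u ∧ u.sum ≤ M) →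
      ({x : ℕ | 0 < x ∧ x < q ∧ ¬ IndepV V W fun u => zetaH u ((x : ℝ) / q)}.ncard : ℝ) ≤
        Real.exp (Real.log q ^ (1 - η)) := by
  obtain ⟨q₀, hq₀3, hq₀⟩ := growthX 1 2 h0 h1
  refine ⟨q₀, fun q hq M D hM1 hD1 hK V hVf hVD W hadm => ?_⟩
  obtain ⟨hL, hG⟩ := hq₀ q hq
  obtain ⟨K, hKdef⟩ : ∃ K, K = D * 2 ^ M := ⟨_, rfl⟩
  have hKR : (K : ℝ) ≤ Real.log q ^ (1 - 2 * η) := by
    rw [hKdef]
    push_cast
    exact hK
  have hMK : M ≤ K := by
    have h2 : M < 2 ^ M := Nat.lt_two_pow_self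
    have h3 : 2 ^ M ≤ D * 2 ^ M := Nat.le_mul_of_pos_left _ (by omega)
    omega
  have hK1 : 1 ≤ K := by omega
  have hK1R : (1 : ℝ) ≤ K := by exact_mod_cast hK1
  have hLle : Real.log q ^ (1 - 2 * η) ≤ Real.log q := by
    calc Real.log q ^ (1 - 2 * η) ≤ Real.log q ^ (1 : ℝ) :=
          Real.rpow_le_rpow_of_exponent_le hL (by linarith)
      _ = Real.log q := Real.rpow_one _
  have hML : (M : ℝ) ≤ Real.log q := by
    have : (M : ℝ) ≤ K := by exact_mod_cast hMK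
    linarith
  have h3 := hG (K + 1) (by push_cast; linarith)
  refine (words_EP hM1 hD1 (by omega) hVf hVD hadm).trans (le_trans ?_ h3)
  rw [← hKdef]
  unfold EP
  have hb : (1 : ℝ) ≤ 416 * K * Real.log q ^ 2 := by
    have : (1 : ℝ) ≤ Real.log q ^ 2 := one_le_pow₀ hL
    nlinarith
  have hLb : Real.log q ≤ 416 * K * Real.log q ^ 2 := by
    have h4 : Real.log q * 1 ≤ Real.log q * (416 * K * Real.log q) := by
      apply mul_le_mul_of_nonneg_left _ (by linarith)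
      nlinarith
    nlinarith
  calc (M : ℝ) * (416 * K * Real.log q ^ 2) ^ (6 * K + 2)
      ≤ (416 * K * Real.log q ^ 2) * (416 * K * Real.log q ^ 2) ^ (6 * K + 2) := by
        apply mul_le_mul_of_nonneg_right (hML.trans hLb) (by positivity)
    _ = (416 * K * Real.log q ^ 2) ^ (6 * K + 3) := by ring
    _ ≤ (416 * K * Real.log q ^ 2) ^ (6 * (K + 1) + 2) :=
        pow_le_pow_right₀ hb (by omega)
    _ ≤ (416 * ((K + 1 : ℕ) : ℝ) * Real.log q ^ 2) ^ (6 * (K + 1) + 2) := by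
        apply pow_le_pow_left₀ (by positivity)
        apply mul_le_mul_of_nonneg_right _ (by positivity)
        push_cast
        linarith
    _ = ((1 : ℕ) : ℝ) * (416 * ((K + 1 : ℕ) : ℝ) * Real.log q ^ 2) ^ (6 * (K + 1) + 2) := by
        simp

end WX
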