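import Pool.Agent.LibWX.WBase

/-!
# Row W15a: the reduction given by the relation (MEDIUM/STRONG, algebra)

Let `x = j % q ∈ I`, `n = j / q + T + 1`, `P u = pw q x u n`, `A u = aw q T u j`.  `sw_node` (WBase) in `hrel x` and `A [] = sw .. [] = 1`:
`0 = ∑_{u ∈ Ws} c u x * P u + ∑_{u ∈ Ws} ∑_{i ∈ Icc 1 u.length} c u x * A (u.take i) * P (u.drop i)`.
Multiply by `ψ l x * pm α' j` and move the words of weight `e` to the left (`hsup`: words of larger weight have `c u x = 0`):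
`∑_{u, sum = e} ψ c_u P u pm α' = - ∑_{u, sum < e} ψ c_u P u pm α' - ∑_u ∑_{1 ≤ i ≤ len} A (u.take i) ψ c_u P (u.drop i) pm α'` (in the last sum only `u.sum ≤ e`).
For a positive word `v` of weight `≤ w`: `P v * pm α' j = pm (ixw v + α') j = ∑_{α ∈ Λ} a (ixw v + α') α * pm α j` (`pm_ixw`, `pm_add`, `pm_qm`, `ha`; `ixw v + α' ∈ expo N B` by `ixw_expo`, `hΛ'.sub`, `hB`), and
`ψ l x * c u x = ∑ h, t l u h * φ h x` (`hmul`): so `ψ c_u P v pm α' = ∑_{s'} t l u s'.1 * a (ixw v + α') s'.2 * rwf .. s' j`, and the weight of the `s'` with nonzero coefficient is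
`wg (ixw v + α') = v.sum + wg α'` (`wg_add`, `wg_ixw`).  The left hand side is `∑_{s'} rvec .. s' * rwf .. s'`.
`c₀ s' = - ∑_{u ∈ Ws, sum < e} t l u s'.1 * a (ixw u + α') s'.2`;  `c' i s' = - ∑_{u ∈ Ws, sum ≤ e} ∑_{m ∈ Icc 1 u.length} if wd i = u.take m then t l u s'.1 * a (ixw (u.drop m) + α') s'.2 else 0`
(`u.take m`, `m ≥ 1`, is admissible, nonempty, of weight `≤ w`, so it is exactly one `wd i`; `(u.drop m).sum < u.sum ≤ e`).
-/

namespace WX

open Finset CM68

private lemma pos_drop {u : List ℕ} (hu : Pos u) (m : ℕ) : Pos (u.drop m) :=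
  fun k hk => hu k (List.mem_of_mem_drop hk)

private lemma pos_take {u : List ℕ} (hu : Pos u) (m : ℕ) : Pos (u.take m) :=
  fun k hk => hu k (List.mem_of_mem_take hk)

private lemma sum_take_drop (u : List ℕ) (m : ℕ) : (u.take m).sum + (u.drop m).sum = u.sum := by
  rw [← List.sum_append, List.take_append_drop]

private lemma take_ne_nil {u : List ℕ} {m : ℕ} (hm : 1 ≤ m) (hl : m ≤ u.length) : u.take m ≠ [] := by
  intro h
  have h1 : (u.take m).length = 0 := by rw [h]; rfl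
  rw [List.length_take] at h1
  omega

private lemma sum_pos_of {u : List ℕ} (hu : Pos u) (h : u ≠ []) : 1 ≤ u.sum := by
  cases u with
  | nil => exact absurd rfl h
  | cons k v =>
    have := hu k (by simp)
    simp only [List.sum_cons]
    omega

private lemma adms_take {u : List ℕ} (hu : Adms u) {m : ℕ} (hm : 1 ≤ m) : Adms (u.take m) := by
  refine ⟨fun k hk => hu.1 k (List.mem_of_mem_take hk), fun k hk => hu.2 k ?_⟩
  rwa [List.head?_take, if_neg (by omega)] at hk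

private lemma exp_mem {N H H' q w B e : ℕ} {wd : Fin N → List ℕ} {Λ Λ' : Finset (Fin N → ℕ)}
    {I : Finset ℕ} {φ : Fin H → ℕ → ℚ} {ψ : Fin H' → ℕ → ℚ} {Ws : Finset (List ℕ)}
    {c : List ℕ → ℕ → ℝ} {a : (Fin N → ℕ) → (Fin N → ℕ) → ℝ} {t : Fin H' → List ℕ → Fin H → ℝ}
    (R : RelW q w B e wd Λ Λ' I φ ψ Ws c a t) {α' : Fin N → ℕ} (hα' : α' ∈ Λ') {v : List ℕ} (hv : Pos v)
    (hvw : v.sum ≤ w) : ixw wd v + α' ∈ expo N B := by
  rw [mem_expo]
  have h1 := mem_expo.1 (R.hΛ'.sub hα')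
  have h2 := ixw_expo R.hwd hv hvw
  have h3 := R.hB
  simp only [Pi.add_apply, Finset.sum_add_distrib]
  omega

private lemma wg_of {N H H' q w B e : ℕ} {wd : Fin N → List ℕ} {Λ Λ' : Finset (Fin N → ℕ)}
    {I : Finset ℕ} {φ : Fin H → ℕ → ℚ} {ψ : Fin H' → ℕ → ℚ} {Ws : Finset (List ℕ)}
    {c : List ℕ → ℕ → ℝ} {a : (Fin N → ℕ) → (Fin N → ℕ) → ℝ} {t : Fin H' → List ℕ → Fin H → ℝ}
    (R : RelW q w B e wd Λ Λ' I φ ψ Ws c a t) {α' : Fin N → ℕ} (hα' : α' ∈ Λ') {v : List ℕ} (hv : Pos v)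
    (hvw : v.sum ≤ w) {α : Fin N → ℕ} (h : a (ixw wd v + α') α ≠ 0) : wg wd α = v.sum + wg wd α' := by
  rw [(((R.ha _ (exp_mem R hα' hv hvw)).1) α h).2, wg_add, wg_ixw R.hwd hv hvw]

private lemma key {N H H' q w B e : ℕ} {wd : Fin N → List ℕ} {Λ Λ' : Finset (Fin N → ℕ)}
    {I : Finset ℕ} {φ : Fin H → ℕ → ℚ} {ψ : Fin H' → ℕ → ℚ} {Ws : Finset (List ℕ)}
    {c : List ℕ → ℕ → ℝ} {a : (Fin N → ℕ) → (Fin N → ℕ) → ℝ} {t : Fin H' → List ℕ → Fin H → ℝ}
    (R : RelW q w B e wd Λ Λ' I φ ψ Ws c a t) (l : Fin H') {α' : Fin N → ℕ} (hα' : α' ∈ Λ')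
    {u : List ℕ} (hu : u ∈ Ws) {v : List ℕ} (hv : Pos v) (hvw : v.sum ≤ w) (T : ℕ) {j : ℕ} (hj : j % q ∈ I) :
    (ψ l (j % q) : ℝ) * c u (j % q) * (pw q ((j % q : ℕ) : ℝ) v (j / q + T + 1) * pm q wd T α' j) =
      ∑ s' : Fin H × Λ, t l u s'.1 * a (ixw wd v + α') s'.2 * rwf q wd φ T s'.1 s'.2 j := by
  rw [R.hmul l u hu _ hj, ← pm_ixw R.hwd hv hvw, ← pm_add, pm_qm,
    (R.ha _ (exp_mem R hα' hv hvw)).2, Finset.sum_mul_sum, Fintype.sum_prod_type]
  refine Finset.sum_congr rfl fun h _ => ?_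
  rw [← Finset.sum_coe_sort Λ]
  refine Finset.sum_congr rfl fun α _ => ?_
  rw [← pm_qm]
  unfold rwf
  simp only
  ring

theorem red_row {N H H' q w B e : ℕ} {wd : Fin N → List ℕ} {Λ Λ' : Finset (Fin N → ℕ)}
    {I : Finset ℕ} {φ : Fin H → ℕ → ℚ} {ψ : Fin H' → ℕ → ℚ} {Ws : Finset (List ℕ)}
    {c : List ℕ → ℕ → ℝ} {a : (Fin N → ℕ) → (Fin N → ℕ) → ℝ} {t : Fin H' → List ℕ → Fin H → ℝ}
    (R : RelW q w B e wd Λ Λ' I φ ψ Ws c a t) (l : Fin H') {α' : Fin N → ℕ} (hα' : α' ∈ Λ') :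
    ∃ (c₀ : Fin H × Λ → ℝ) (c' : Fin N → Fin H × Λ → ℝ),
      (∀ s', c₀ s' ≠ 0 → wg wd s'.2 < e + wg wd α') ∧
      (∀ i s', c' i s' ≠ 0 → Adms (wd i) ∧ wg wd s'.2 < e + wg wd α') ∧
      ∀ T j : ℕ, j % q ∈ I →
        ∑ s' : Fin H × Λ, rvec wd Λ Ws e a t l α' s' * rwf q wd φ T s'.1 s'.2 j =
          ∑ s', c₀ s' * rwf q wd φ T s'.1 s'.2 j +
            ∑ i, ∑ s', c' i s' * aw q T (wd i) j * rwf q wd φ T s'.1 s'.2 j := by
  have hpos : ∀ u ∈ Ws, Pos u ∧ u.sum ≤ w ∧ Adms u := fun u hu =>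
    ⟨((R.hWs u).1 hu).1.1, ((R.hWs u).1 hu).2, ((R.hWs u).1 hu).1⟩
  refine ⟨fun s' => -∑ u ∈ Ws.filter (fun u => u.sum < e), t l u s'.1 * a (ixw wd u + α') s'.2,
    fun i s' => -∑ u ∈ Ws.filter (fun u => u.sum ≤ e), ∑ m ∈ Icc 1 u.length,
      if wd i = u.take m then t l u s'.1 * a (ixw wd (u.drop m) + α') s'.2 else 0, ?_, ?_, ?_⟩
  · intro s' hs'
    obtain ⟨u, hu, hne⟩ := Finset.exists_ne_zero_of_sum_ne_zero (neg_ne_zero.1 hs')
    rw [Finset.mem_filter] at hu
    have h1 := hpos u hu.1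
    rw [wg_of R hα' h1.1 h1.2.1 (right_ne_zero_of_mul hne)]
    omega
  · intro i s' hs'
    obtain ⟨u, hu, hne⟩ := Finset.exists_ne_zero_of_sum_ne_zero (neg_ne_zero.1 hs')
    obtain ⟨m, hm, hne⟩ := Finset.exists_ne_zero_of_sum_ne_zero hne
    rw [Finset.mem_filter] at hu
    rw [Finset.mem_Icc] at hm
    have h1 := hpos u hu.1
    by_cases hi : wd i = u.take m
    · rw [if_pos hi] at hne
      have h2 := sum_take_drop u m
      have h3 := sum_pos_of (pos_take h1.1 m) (take_ne_nil hm.1 hm.2)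
      refine ⟨hi ▸ adms_take h1.2.2 hm.1, ?_⟩
      rw [wg_of R hα' (pos_drop h1.1 m) (by omega) (right_ne_zero_of_mul hne)]
      omega
    · rw [if_neg hi] at hne
      exact absurd rfl hne
  · intro T j hj
    obtain ⟨K, hK⟩ : ∃ K : List ℕ → List ℕ → ℝ, K = fun u v =>
      ∑ s' : Fin H × Λ, t l u s'.1 * a (ixw wd v + α') s'.2 * rwf q wd φ T s'.1 s'.2 j := ⟨_, rfl⟩
    have hKey : ∀ u ∈ Ws, ∀ v, Pos v → v.sum ≤ w →
        (ψ l (j % q) : ℝ) * c u (j % q) * (pw q ((j % q : ℕ) : ℝ) v (j / q + T + 1) * pm q wd T α' j) = K u v := by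
      intro u hu v hv hvw
      rw [hK]
      exact key R l hα' hu hv hvw T hj
    have hK0 : ∀ u ∈ Ws, e < u.sum → ∀ v, Pos v → v.sum ≤ w → K u v = 0 := by
      intro u hu he v hv hvw
      rw [← hKey u hu v hv hvw]
      have : c u (j % q) = 0 := by
        by_contra hne
        have := R.hsup _ hj u hu hne
        omega
      rw [this]
      ring
    -- the relation
    have hrel := R.hrel _ hj
    have hq1 : 1 ≤ q := by have := R.hq; omega
    have hsw : ∀ u ∈ Ws, sw q ((j % q : ℕ) : ℝ) u = pw q ((j % q : ℕ) : ℝ) u (j / q + T + 1) +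
        ∑ m ∈ Icc 1 u.length, aw q T (u.take m) j * pw q ((j % q : ℕ) : ℝ) (u.drop m) (j / q + T + 1) := by
      intro u hu
      rw [sw_node hq1 T (R.hI _ hj).1 (hpos u hu).2.2, Finset.range_eq_Ico,
        Finset.sum_eq_sum_Ico_succ_bot (by omega)]
      have h1 : aw q T (u.take 0) j = 1 := by
        simp [aw, sw]
      rw [h1, List.drop_zero, one_mul]
      rfl
    have hmain : (0:ℝ) = ∑ u ∈ Ws, (K u u + ∑ m ∈ Icc 1 u.length, aw q T (u.take m) j * K u (u.drop m)) := by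
      have h0 : (ψ l (j % q) : ℝ) * pm q wd T α' j * ∑ u ∈ Ws, c u (j % q) * sw q ((j % q : ℕ) : ℝ) u = 0 := by
        rw [hrel, mul_zero]
      rw [← h0, Finset.mul_sum]
      refine Finset.sum_congr rfl fun u hu => ?_
      rw [hsw u hu, ← hKey u hu u (hpos u hu).1 (hpos u hu).2.1]
      have h2 : ∑ m ∈ Icc 1 u.length, aw q T (u.take m) j * K u (u.drop m) =
          ∑ m ∈ Icc 1 u.length, (ψ l (j % q) : ℝ) * c u (j % q) * pm q wd T α' j *
            (aw q T (u.take m) j * pw q ((j % q : ℕ) : ℝ) (u.drop m) (j / q + T + 1)) := by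
        refine Finset.sum_congr rfl fun m _ => ?_
        have h3 := sum_take_drop u m
        have h4 := (hpos u hu).2.1
        rw [← hKey u hu (u.drop m) (pos_drop (hpos u hu).1 m) (by omega)]
        ring
      rw [h2, ← Finset.mul_sum]
      ring
    have hsplit : ∑ u ∈ Ws, (K u u + ∑ m ∈ Icc 1 u.length, aw q T (u.take m) j * K u (u.drop m)) =
        ∑ u ∈ Ws.filter (fun u => u.sum = e), K u u + ∑ u ∈ Ws.filter (fun u => u.sum < e), K u u +
        ∑ u ∈ Ws.filter (fun u => u.sum ≤ e), ∑ m ∈ Icc 1 u.length, aw q T (u.take m) j * K u (u.drop m) := by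
      rw [Finset.sum_filter, Finset.sum_filter, Finset.sum_filter, ← Finset.sum_add_distrib,
        ← Finset.sum_add_distrib]
      refine Finset.sum_congr rfl fun u hu => ?_
      rcases lt_trichotomy u.sum e with h | h | h
      · rw [if_neg (by omega), if_pos h, if_pos (by omega)]
        ring
      · rw [if_pos h, if_neg (by omega), if_pos (by omega)]
        ring
      · rw [if_neg (by omega), if_neg (by omega), if_neg (by omega),
          hK0 u hu h u (hpos u hu).1 (hpos u hu).2.1]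
        have : ∑ m ∈ Icc 1 u.length, aw q T (u.take m) j * K u (u.drop m) = 0 := by
          refine Finset.sum_eq_zero fun m _ => ?_
          have h3 := sum_take_drop u m
          have h4 := (hpos u hu).2.1
          rw [hK0 u hu h (u.drop m) (pos_drop (hpos u hu).1 m) (by omega), mul_zero]
        rw [this]
        ring
    -- the three sums
    have e1 : ∑ s' : Fin H × Λ, rvec wd Λ Ws e a t l α' s' * rwf q wd φ T s'.1 s'.2 j =
        ∑ u ∈ Ws.filter (fun u => u.sum = e), K u u := by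
      unfold rvec
      simp_rw [Finset.sum_mul]
      rw [Finset.sum_comm, hK]
    have e2 : ∑ s' : Fin H × Λ, (-∑ u ∈ Ws.filter (fun u => u.sum < e), t l u s'.1 * a (ixw wd u + α') s'.2) *
        rwf q wd φ T s'.1 s'.2 j = -∑ u ∈ Ws.filter (fun u => u.sum < e), K u u := by
      simp_rw [neg_mul, Finset.sum_mul]
      rw [Finset.sum_neg_distrib, Finset.sum_comm, hK]
    have e3 : ∑ i, ∑ s' : Fin H × Λ, (-∑ u ∈ Ws.filter (fun u => u.sum ≤ e), ∑ m ∈ Icc 1 u.length,
        if wd i = u.take m then t l u s'.1 * a (ixw wd (u.drop m) + α') s'.2 else 0) * aw q T (wd i) j *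
          rwf q wd φ T s'.1 s'.2 j =
        -∑ u ∈ Ws.filter (fun u => u.sum ≤ e), ∑ m ∈ Icc 1 u.length, aw q T (u.take m) j * K u (u.drop m) := by
      have e31 : ∀ i, ∑ s' : Fin H × Λ, (-∑ u ∈ Ws.filter (fun u => u.sum ≤ e), ∑ m ∈ Icc 1 u.length,
          if wd i = u.take m then t l u s'.1 * a (ixw wd (u.drop m) + α') s'.2 else 0) * aw q T (wd i) j *
            rwf q wd φ T s'.1 s'.2 j =
          -∑ u ∈ Ws.filter (fun u => u.sum ≤ e), ∑ m ∈ Icc 1 u.length,
            if wd i = u.take m then aw q T (u.take m) j * K u (u.drop m) else 0 := by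
        intro i
        simp_rw [neg_mul, Finset.sum_mul]
        rw [Finset.sum_neg_distrib, Finset.sum_comm]
        congr 1
        refine Finset.sum_congr rfl fun u _ => ?_
        rw [Finset.sum_comm]
        refine Finset.sum_congr rfl fun m _ => ?_
        by_cases hi : wd i = u.take m
        · simp only [if_pos hi]
          rw [hK, Finset.mul_sum]
          refine Finset.sum_congr rfl fun s' _ => ?_
          rw [hi]
          ring
        · simp only [if_neg hi, zero_mul, Finset.sum_const_zero]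
      simp_rw [e31]
      rw [Finset.sum_neg_distrib, Finset.sum_comm]
      congr 1
      refine Finset.sum_congr rfl fun u hu => ?_
      rw [Finset.sum_comm]
      refine Finset.sum_congr rfl fun m hm => ?_
      rw [Finset.mem_filter] at hu
      rw [Finset.mem_Icc] at hm
      have h1 := hpos u hu.1
      have h3 := sum_take_drop u m
      obtain ⟨i, hi⟩ := (R.hwd.mem (u.take m)).2 ⟨take_ne_nil hm.1 hm.2, pos_take h1.1 m, by omega⟩
      rw [Finset.sum_eq_single i]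
      · rw [if_pos hi]
      · intro i' _ hne
        rw [if_neg]
        intro h
        exact hne (R.hwd.inj (h.trans hi.symm))
      · intro h
        exact absurd (Finset.mem_univ i) h
    rw [e1, e2, e3]
    rw [hsplit] at hmain
    linarith

end WX
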