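import Pool.Agent.LibWX.WBase

/-!
# Row W2: the product of quasi-symmetric functions (MEDIUM; only Mathlib and the definitions)

`QF` is closed under finite sums and real multiples (extend the coefficients by `0` to the union of the finite sets, or use sums over a union with `if`).
`qf_cons`: if `QF F` and `1 ≤ k`, then `fun t n => ∑ m ∈ range n, t m ^ k * F t m` is `QF` (words `k :: v`).
`qs_mul`: strong induction on `u.length + v.length` (for `[]` trivial): for `u = k :: u'`, `v = l :: v'`, with `f n = qs t u n`, `g n = qs t v n`: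
`f n * g n = ∑_{m < n} (f (m+1) g (m+1) - f m g m)` (`Finset.sum_range_sub`, `f 0 = 0`), `f (m+1) = f m + t m^k u'(m)`, so the difference is
`t m^k (u'(m) g m) + t m^l (f m v'(m)) + t m^(k+l) (u'(m) v'(m))`: three sums of type `qf_cons`.
`qf_mul`: expand; `qm_QF`: product of powers (induction on the exponents / `Finset.prod_induction`).
-/

namespace WX

open Finset

/-- the span of the functions of positive words -/
private def w2S : Submodule ℝ ((ℕ → ℝ) → ℕ → ℝ) :=
  Submodule.span ℝ {F | ∃ v : List ℕ, Pos v ∧ F = fun t n => qs t v n}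

private theorem w2_iff (F : (ℕ → ℝ) → ℕ → ℝ) : QF F ↔ F ∈ w2S := by
  classical
  constructor
  · rintro ⟨Fc, c, hp, h⟩
    have h1 : F = ∑ v ∈ Fc, c v • (fun (t : ℕ → ℝ) (n : ℕ) => qs t v n) := by
      funext t n
      rw [h t n]
      simp [Finset.sum_apply]
    rw [h1]
    exact Submodule.sum_mem _ fun v hv =>
      Submodule.smul_mem _ _ (Submodule.subset_span ⟨v, hp v hv, rfl⟩)
  · intro h
    induction h using Submodule.span_induction with
    | mem x hx =>
      obtain ⟨v, hv, rfl⟩ := hx
      exact ⟨{v}, fun _ => 1, by simpa using hv, by simp⟩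
    | zero => exact ⟨∅, fun _ => 0, by simp, by simp⟩
    | add x y _ _ hx hy =>
      obtain ⟨F1, c1, p1, h1⟩ := hx
      obtain ⟨F2, c2, p2, h2⟩ := hy
      refine ⟨F1 ∪ F2, fun v => (if v ∈ F1 then c1 v else 0) + (if v ∈ F2 then c2 v else 0), ?_, ?_⟩
      · intro v hv
        rcases Finset.mem_union.1 hv with h | h
        · exact p1 v h
        · exact p2 v h
      · intro t n
        rw [Pi.add_apply, Pi.add_apply, h1, h2]
        have e1 : ∑ v ∈ F1, c1 v * qs t v n =
            ∑ v ∈ F1 ∪ F2, (if v ∈ F1 then c1 v else 0) * qs t v n := by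
          rw [← Finset.sum_subset (Finset.subset_union_left (s₁ := F1) (s₂ := F2))]
          · exact Finset.sum_congr rfl fun v hv => by rw [if_pos hv]
          · intro v _ hv
            rw [if_neg hv, zero_mul]
        have e2 : ∑ v ∈ F2, c2 v * qs t v n =
            ∑ v ∈ F1 ∪ F2, (if v ∈ F2 then c2 v else 0) * qs t v n := by
          rw [← Finset.sum_subset (Finset.subset_union_right (s₁ := F1) (s₂ := F2))]
          · exact Finset.sum_congr rfl fun v hv => by rw [if_pos hv]
          · intro v _ hv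
            rw [if_neg hv, zero_mul]
        rw [e1, e2, ← Finset.sum_add_distrib]
        exact Finset.sum_congr rfl fun v _ => by ring
    | smul r x _ hx =>
      obtain ⟨F1, c1, p1, h1⟩ := hx
      refine ⟨F1, fun v => r * c1 v, p1, fun t n => ?_⟩
      rw [Pi.smul_apply, Pi.smul_apply, smul_eq_mul, h1, Finset.mul_sum]
      exact Finset.sum_congr rfl fun v _ => by ring

private theorem w2_qs {v : List ℕ} (hv : Pos v) : (fun (t : ℕ → ℝ) (n : ℕ) => qs t v n) ∈ w2S :=
  Submodule.subset_span ⟨v, hv, rfl⟩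

private theorem w2_cons {k : ℕ} (hk : 1 ≤ k) {F : (ℕ → ℝ) → ℕ → ℝ} (hF : F ∈ w2S) :
    (fun (t : ℕ → ℝ) (n : ℕ) => ∑ m ∈ range n, t m ^ k * F t m) ∈ w2S := by
  induction hF using Submodule.span_induction with
  | mem x hx =>
    obtain ⟨v, hv, rfl⟩ := hx
    have h : (fun (t : ℕ → ℝ) (n : ℕ) => ∑ m ∈ range n, t m ^ k * qs t v m) =
        fun t n => qs t (k :: v) n := by
      funext t n
      rw [qs_cons]
    rw [h]
    refine w2_qs fun l hl => ?_
    rcases List.mem_cons.1 hl with rfl | h
    · exact hk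
    · exact hv l h
  | zero =>
    have h : (fun (t : ℕ → ℝ) (n : ℕ) => ∑ m ∈ range n, t m ^ k *
        (0 : (ℕ → ℝ) → ℕ → ℝ) t m) = 0 := by
      funext t n
      simp
    rw [h]
    exact Submodule.zero_mem _
  | add x y _ _ hx hy =>
    have h : (fun (t : ℕ → ℝ) (n : ℕ) => ∑ m ∈ range n, t m ^ k * (x + y) t m) =
        (fun (t : ℕ → ℝ) (n : ℕ) => ∑ m ∈ range n, t m ^ k * x t m) +
        (fun (t : ℕ → ℝ) (n : ℕ) => ∑ m ∈ range n, t m ^ k * y t m) := by
      funext t n
      simp only [Pi.add_apply, mul_add, Finset.sum_add_distrib]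
    rw [h]
    exact Submodule.add_mem _ hx hy
  | smul r x _ hx =>
    have h : (fun (t : ℕ → ℝ) (n : ℕ) => ∑ m ∈ range n, t m ^ k * (r • x) t m) =
        r • (fun (t : ℕ → ℝ) (n : ℕ) => ∑ m ∈ range n, t m ^ k * x t m) := by
      funext t n
      simp only [Pi.smul_apply, smul_eq_mul, Finset.mul_sum]
      exact Finset.sum_congr rfl fun m _ => by ring
    rw [h]
    exact Submodule.smul_mem _ _ hx

private theorem w2_mul (N : ℕ) : ∀ u v : List ℕ, u.length + v.length ≤ N → Pos u → Pos v →
    (fun (t : ℕ → ℝ) (n : ℕ) => qs t u n * qs t v n) ∈ w2S := by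
  induction N with
  | zero =>
    intro u v h hu hv
    have hu0 : u = [] := List.eq_nil_of_length_eq_zero (by omega)
    subst hu0
    have h : (fun (t : ℕ → ℝ) (n : ℕ) => qs t [] n * qs t v n) = fun t n => qs t v n := by
      funext t n
      rw [qs_nil, one_mul]
    rw [h]
    exact w2_qs hv
  | succ N ih =>
    intro u v h hu hv
    match u, v with
    | [], v =>
      have h : (fun (t : ℕ → ℝ) (n : ℕ) => qs t [] n * qs t v n) = fun t n => qs t v n := by
        funext t n
        rw [qs_nil, one_mul]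
      rw [h]
      exact w2_qs hv
    | u, [] =>
      have h : (fun (t : ℕ → ℝ) (n : ℕ) => qs t u n * qs t [] n) = fun t n => qs t u n := by
        funext t n
        rw [qs_nil, mul_one]
      rw [h]
      exact w2_qs hu
    | k :: u', l :: v' =>
      have hk : 1 ≤ k := hu k (by simp)
      have hl : 1 ≤ l := hv l (by simp)
      have hu' : Pos u' := fun a ha => hu a (by simp [ha])
      have hv' : Pos v' := fun a ha => hv a (by simp [ha])
      simp only [List.length_cons] at h
      have a1 := ih u' (l :: v') (by simp only [List.length_cons]; omega) hu' hv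
      have a2 := ih (k :: u') v' (by simp only [List.length_cons]; omega) hu hv'
      have a3 := ih u' v' (by omega) hu' hv'
      have b1 := w2_cons hk a1
      have b2 := w2_cons hl a2
      have b3 := w2_cons (k := k + l) (by omega) a3
      have e : (fun (t : ℕ → ℝ) (n : ℕ) => qs t (k :: u') n * qs t (l :: v') n) =
          (fun (t : ℕ → ℝ) (n : ℕ) => ∑ m ∈ range n, t m ^ k * (qs t u' m * qs t (l :: v') m)) +
          (fun (t : ℕ → ℝ) (n : ℕ) => ∑ m ∈ range n, t m ^ l * (qs t (k :: u') m * qs t v' m)) +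
          (fun (t : ℕ → ℝ) (n : ℕ) => ∑ m ∈ range n, t m ^ (k + l) * (qs t u' m * qs t v' m)) := by
        funext t n
        simp only [Pi.add_apply]
        induction n with
        | zero => simp [qs_cons]
        | succ n ihn =>
          rw [qs_cons t k u' (n + 1), qs_cons t l v' (n + 1)]
          simp only [Finset.sum_range_succ]
          rw [← qs_cons t k u' n, ← qs_cons t l v' n, pow_add]
          linear_combination ihn
      rw [e]
      exact Submodule.add_mem _ (Submodule.add_mem _ b1 b2) b3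

private theorem w2_mulR {v : List ℕ} (hv : Pos v) {F : (ℕ → ℝ) → ℕ → ℝ} (hF : F ∈ w2S) :
    (fun (t : ℕ → ℝ) (n : ℕ) => F t n * qs t v n) ∈ w2S := by
  induction hF using Submodule.span_induction with
  | mem x hx =>
    obtain ⟨u, hu, rfl⟩ := hx
    exact w2_mul _ u v le_rfl hu hv
  | zero =>
    have h : (fun (t : ℕ → ℝ) (n : ℕ) => (0 : (ℕ → ℝ) → ℕ → ℝ) t n * qs t v n) = 0 := by
      funext t n
      simp
    rw [h]
    exact Submodule.zero_mem _
  | add x y _ _ hx hy =>
    have h : (fun (t : ℕ → ℝ) (n : ℕ) => (x + y) t n * qs t v n) =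
        (fun (t : ℕ → ℝ) (n : ℕ) => x t n * qs t v n) +
        (fun (t : ℕ → ℝ) (n : ℕ) => y t n * qs t v n) := by
      funext t n
      simp only [Pi.add_apply, add_mul]
    rw [h]
    exact Submodule.add_mem _ hx hy
  | smul r x _ hx =>
    have h : (fun (t : ℕ → ℝ) (n : ℕ) => (r • x) t n * qs t v n) =
        r • (fun (t : ℕ → ℝ) (n : ℕ) => x t n * qs t v n) := by
      funext t n
      simp only [Pi.smul_apply, smul_eq_mul, mul_assoc]
    rw [h]
    exact Submodule.smul_mem _ _ hx

private theorem w2_mulF {F G : (ℕ → ℝ) → ℕ → ℝ} (hF : F ∈ w2S) (hG : G ∈ w2S) :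
    (fun (t : ℕ → ℝ) (n : ℕ) => F t n * G t n) ∈ w2S := by
  induction hG using Submodule.span_induction with
  | mem x hx =>
    obtain ⟨v, hv, rfl⟩ := hx
    exact w2_mulR hv hF
  | zero =>
    have h : (fun (t : ℕ → ℝ) (n : ℕ) => F t n * (0 : (ℕ → ℝ) → ℕ → ℝ) t n) = 0 := by
      funext t n
      simp
    rw [h]
    exact Submodule.zero_mem _
  | add x y _ _ hx hy =>
    have h : (fun (t : ℕ → ℝ) (n : ℕ) => F t n * (x + y) t n) =
        (fun (t : ℕ → ℝ) (n : ℕ) => F t n * x t n) +
        (fun (t : ℕ → ℝ) (n : ℕ) => F t n * y t n) := by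
      funext t n
      simp only [Pi.add_apply, mul_add]
    rw [h]
    exact Submodule.add_mem _ hx hy
  | smul r x _ hx =>
    have h : (fun (t : ℕ → ℝ) (n : ℕ) => F t n * (r • x) t n) =
        r • (fun (t : ℕ → ℝ) (n : ℕ) => F t n * x t n) := by
      funext t n
      simp only [Pi.smul_apply, smul_eq_mul]
      ring
    rw [h]
    exact Submodule.smul_mem _ _ hx

theorem qf_zero : QF fun _ _ => 0 := ⟨∅, fun _ => 0, by simp, by simp⟩

theorem qf_one : QF fun _ _ => 1 :=
  ⟨{[]}, fun _ => 1, by simp [Pos], by simp [qs_nil]⟩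

theorem qf_qs {v : List ℕ} (hv : Pos v) : QF fun t n => qs t v n := (w2_iff _).2 (w2_qs hv)

theorem qf_smul {F : (ℕ → ℝ) → ℕ → ℝ} (r : ℝ) (hF : QF F) : QF fun t n => r * F t n :=
  (w2_iff _).2 (Submodule.smul_mem _ r ((w2_iff _).1 hF))

theorem qf_sum {ι : Type*} (S : Finset ι) (F : ι → (ℕ → ℝ) → ℕ → ℝ) (hF : ∀ i ∈ S, QF (F i)) :
    QF fun t n => ∑ i ∈ S, F i t n := by
  rw [w2_iff]
  have h : (fun (t : ℕ → ℝ) (n : ℕ) => ∑ i ∈ S, F i t n) = ∑ i ∈ S, F i := by
    funext t n
    simp [Finset.sum_apply]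
  rw [h]
  exact Submodule.sum_mem _ fun i hi => (w2_iff _).1 (hF i hi)

theorem qf_mul {F G : (ℕ → ℝ) → ℕ → ℝ} (hF : QF F) (hG : QF G) : QF fun t n => F t n * G t n :=
  (w2_iff _).2 (w2_mulF ((w2_iff _).1 hF) ((w2_iff _).1 hG))

theorem qm_QF {N : ℕ} {wd : Fin N → List ℕ} (hwd : ∀ i, Pos (wd i)) (α : Fin N → ℕ) :
    QF fun t n => qm wd t n α := by
  classical
  have hpow : ∀ (F : (ℕ → ℝ) → ℕ → ℝ), QF F → ∀ k : ℕ, QF fun t n => F t n ^ k := by
    intro F hF k
    induction k with
    | zero => simpa using qf_one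
    | succ k ih =>
      have := qf_mul ih hF
      simpa only [pow_succ] using this
  have key : ∀ S : Finset (Fin N), QF fun t n => ∏ i ∈ S, qs t (wd i) n ^ α i := by
    intro S
    induction S using Finset.induction_on with
    | empty => simpa using qf_one
    | insert i S hi ih =>
      have := qf_mul (hpow _ (qf_qs (hwd i)) (α i)) ih
      simpa only [Finset.prod_insert hi] using this
  exact key Finset.univ

end WX
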